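import Mathlib

/-!
# Divisor sums and counting integers in intervals
-/

set_option autoImplicit false

open Finset

namespace Pool.Agent.N656.BD

lemma tau_sq (n : ℕ) : n.divisors.card ^ 2 ≤ 4 * n := by
  classical
  have h1 : n.divisors ⊆ Icc 1 (Nat.sqrt n) ∪ (Icc 1 (Nat.sqrt n)).image fun d => n / d := by
    intro d hd
    rw [Nat.mem_divisors] at hd
    have hd0 : 0 < d := Nat.pos_of_dvd_of_pos hd.1 (Nat.pos_of_ne_zero hd.2)
    rw [mem_union]
    rcases le_or_gt d (Nat.sqrt n) with h | h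
    · left
      exact mem_Icc.2 ⟨hd0, h⟩
    · right
      obtain ⟨e, he⟩ := hd.1
      have he0 : 0 < e := by
        rcases Nat.eq_zero_or_pos e with h0 | h0
        · rw [h0, mul_zero] at he
          exact absurd he hd.2
        · exact h0
      rw [mem_image]
      refine ⟨e, mem_Icc.2 ⟨he0, ?_⟩, ?_⟩
      · by_contra hcon
        push Not at hcon
        have h2 : (Nat.sqrt n + 1) * (Nat.sqrt n + 1) ≤ d * e := Nat.mul_le_mul h hcon
        have h4 : n < (Nat.sqrt n + 1) * (Nat.sqrt n + 1) := Nat.sqrt_lt.1 (Nat.lt_succ_self _)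
        omega
      · rw [he, Nat.mul_div_cancel _ he0]
  have h2 := (card_le_card h1).trans ((card_union_le _ _).trans
    (Nat.add_le_add_left card_image_le _))
  rw [Nat.card_Icc, Nat.add_sub_cancel] at h2
  have h3 : Nat.sqrt n * Nat.sqrt n ≤ n := Nat.sqrt_le n
  nlinarith

lemma tau_mul (m n : ℕ) : (m * n).divisors.card ≤ m.divisors.card * n.divisors.card := by
  classical
  rcases Nat.eq_zero_or_pos m with hm | hm
  · subst hm
    simp
  rcases Nat.eq_zero_or_pos n with hn | hn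
  · subst hn
    simp
  rw [← card_product]
  refine (card_le_card ?_).trans (card_image_le (f := fun p : ℕ × ℕ => p.1 * p.2))
  intro d hd
  rw [Nat.mem_divisors] at hd
  obtain ⟨d₁, d₂, h1, h2, h3⟩ := exists_dvd_and_dvd_of_dvd_mul hd.1
  rw [mem_image]
  exact ⟨(d₁, d₂), mem_product.2 ⟨Nat.mem_divisors.2 ⟨h1, hm.ne'⟩,
    Nat.mem_divisors.2 ⟨h2, hn.ne'⟩⟩, h3.symm⟩

lemma harm (H : ℕ) : ∑ d ∈ Icc 1 H, 1 / (d : ℝ) ≤ 1 + Real.log H := by
  have h5 := harmonic_le_one_add_log H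
  have h6 : ((harmonic H : ℚ) : ℝ) = ∑ s ∈ Icc 1 H, 1 / (s : ℝ) := by
    rw [harmonic_eq_sum_Icc]
    push_cast
    refine Finset.sum_congr rfl fun s _ => ?_
    rw [one_div]
  rwa [h6] at h5

lemma card_mult (H d : ℕ) : ((Icc 1 H).filter fun n => d ∣ n).card = H / d := by
  rw [← Nat.Ioc_filter_dvd_card_eq_div]
  rfl

lemma sum_tau (H : ℕ) : ∑ n ∈ Icc 1 H, (n.divisors.card : ℝ) ≤ H * (1 + Real.log H) := by
  classical
  have h1 : ∀ n ∈ Icc 1 H, (n.divisors.card : ℝ) = ∑ d ∈ Icc 1 H, if d ∣ n then (1 : ℝ) else 0 := by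
    intro n hn
    rw [mem_Icc] at hn
    rw [Finset.sum_boole]
    congr 1
    have : n.divisors = (Icc 1 H).filter fun d => d ∣ n := by
      ext d
      rw [Nat.mem_divisors, mem_filter, mem_Icc]
      constructor
      · rintro ⟨h2, h3⟩
        have := Nat.le_of_dvd (by omega) h2
        have := Nat.pos_of_dvd_of_pos h2 (by omega)
        exact ⟨⟨by omega, by omega⟩, h2⟩
      · rintro ⟨_, h2⟩
        exact ⟨h2, by omega⟩
    rw [this]
  rw [Finset.sum_congr rfl h1, Finset.sum_comm]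
  have h2 : ∀ d ∈ Icc 1 H, ∑ n ∈ Icc 1 H, (if d ∣ n then (1 : ℝ) else 0) ≤ H * (1 / (d : ℝ)) := by
    intro d hd
    rw [mem_Icc] at hd
    rw [Finset.sum_boole, card_mult, mul_one_div]
    exact Nat.cast_div_le
  calc _ ≤ ∑ d ∈ Icc 1 H, (H : ℝ) * (1 / (d : ℝ)) := Finset.sum_le_sum h2
    _ = H * ∑ d ∈ Icc 1 H, 1 / (d : ℝ) := by rw [Finset.mul_sum]
    _ ≤ _ := by
        have := harm H
        gcongr

lemma sum_tau_sq (H : ℕ) : ∑ n ∈ Icc 1 H, (n.divisors.card : ℝ) ^ 2 ≤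
    2 * Real.sqrt H * (H * (1 + Real.log H)) := by
  have h1 : ∀ n ∈ Icc 1 H, (n.divisors.card : ℝ) ^ 2 ≤
      2 * Real.sqrt H * (n.divisors.card : ℝ) := by
    intro n hn
    rw [mem_Icc] at hn
    have h2 : (n.divisors.card : ℝ) ≤ 2 * Real.sqrt H := by
      have h3 : ((n.divisors.card : ℝ)) ^ 2 ≤ 4 * H := by
        have h4 := tau_sq n
        have h5 : n.divisors.card ^ 2 ≤ 4 * H := by omega
        exact_mod_cast h5
      have h6 : (n.divisors.card : ℝ) ≤ Real.sqrt (4 * H) := Real.le_sqrt_of_sq_le h3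
      rwa [Real.sqrt_mul (by norm_num), show (4 : ℝ) = 2 ^ 2 by norm_num,
        Real.sqrt_sq (by norm_num)] at h6
    rw [sq]
    gcongr
  calc _ ≤ ∑ n ∈ Icc 1 H, 2 * Real.sqrt H * (n.divisors.card : ℝ) := Finset.sum_le_sum h1
    _ = 2 * Real.sqrt H * ∑ n ∈ Icc 1 H, (n.divisors.card : ℝ) := by rw [Finset.mul_sum]
    _ ≤ _ := by
        have := sum_tau H
        gcongr

/-- the nonzero integers of absolute value at most `H` -/
noncomputable def nz (H : ℕ) : Finset ℤ := (Icc (-(H : ℤ)) H).filter fun t => t ≠ 0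

lemma mem_nz {H : ℕ} {t : ℤ} : t ∈ nz H ↔ |t| ≤ H ∧ t ≠ 0 := by
  unfold nz
  rw [mem_filter, mem_Icc, abs_le]

lemma sum_nz (f : ℕ → ℝ) (H : ℕ) : ∑ t ∈ nz H, f t.natAbs = 2 * ∑ n ∈ Icc 1 H, f n := by
  classical
  have h1 : nz H = (Icc 1 H).image (fun s : ℕ => (s : ℤ)) ∪
      (Icc 1 H).image (fun s : ℕ => -(s : ℤ)) := by
    ext t
    rw [mem_nz, mem_union, mem_image, mem_image, abs_le]
    constructor
    · rintro ⟨h2, h3⟩
      rcases lt_or_gt_of_ne h3 with h | h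
      · right
        exact ⟨(-t).toNat, by rw [mem_Icc]; omega, by omega⟩
      · left
        exact ⟨t.toNat, by rw [mem_Icc]; omega, by omega⟩
    · rintro (⟨s, hs, rfl⟩ | ⟨s, hs, rfl⟩) <;> rw [mem_Icc] at hs <;> omega
  have hd : Disjoint ((Icc 1 H).image (fun s : ℕ => (s : ℤ)))
      ((Icc 1 H).image (fun s : ℕ => -(s : ℤ))) := by
    rw [Finset.disjoint_left]
    intro t h2 h3
    rw [mem_image] at h2 h3
    obtain ⟨s, hs, rfl⟩ := h2
    obtain ⟨s', hs', h4⟩ := h3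
    rw [mem_Icc] at hs hs'
    omega
  rw [h1, Finset.sum_union hd, Finset.sum_image (fun x _ y _ h => by exact_mod_cast h),
    Finset.sum_image (fun x _ y _ h => by simpa using h)]
  simp only [Int.natAbs_natCast, Int.natAbs_neg]
  ring

/-- the triples `(β, γ, α)` with `α ∣ γ β ^ 2` -/
lemma card_div (H : ℕ) :
    (((nz H ×ˢ nz H ×ˢ Icc (-(H : ℤ)) H).filter fun t => t.2.2 ∣ t.2.1 * t.1 ^ 2).card : ℝ) ≤
      16 * ((H : ℝ) ^ 2 * Real.sqrt H * (1 + Real.log H) ^ 2) := by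
  classical
  have h1 : ((nz H ×ˢ nz H ×ˢ Icc (-(H : ℤ)) H).filter
      fun t => t.2.2 ∣ t.2.1 * t.1 ^ 2).card =
      ∑ β ∈ nz H, ∑ γ ∈ nz H, ((Icc (-(H : ℤ)) H).filter fun α => α ∣ γ * β ^ 2).card := by
    rw [Finset.card_filter, Finset.sum_product]
    refine Finset.sum_congr rfl fun β _ => ?_
    rw [Finset.sum_product]
    refine Finset.sum_congr rfl fun γ _ => ?_
    rw [Finset.card_filter]
  have h2 : ∀ β ∈ nz H, ∀ γ ∈ nz H,
      (((Icc (-(H : ℤ)) H).filter fun α => α ∣ γ * β ^ 2).card : ℝ) ≤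
        2 * ((γ.natAbs.divisors.card : ℝ) * (β.natAbs.divisors.card : ℝ) ^ 2) := by
    intro β hβ γ hγ
    rw [mem_nz] at hβ hγ
    have hne : γ * β ^ 2 ≠ 0 := mul_ne_zero hγ.2 (pow_ne_zero _ hβ.2)
    have h3 : (Icc (-(H : ℤ)) H).filter (fun α => α ∣ γ * β ^ 2) ⊆
        (γ * β ^ 2).natAbs.divisors.image (fun d : ℕ => (d : ℤ)) ∪
        (γ * β ^ 2).natAbs.divisors.image (fun d : ℕ => -(d : ℤ)) := by
      intro α hα
      rw [mem_filter] at hα
      have h4 : α.natAbs ∈ (γ * β ^ 2).natAbs.divisors := by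
        rw [Nat.mem_divisors]
        exact ⟨Int.natAbs_dvd_natAbs.2 hα.2, Int.natAbs_ne_zero.2 hne⟩
      rw [mem_union, mem_image, mem_image]
      rcases Int.natAbs_eq α with h | h
      · left; exact ⟨_, h4, h.symm⟩
      · right; exact ⟨_, h4, h.symm⟩
    have h4 := (card_le_card h3).trans ((card_union_le _ _).trans
      (add_le_add card_image_le card_image_le))
    have h5 : (γ * β ^ 2).natAbs = γ.natAbs * (β.natAbs * β.natAbs) := by
      rw [sq, Int.natAbs_mul, Int.natAbs_mul]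
    rw [h5] at h4
    have h6 := (tau_mul γ.natAbs (β.natAbs * β.natAbs)).trans
      (Nat.mul_le_mul_left _ (tau_mul β.natAbs β.natAbs))
    have h7 : ((Icc (-(H : ℤ)) H).filter fun α => α ∣ γ * β ^ 2).card ≤
        2 * (γ.natAbs.divisors.card * β.natAbs.divisors.card ^ 2) := by
      have h8 : β.natAbs.divisors.card ^ 2 = β.natAbs.divisors.card * β.natAbs.divisors.card := sq _
      rw [h8]
      omega
    exact_mod_cast h7
  rw [h1]
  push_cast
  calc _ ≤ ∑ β ∈ nz H, ∑ γ ∈ nz H,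
        2 * ((γ.natAbs.divisors.card : ℝ) * (β.natAbs.divisors.card : ℝ) ^ 2) :=
        Finset.sum_le_sum fun β hβ => Finset.sum_le_sum fun γ hγ => h2 β hβ γ hγ
    _ = 2 * ((∑ γ ∈ nz H, (γ.natAbs.divisors.card : ℝ)) *
        ∑ β ∈ nz H, (β.natAbs.divisors.card : ℝ) ^ 2) := by
        rw [Finset.sum_mul_sum, Finset.sum_comm, Finset.mul_sum]
        refine Finset.sum_congr rfl fun γ _ => ?_
        rw [Finset.mul_sum]
    _ = 2 * ((2 * ∑ n ∈ Icc 1 H, (n.divisors.card : ℝ)) *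
        (2 * ∑ n ∈ Icc 1 H, (n.divisors.card : ℝ) ^ 2)) := by
        rw [sum_nz (fun n => (n.divisors.card : ℝ)), sum_nz (fun n => (n.divisors.card : ℝ) ^ 2)]
    _ ≤ 2 * ((2 * (H * (1 + Real.log H))) *
        (2 * (2 * Real.sqrt H * (H * (1 + Real.log H))))) := by
        have e1 := sum_tau H
        have e2 := sum_tau_sq H
        have e3 : 0 ≤ ∑ n ∈ Icc 1 H, (n.divisors.card : ℝ) :=
          Finset.sum_nonneg fun _ _ => by positivity
        have e4 : 0 ≤ ∑ n ∈ Icc 1 H, (n.divisors.card : ℝ) ^ 2 :=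
          Finset.sum_nonneg fun _ _ => by positivity
        gcongr
    _ = _ := by ring

/-- the sum of the greatest common divisors -/
lemma sum_gcd (H : ℕ) : ∑ m ∈ Icc 1 H, ∑ n ∈ Icc 1 H, (Nat.gcd m n : ℝ) ≤
    (H : ℝ) ^ 2 * (1 + Real.log H) := by
  classical
  have h1 : ∀ m ∈ Icc 1 H, ∀ n ∈ Icc 1 H, (Nat.gcd m n : ℝ) ≤
      ∑ d ∈ Icc 1 H, (d : ℝ) * ((if d ∣ m then 1 else 0) * (if d ∣ n then 1 else 0)) := by
    intro m hm n hn
    rw [mem_Icc] at hm hn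
    have h2 : Nat.gcd m n ∈ Icc 1 H := by
      rw [mem_Icc]
      have := Nat.gcd_pos_of_pos_left n (by omega : 0 < m)
      have := Nat.gcd_le_left n (by omega : 0 < m)
      omega
    refine le_trans ?_ (Finset.single_le_sum (f := fun d : ℕ => (d : ℝ) *
      ((if d ∣ m then 1 else 0) * (if d ∣ n then 1 else 0))) (fun d _ => by positivity) h2)
    simp only [if_pos (Nat.gcd_dvd_left m n), if_pos (Nat.gcd_dvd_right m n), mul_one, le_refl]
  calc _ ≤ ∑ m ∈ Icc 1 H, ∑ n ∈ Icc 1 H, ∑ d ∈ Icc 1 H, (d : ℝ) *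
        ((if d ∣ m then 1 else 0) * (if d ∣ n then 1 else 0)) :=
        Finset.sum_le_sum fun m hm => Finset.sum_le_sum fun n hn => h1 m hm n hn
    _ = ∑ d ∈ Icc 1 H, (d : ℝ) * ((∑ m ∈ Icc 1 H, if d ∣ m then (1 : ℝ) else 0) *
        ∑ n ∈ Icc 1 H, if d ∣ n then (1 : ℝ) else 0) := by
        have e1 : ∀ m ∈ Icc 1 H, ∑ n ∈ Icc 1 H, ∑ d ∈ Icc 1 H, (d : ℝ) *
            (((if d ∣ m then 1 else 0) : ℝ) * (if d ∣ n then 1 else 0)) =
            ∑ d ∈ Icc 1 H, ∑ n ∈ Icc 1 H, (d : ℝ) *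
            (((if d ∣ m then 1 else 0) : ℝ) * (if d ∣ n then 1 else 0)) :=
          fun m _ => Finset.sum_comm
        rw [Finset.sum_congr rfl e1, Finset.sum_comm]
        refine Finset.sum_congr rfl fun d _ => ?_
        rw [Finset.sum_mul_sum, Finset.mul_sum]
        refine Finset.sum_congr rfl fun m _ => ?_
        rw [Finset.mul_sum]
    _ ≤ ∑ d ∈ Icc 1 H, (H : ℝ) ^ 2 * (1 / (d : ℝ)) := by
        refine Finset.sum_le_sum fun d hd => ?_
        rw [mem_Icc] at hd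
        have hd0 : (0 : ℝ) < d := by exact_mod_cast hd.1
        rw [Finset.sum_boole, card_mult]
        have h3 : ((H / d : ℕ) : ℝ) ≤ H / d := Nat.cast_div_le
        have h4 : (0 : ℝ) ≤ ((H / d : ℕ) : ℝ) := by positivity
        calc (d : ℝ) * (((H / d : ℕ) : ℝ) * ((H / d : ℕ) : ℝ)) ≤ d * ((H / d) * (H / d)) := by
              gcongr
          _ = _ := by field_simp
    _ = (H : ℝ) ^ 2 * ∑ d ∈ Icc 1 H, 1 / (d : ℝ) := by rw [Finset.mul_sum]
    _ ≤ _ := by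
        have := harm H
        gcongr

lemma sum_gcd_nz (H : ℕ) : ∑ α ∈ nz H, ∑ β ∈ nz H, (Int.gcd α β : ℝ) ≤
    4 * ((H : ℝ) ^ 2 * (1 + Real.log H)) := by
  have h1 : ∀ α ∈ nz H, ∑ β ∈ nz H, (Int.gcd α β : ℝ) =
      2 * ∑ n ∈ Icc 1 H, (Nat.gcd α.natAbs n : ℝ) := by
    intro α _
    exact sum_nz (fun n => (Nat.gcd α.natAbs n : ℝ)) H
  rw [Finset.sum_congr rfl h1, sum_nz (fun m => 2 * ∑ n ∈ Icc 1 H, (Nat.gcd m n : ℝ)),
    ← Finset.mul_sum]
  have := sum_gcd H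
  linarith

/-- integers in an interval -/
lemma card_int (A β : ℤ) (hβ : β ≠ 0) (K : ℝ) (hK : 0 ≤ K) :
    {y : ℤ | |(A : ℝ) + β * y| ≤ K}.Finite ∧
    (Set.ncard {y : ℤ | |(A : ℝ) + β * y| ≤ K} : ℝ) ≤ 2 * K / |(β : ℝ)| + 1 := by
  have hβ0 : (0 : ℝ) < |(β : ℝ)| := abs_pos.2 (by exact_mod_cast hβ)
  have hβ1 : (β : ℝ) ≠ 0 := by exact_mod_cast hβ
  obtain ⟨c, hc⟩ : ∃ c : ℝ, c = -(A : ℝ) / β := ⟨_, rfl⟩
  obtain ⟨r, hr⟩ : ∃ r : ℝ, r = K / |(β : ℝ)| := ⟨_, rfl⟩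
  have hr0 : 0 ≤ r := by rw [hr]; positivity
  have h1 : {y : ℤ | |(A : ℝ) + β * y| ≤ K} ⊆ (Icc ⌈c - r⌉ ⌊c + r⌋ : Finset ℤ) := by
    intro y hy
    rw [Set.mem_ofPred_eq] at hy
    have h2 : (A : ℝ) + β * y = β * (y - c) := by
      rw [hc]
      field_simp
      ring
    rw [h2, abs_mul, mul_comm, ← le_div_iff₀ hβ0, ← hr, abs_le] at hy
    rw [mem_coe, mem_Icc]
    exact ⟨Int.ceil_le.2 (by linarith), Int.le_floor.2 (by linarith)⟩
  refine ⟨(Finset.finite_toSet _).subset h1, ?_⟩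
  have h2 := Set.ncard_le_ncard h1 (Finset.finite_toSet _)
  rw [Set.ncard_coe_finset, Int.card_Icc] at h2
  have h3 : (((⌊c + r⌋ + 1 - ⌈c - r⌉).toNat : ℕ) : ℝ) ≤ 2 * r + 1 := by
    have h4 : (⌊c + r⌋ : ℝ) ≤ c + r := Int.floor_le _
    have h5 : c - r ≤ (⌈c - r⌉ : ℝ) := Int.le_ceil _
    rcases le_total 0 (⌊c + r⌋ + 1 - ⌈c - r⌉) with h | h
    · have h6 : (((⌊c + r⌋ + 1 - ⌈c - r⌉).toNat : ℕ) : ℝ) =
          ((⌊c + r⌋ + 1 - ⌈c - r⌉ : ℤ) : ℝ) := by
        exact_mod_cast congrArg (fun z : ℤ => (z : ℝ)) (Int.toNat_of_nonneg h)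
      rw [h6]
      push_cast
      linarith
    · rw [Int.toNat_of_nonpos h]
      push_cast
      linarith
  have h4 : (Set.ncard {y : ℤ | |(A : ℝ) + β * y| ≤ K} : ℝ) ≤
      (((⌊c + r⌋ + 1 - ⌈c - r⌉).toNat : ℕ) : ℝ) := by exact_mod_cast h2
  refine h4.trans (h3.trans (le_of_eq ?_))
  rw [hr]
  ring

end Pool.Agent.N656.BD
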