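import Mathlib

/-!
# Integer zeros both of whose coordinates are large
-/

set_option autoImplicit false

open Finset

namespace Pool.Agent.N656.BD

/-- the index of the coefficient of `x ^ p.2 * y ^ p.1` -/
abbrev Ix (a b : ℕ) := Fin (b + 3) × Fin (a + 3)

/-- the index of the coefficient of `x ^ i * y ^ j` -/
def ix (a b i j : ℕ) (hi : i < a + 3) (hj : j < b + 3) : Ix a b := (⟨j, hj⟩, ⟨i, hi⟩)

lemma ix_ne {a b i j i' j' : ℕ} {hi : i < a + 3} {hj : j < b + 3} {hi' : i' < a + 3}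
    {hj' : j' < b + 3} (h : i ≠ i' ∨ j ≠ j') : ix a b i j hi hj ≠ ix a b i' j' hi' hj' := by
  intro h1
  unfold ix at h1
  rw [Prod.ext_iff, Fin.ext_iff, Fin.ext_iff] at h1
  simp only at h1
  omega

lemma ne_ix {a b i j : ℕ} {hi : i < a + 3} {hj : j < b + 3} {p : Ix a b}
    (h : p ≠ ix a b i j hi hj) : ¬ ((p.2 : ℕ) = i ∧ (p.1 : ℕ) = j) := by
  rintro ⟨h1, h2⟩
  apply h
  unfold ix
  rw [Prod.ext_iff, Fin.ext_iff, Fin.ext_iff]
  exact ⟨h2, h1⟩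

variable {a b : ℕ}

/-- the value of the polynomial -/
def G (w : Ix a b → ℤ) (x y : ℤ) : ℤ := ∑ p : Ix a b, w p * x ^ (p.2 : ℕ) * y ^ (p.1 : ℕ)

lemma split_sum {ι : Type} [Fintype ι] [DecidableEq ι] (f : ι → ℝ) (S : Finset ι) (c : ℝ)
    (hc : 0 ≤ c) (h0 : ∑ p, f p = 0) (hf : ∀ p, p ∉ S → |f p| ≤ c) :
    |∑ p ∈ S, f p| ≤ Fintype.card ι * c := by
  have h1 := Finset.sum_add_sum_compl S f
  rw [h0] at h1
  have h2 : ∑ p ∈ S, f p = -∑ p ∈ Sᶜ, f p := by linarith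
  rw [h2, abs_neg]
  calc |∑ p ∈ Sᶜ, f p| ≤ ∑ p ∈ Sᶜ, |f p| := Finset.abs_sum_le_sum_abs _ _
    _ ≤ ∑ _p ∈ Sᶜ, c := Finset.sum_le_sum fun p hp => hf p (Finset.mem_compl.1 hp)
    _ = (Sᶜ.card : ℝ) * c := by rw [Finset.sum_const, nsmul_eq_mul]
    _ ≤ _ := by
      gcongr
      exact card_le_univ _

lemma mm {X Y : ℝ} (hX : 1 ≤ X) (hY : 1 ≤ Y) {i j i' j' : ℕ} (hi : i ≤ i') (hj : j ≤ j') :
    X ^ i * Y ^ j ≤ X ^ i' * Y ^ j' :=
  mul_le_mul (pow_le_pow_right₀ hX hi) (pow_le_pow_right₀ hY hj) (by positivity) (by positivity)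

lemma mon_c {X Y m : ℝ} (hX : 1 ≤ X) (hY : 1 ≤ Y) (hm : 0 ≤ m) (hmX : m ≤ X) (hmY : m ≤ Y)
    {i j : ℕ} (hi : i ≤ a + 2) (hj : j ≤ b + 2) (h : ¬ (i = a + 2 ∧ j = b + 2)) :
    X ^ i * Y ^ j * m ≤ X ^ (a + 2) * Y ^ (b + 2) := by
  have hX0 : 0 ≤ X := by linarith
  have hY0 : 0 ≤ Y := by linarith
  rcases Nat.lt_or_ge i (a + 2) with h1 | h1
  · calc X ^ i * Y ^ j * m ≤ X ^ i * Y ^ j * X := by gcongr
      _ = X ^ (i + 1) * Y ^ j := by ring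
      _ ≤ _ := mm hX hY (by omega) (by omega)
  · have h2 : j < b + 2 := by omega
    calc X ^ i * Y ^ j * m ≤ X ^ i * Y ^ j * Y := by gcongr
      _ = X ^ i * Y ^ (j + 1) := by ring
      _ ≤ _ := mm hX hY (by omega) (by omega)

lemma mon_0 {X Y : ℝ} (hX : 1 ≤ X) (hY : 1 ≤ Y)
    {i j : ℕ} (hi : i ≤ a + 2) (hj : j ≤ b + 2) (h : ¬ (i = a + 2 ∧ j = b + 2))
    (h' : ¬ (i = a + 2 ∧ j = b + 1)) (h'' : ¬ (i = a + 1 ∧ j = b + 2)) :
    X ^ i * Y ^ j * (X * Y) ≤ (X ^ 2 + Y ^ 2) * (X ^ (a + 1) * Y ^ (b + 1)) := by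
  have hX0 : 0 ≤ X := by linarith
  have hY0 : 0 ≤ Y := by linarith
  have hW : 0 ≤ X ^ (a + 1) * Y ^ (b + 1) := by positivity
  rcases Nat.lt_or_ge i (a + 2) with h1 | h1
  · rcases Nat.lt_or_ge j (b + 2) with h2 | h2
    · have h3 : X ^ i * Y ^ j ≤ X ^ (a + 1) * Y ^ (b + 1) := mm hX hY (by omega) (by omega)
      have h4 : X * Y ≤ X ^ 2 + Y ^ 2 := by nlinarith [sq_nonneg (X - Y)]
      calc X ^ i * Y ^ j * (X * Y) ≤ (X ^ (a + 1) * Y ^ (b + 1)) * (X ^ 2 + Y ^ 2) := by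
            gcongr
        _ = _ := by ring
    · have h3 : X ^ i * Y ^ j ≤ X ^ a * Y ^ (b + 2) := mm hX hY (by omega) (by omega)
      calc X ^ i * Y ^ j * (X * Y) ≤ X ^ a * Y ^ (b + 2) * (X * Y) := by gcongr
        _ = Y ^ 2 * (X ^ (a + 1) * Y ^ (b + 1)) := by ring
        _ ≤ _ := by
          have : Y ^ 2 ≤ X ^ 2 + Y ^ 2 := by nlinarith [sq_nonneg X]
          gcongr
  · have h3 : X ^ i * Y ^ j ≤ X ^ (a + 2) * Y ^ b := mm hX hY (by omega) (by omega)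
    calc X ^ i * Y ^ j * (X * Y) ≤ X ^ (a + 2) * Y ^ b * (X * Y) := by gcongr
      _ = X ^ 2 * (X ^ (a + 1) * Y ^ (b + 1)) := by ring
      _ ≤ _ := by
        have : X ^ 2 ≤ X ^ 2 + Y ^ 2 := by nlinarith [sq_nonneg Y]
        gcongr

lemma mon_1 {X Y ρ : ℝ} (hX : 1 ≤ X) (hY : 1 ≤ Y) (hρ : 1 ≤ ρ) (hXY : X ≤ ρ * Y)
    (hYX : Y ≤ ρ * X)
    {i j : ℕ} (hi : i ≤ a + 2) (hj : j ≤ b + 2) (h : ¬ (i = a + 2 ∧ j = b + 2))
    (h' : ¬ (i = a + 2 ∧ j = b + 1)) (h'' : ¬ (i = a + 1 ∧ j = b + 2)) :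
    X ^ i * Y ^ j ≤ ρ * (X ^ (a + 1) * Y ^ (b + 1)) := by
  have hX0 : 0 ≤ X := by linarith
  have hY0 : 0 ≤ Y := by linarith
  have hW : 0 ≤ X ^ (a + 1) * Y ^ (b + 1) := by positivity
  rcases Nat.lt_or_ge i (a + 2) with h1 | h1
  · rcases Nat.lt_or_ge j (b + 2) with h2 | h2
    · have h3 : X ^ i * Y ^ j ≤ X ^ (a + 1) * Y ^ (b + 1) := mm hX hY (by omega) (by omega)
      nlinarith
    · have h3 : X ^ i * Y ^ j ≤ X ^ a * Y ^ (b + 2) := mm hX hY (by omega) (by omega)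
      calc X ^ i * Y ^ j ≤ X ^ a * Y ^ (b + 2) := h3
        _ = X ^ a * Y ^ (b + 1) * Y := by ring
        _ ≤ X ^ a * Y ^ (b + 1) * (ρ * X) := by gcongr
        _ = _ := by ring
  · have h3 : X ^ i * Y ^ j ≤ X ^ (a + 2) * Y ^ b := mm hX hY (by omega) (by omega)
    calc X ^ i * Y ^ j ≤ X ^ (a + 2) * Y ^ b := h3
      _ = X ^ (a + 1) * Y ^ b * X := by ring
      _ ≤ X ^ (a + 1) * Y ^ b * (ρ * Y) := by gcongr
      _ = _ := by ring

lemma mon_2 {X Y ρ : ℝ} (hX : 1 ≤ X) (hY : 1 ≤ Y) (hρ : 1 ≤ ρ) (hXY : X ≤ ρ * Y)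
    (hYX : Y ≤ ρ * X)
    {i j : ℕ} (hi : i ≤ a + 2) (hj : j ≤ b + 2) (h : ¬ (i = a + 2 ∧ j = b + 2))
    (h' : ¬ (i = a + 2 ∧ j = b + 1)) (h'' : ¬ (i = a + 1 ∧ j = b + 2))
    (h3 : ¬ (i = a + 1 ∧ j = b + 1)) (h4 : ¬ (i = a + 2 ∧ j = b)) (h5 : ¬ (i = a ∧ j = b + 2)) :
    X ^ i * Y ^ j * X ≤ ρ ^ 2 * (X ^ (a + 1) * Y ^ (b + 1)) := by
  have hX0 : 0 ≤ X := by linarith
  have hY0 : 0 ≤ Y := by linarith
  have hρ0 : 0 ≤ ρ := by linarith
  have hW : 0 ≤ X ^ (a + 1) * Y ^ (b + 1) := by positivity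
  have hρ2 : 1 ≤ ρ ^ 2 := by nlinarith
  have hρ3 : ρ ≤ ρ ^ 2 := by nlinarith
  rcases Nat.lt_or_ge i (a + 2) with h1 | h1
  · rcases Nat.lt_or_ge j (b + 2) with h2 | h2
    · rcases Nat.lt_or_ge i (a + 1) with h6 | h6
      · have h7 : X ^ (i + 1) * Y ^ j ≤ X ^ (a + 1) * Y ^ (b + 1) := mm hX hY (by omega) (by omega)
        calc X ^ i * Y ^ j * X = X ^ (i + 1) * Y ^ j := by ring
          _ ≤ X ^ (a + 1) * Y ^ (b + 1) := h7
          _ ≤ _ := by nlinarith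
      · have h7 : X ^ i * Y ^ (j + 1) ≤ X ^ (a + 1) * Y ^ (b + 1) := mm hX hY (by omega) (by omega)
        calc X ^ i * Y ^ j * X ≤ X ^ i * Y ^ j * (ρ * Y) := by gcongr
          _ = ρ * (X ^ i * Y ^ (j + 1)) := by ring
          _ ≤ ρ * (X ^ (a + 1) * Y ^ (b + 1)) := by gcongr
          _ ≤ _ := by nlinarith
    · have h6 : j = b + 2 := by omega
      subst h6
      have h7 : X ^ (i + 2) * Y ^ (b + 1) ≤ X ^ (a + 1) * Y ^ (b + 1) := mm hX hY (by omega) (by omega)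
      calc X ^ i * Y ^ (b + 2) * X = X ^ (i + 1) * Y ^ (b + 1) * Y := by ring
        _ ≤ X ^ (i + 1) * Y ^ (b + 1) * (ρ * X) := by gcongr
        _ = ρ * (X ^ (i + 2) * Y ^ (b + 1)) := by ring
        _ ≤ ρ * (X ^ (a + 1) * Y ^ (b + 1)) := by gcongr
        _ ≤ _ := by nlinarith
  · have h6 : i = a + 2 := by omega
    subst h6
    have h7 : X ^ (a + 1) * Y ^ (j + 2) ≤ X ^ (a + 1) * Y ^ (b + 1) := mm hX hY (by omega) (by omega)
    calc X ^ (a + 2) * Y ^ j * X = X ^ (a + 1) * Y ^ j * (X * X) := by ring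
      _ ≤ X ^ (a + 1) * Y ^ j * ((ρ * Y) * (ρ * Y)) := by gcongr
      _ = ρ ^ 2 * (X ^ (a + 1) * Y ^ (j + 2)) := by ring
      _ ≤ _ := by gcongr

/-- the comparison of the two coordinates -/
lemma compar {θ M H X Y α β : ℝ} (hθ : 0 < θ) (hθ1 : θ ≤ 1) (hM : 1 ≤ M) (hH : 4 / θ ≤ H)
    (hX : M * H < X) (hY : M * H < Y) (hα : θ * H < α) (hβ : β ≤ H)
    (h : α * X * (X * Y) ≤ β * Y * (X * Y) + M * H * (X ^ 2 + Y ^ 2)) :
    X ≤ 2 / θ * Y := by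
  have hH0 : 0 < H := lt_of_lt_of_le (by positivity) hH
  have hX0 : 0 < X := lt_trans (by positivity) hX
  have hY0 : 0 < Y := lt_trans (by positivity) hY
  have h1 : 4 * M ≤ θ * Y := by
    rw [div_le_iff₀ hθ] at hH
    nlinarith
  have h2 : 4 * M ≤ θ * X := by
    rw [div_le_iff₀ hθ] at hH
    nlinarith
  -- divide by `H`
  have h3 : θ * X * (X * Y) ≤ Y * (X * Y) + M * (X ^ 2 + Y ^ 2) := by
    have h4 : θ * H * X * (X * Y) ≤ H * Y * (X * Y) + M * H * (X ^ 2 + Y ^ 2) := by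
      calc θ * H * X * (X * Y) ≤ α * X * (X * Y) := by gcongr
        _ ≤ _ := h
        _ ≤ _ := by gcongr
    have h5 : H * (θ * X * (X * Y)) ≤ H * (Y * (X * Y) + M * (X ^ 2 + Y ^ 2)) := by
      linarith
    exact le_of_mul_le_mul_left h5 hH0
  have h4 : M * X ^ 2 ≤ θ * X * (X * Y) / 4 := by nlinarith [mul_pos hX0 hX0]
  have h5 : M * Y ^ 2 ≤ Y * (X * Y) / 4 := by
    have : 4 * M ≤ X := by nlinarith
    nlinarith [mul_pos hY0 hY0]
  have h6 : (3 / 4) * (θ * X) * (X * Y) ≤ (5 / 4) * Y * (X * Y) := by nlinarith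
  have h7 : (3 / 4) * (θ * X) ≤ (5 / 4) * Y := le_of_mul_le_mul_right h6 (mul_pos hX0 hY0)
  rw [div_mul_eq_mul_div, le_div_iff₀ hθ]
  nlinarith

lemma abs_f (w : Ix a b → ℤ) (H : ℕ) (hw : ∀ p, |w p| ≤ H) (x y : ℤ) (p : Ix a b) :
    |(w p : ℝ) * x ^ (p.2 : ℕ) * y ^ (p.1 : ℕ)| ≤
      H * (|(x : ℝ)| ^ (p.2 : ℕ) * |(y : ℝ)| ^ (p.1 : ℕ)) := by
  rw [abs_mul, abs_mul, abs_pow, abs_pow, mul_assoc]
  have h1 : |(w p : ℝ)| ≤ H := by exact_mod_cast hw p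
  gcongr

theorem struct (w : Ix a b → ℤ) (H : ℕ) (hw : ∀ p, |w p| ≤ H) (M : ℝ)
    (hM : M = (Fintype.card (Ix a b) : ℝ)) (θ : ℝ) (hθ : 0 < θ) (hθ1 : θ ≤ 1)
    (hH : 4 / θ ≤ (H : ℝ)) (x y : ℤ) (hx : M * H < |(x : ℝ)|) (hy : M * H < |(y : ℝ)|)
    (h0 : G w x y = 0) :
    w (ix a b (a + 2) (b + 2) (by omega) (by omega)) = 0 ∧
    (|(w (ix a b (a + 2) (b + 1) (by omega) (by omega)) : ℝ)| ≤ θ * H ∨
     |(w (ix a b (a + 1) (b + 2) (by omega) (by omega)) : ℝ)| ≤ θ * H ∨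
     (|(x : ℝ)| ≤ 2 / θ * |(y : ℝ)| ∧ |(y : ℝ)| ≤ 2 / θ * |(x : ℝ)| ∧
      |(w (ix a b (a + 2) (b + 1) (by omega) (by omega)) : ℝ) * x +
        (w (ix a b (a + 1) (b + 2) (by omega) (by omega)) : ℝ) * y| ≤ M * (2 / θ) * H ∧
      (3 * M * (2 / θ) ^ 2 * (H : ℝ) ^ 3 < |(x : ℝ)| →
        w (ix a b (a + 2) (b + 1) (by omega) (by omega)) ∣
          w (ix a b (a + 2) b (by omega) (by omega)) *
            w (ix a b (a + 1) (b + 2) (by omega) (by omega)) ^ 2))) := by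
  classical
  have hM1 : 1 ≤ M := by
    rw [hM]
    exact_mod_cast Fintype.card_pos
  have hH0 : (0 : ℝ) < H := lt_of_lt_of_le (by positivity) hH
  have hH4 : (4 : ℝ) ≤ H := by
    refine le_trans ?_ hH
    rw [le_div_iff₀ hθ]
    linarith
  obtain ⟨X, hXe⟩ : ∃ X : ℝ, X = |(x : ℝ)| := ⟨_, rfl⟩
  obtain ⟨Y, hYe⟩ : ∃ Y : ℝ, Y = |(y : ℝ)| := ⟨_, rfl⟩
  obtain ⟨f, hf⟩ : ∃ f : Ix a b → ℝ, ∀ p, f p = (w p : ℝ) * x ^ (p.2 : ℕ) * y ^ (p.1 : ℕ) :=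
    ⟨_, fun _ => rfl⟩
  have hfa : ∀ p, |f p| ≤ H * (X ^ (p.2 : ℕ) * Y ^ (p.1 : ℕ)) := by
    intro p
    rw [hf, hXe, hYe]
    exact abs_f w H hw x y p
  have hf0 : ∑ p, f p = 0 := by
    have : ((G w x y : ℤ) : ℝ) = ∑ p, f p := by
      unfold G
      push_cast
      exact Finset.sum_congr rfl fun p _ => (hf p).symm
    rw [← this, h0, Int.cast_zero]
  rw [← hXe] at hx
  rw [← hYe] at hy
  rw [← hXe, ← hYe]
  have hX1 : 1 ≤ X := by nlinarith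
  have hY1 : 1 ≤ Y := by nlinarith
  have hX0 : 0 < X := by linarith
  have hY0 : 0 < Y := by linarith
  have hi : ∀ p : Ix a b, (p.2 : ℕ) ≤ a + 2 := fun p => by have := p.2.2; omega
  have hj : ∀ p : Ix a b, (p.1 : ℕ) ≤ b + 2 := fun p => by have := p.1.2; omega
  obtain ⟨pc, hpc⟩ : ∃ p, p = ix a b (a + 2) (b + 2) (by omega) (by omega) := ⟨_, rfl⟩
  obtain ⟨pα, hpα⟩ : ∃ p, p = ix a b (a + 2) (b + 1) (by omega) (by omega) := ⟨_, rfl⟩
  obtain ⟨pβ, hpβ⟩ : ∃ p, p = ix a b (a + 1) (b + 2) (by omega) (by omega) := ⟨_, rfl⟩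
  obtain ⟨pδ, hpδ⟩ : ∃ p, p = ix a b (a + 1) (b + 1) (by omega) (by omega) := ⟨_, rfl⟩
  obtain ⟨p1, hp1⟩ : ∃ p, p = ix a b (a + 2) b (by omega) (by omega) := ⟨_, rfl⟩
  obtain ⟨p2, hp2⟩ : ∃ p, p = ix a b a (b + 2) (by omega) (by omega) := ⟨_, rfl⟩
  rw [← hpc, ← hpα, ← hpβ, ← hp1]
  have hc0 : w pc = 0 := by
    obtain ⟨m, hm⟩ : ∃ m : ℝ, m = min X Y := ⟨_, rfl⟩
    have hmX : m ≤ X := hm ▸ min_le_left _ _
    have hmY : m ≤ Y := hm ▸ min_le_right _ _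
    have hmH : M * H < m := hm ▸ lt_min hx hy
    have hm0 : 0 < m := lt_trans (by positivity) hmH
    obtain ⟨V, hV⟩ : ∃ V : ℝ, V = X ^ (a + 2) * Y ^ (b + 2) := ⟨_, rfl⟩
    have hV0 : 0 < V := by rw [hV]; positivity
    have h1 := split_sum f {pc} (H * (V / m)) (by positivity) hf0 (fun p hp => by
      rw [mem_singleton] at hp
      refine (hfa p).trans ?_
      have h2 := mon_c (a := a) (b := b) hX1 hY1 hm0.le hmX hmY (hi p) (hj p)
        (by rw [hpc] at hp; exact ne_ix hp)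
      have h3 : X ^ (p.2 : ℕ) * Y ^ (p.1 : ℕ) ≤ V / m := by
        rw [le_div_iff₀ hm0, hV]
        exact h2
      gcongr)
    rw [Finset.sum_singleton, ← hM] at h1
    have h2 : |f pc| = |(w pc : ℝ)| * V := by
      rw [hf, hV, hpc, hXe, hYe]
      unfold ix
      simp only
      rw [abs_mul, abs_mul, abs_pow, abs_pow, mul_assoc]
    rw [h2] at h1
    have h3 : |(w pc : ℝ)| < 1 := by
      have h4 : |(w pc : ℝ)| * V ≤ (M * H / m) * V := by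
        refine h1.trans (le_of_eq ?_)
        field_simp
      have h5 := le_of_mul_le_mul_right h4 hV0
      refine lt_of_le_of_lt h5 ?_
      rw [div_lt_one hm0]
      exact hmH
    have h4 : |w pc| < 1 := by exact_mod_cast h3
    exact Int.abs_lt_one_iff.1 h4
  refine ⟨hc0, ?_⟩
  have hfc : f pc = 0 := by rw [hf, hc0]; simp
  by_cases hα : |(w pα : ℝ)| ≤ θ * H
  · exact Or.inl hα
  by_cases hβ : |(w pβ : ℝ)| ≤ θ * H
  · exact Or.inr (Or.inl hβ)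
  push Not at hα hβ
  right
  right
  have hαβ : pα ≠ pβ := by rw [hpα, hpβ]; exact ix_ne (by omega)
  obtain ⟨W, hW⟩ : ∃ W : ℝ, W = X ^ (a + 1) * Y ^ (b + 1) := ⟨_, rfl⟩
  have hW0 : 0 < W := by rw [hW]; positivity
  obtain ⟨W', hW'⟩ : ∃ W' : ℝ, W' = (x : ℝ) ^ (a + 1) * (y : ℝ) ^ (b + 1) := ⟨_, rfl⟩
  have hWW : |W'| = W := by
    rw [hW', hW, abs_mul, abs_pow, abs_pow, hXe, hYe]
  have hfα : f pα = W' * ((w pα : ℝ) * x) := by
    rw [hf, hW', hpα]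
    unfold ix
    simp only
    ring
  have hfβ : f pβ = W' * ((w pβ : ℝ) * y) := by
    rw [hf, hW', hpβ]
    unfold ix
    simp only
    ring
  have hwH : ∀ p, |(w p : ℝ)| ≤ H := fun p => by exact_mod_cast hw p
  -- the first comparison
  have e0 : |(w pα : ℝ) * x + (w pβ : ℝ) * y| * (X * Y) ≤ M * H * (X ^ 2 + Y ^ 2) := by
    have h1 := split_sum f {pα, pβ} (H * ((X ^ 2 + Y ^ 2) * W / (X * Y))) (by positivity) hf0
      (fun p hp => by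
        rw [mem_insert, mem_singleton, not_or] at hp
        by_cases hpp : p = pc
        · rw [hpp, hfc, abs_zero]
          positivity
        refine (hfa p).trans ?_
        have h2 := mon_0 (a := a) (b := b) hX1 hY1 (hi p) (hj p)
          (by rw [hpc] at hpp; exact ne_ix hpp) (by rw [hpα] at hp; exact ne_ix hp.1)
          (by rw [hpβ] at hp; exact ne_ix hp.2)
        have h3 : X ^ (p.2 : ℕ) * Y ^ (p.1 : ℕ) ≤ (X ^ 2 + Y ^ 2) * W / (X * Y) := by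
          rw [le_div_iff₀ (by positivity), hW]
          exact h2
        gcongr)
    rw [Finset.sum_pair hαβ, ← hM, hfα, hfβ, ← mul_add, abs_mul, hWW] at h1
    have h2 : W * (|(w pα : ℝ) * x + (w pβ : ℝ) * y| * (X * Y)) ≤
        W * (M * H * (X ^ 2 + Y ^ 2)) := by
      calc W * (|(w pα : ℝ) * x + (w pβ : ℝ) * y| * (X * Y)) =
          W * |(w pα : ℝ) * x + (w pβ : ℝ) * y| * (X * Y) := by ring
        _ ≤ M * (H * ((X ^ 2 + Y ^ 2) * W / (X * Y))) * (X * Y) := by gcongr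
        _ = _ := by field_simp
    exact le_of_mul_le_mul_left h2 hW0
  have hXY : X ≤ 2 / θ * Y := by
    refine compar hθ hθ1 hM1 hH hx hy hα (hwH pβ) ?_
    have h1 : |(w pα : ℝ)| * X - |(w pβ : ℝ)| * Y ≤ |(w pα : ℝ) * x + (w pβ : ℝ) * y| := by
      have h2 := abs_sub_abs_le_abs_add ((w pα : ℝ) * x) ((w pβ : ℝ) * y)
      rw [abs_mul, abs_mul, ← hXe, ← hYe] at h2
      exact h2
    have h3 : (|(w pα : ℝ)| * X - |(w pβ : ℝ)| * Y) * (X * Y) ≤ M * H * (X ^ 2 + Y ^ 2) :=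
      le_trans (by gcongr) e0
    linarith
  have hYX : Y ≤ 2 / θ * X := by
    refine compar hθ hθ1 hM1 hH hy hx hβ (hwH pα) ?_
    have h1 : |(w pβ : ℝ)| * Y - |(w pα : ℝ)| * X ≤ |(w pα : ℝ) * x + (w pβ : ℝ) * y| := by
      have h2 := abs_sub_abs_le_abs_add ((w pβ : ℝ) * y) ((w pα : ℝ) * x)
      rw [abs_mul, abs_mul, ← hXe, ← hYe, add_comm] at h2
      exact h2
    have h3 : (|(w pβ : ℝ)| * Y - |(w pα : ℝ)| * X) * (X * Y) ≤ M * H * (X ^ 2 + Y ^ 2) :=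
      le_trans (by gcongr) e0
    nlinarith
  obtain ⟨ρ, hρ⟩ : ∃ ρ : ℝ, ρ = 2 / θ := ⟨_, rfl⟩
  rw [← hρ] at hXY hYX ⊢
  have hρ1 : 1 ≤ ρ := by
    rw [hρ, le_div_iff₀ hθ]
    linarith
  have hρ0 : 0 < ρ := by linarith
  have e1 : |(w pα : ℝ) * x + (w pβ : ℝ) * y| ≤ M * ρ * H := by
    have h1 := split_sum f {pα, pβ} (H * (ρ * W)) (by positivity) hf0
      (fun p hp => by
        rw [mem_insert, mem_singleton, not_or] at hp
        by_cases hpp : p = pc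
        · rw [hpp, hfc, abs_zero]
          positivity
        refine (hfa p).trans ?_
        have h2 := mon_1 (a := a) (b := b) hX1 hY1 hρ1 hXY hYX (hi p) (hj p)
          (by rw [hpc] at hpp; exact ne_ix hpp) (by rw [hpα] at hp; exact ne_ix hp.1)
          (by rw [hpβ] at hp; exact ne_ix hp.2)
        rw [← hW] at h2
        gcongr)
    rw [Finset.sum_pair hαβ, ← hM, hfα, hfβ, ← mul_add, abs_mul, hWW] at h1
    have h2 : W * |(w pα : ℝ) * x + (w pβ : ℝ) * y| ≤ W * (M * ρ * H) := by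
      refine h1.trans (le_of_eq ?_)
      ring
    exact le_of_mul_le_mul_left h2 hW0
  refine ⟨hXY, hYX, e1, fun hX3 => ?_⟩
  -- the second comparison
  have hx0 : (x : ℝ) ≠ 0 := by
    intro h
    rw [h, abs_zero] at hXe
    linarith
  have hy0 : (y : ℝ) ≠ 0 := by
    intro h
    rw [h, abs_zero] at hYe
    linarith
  have hd : ∀ p q : Ix a b, p = q → p = q := fun _ _ h => h
  have n1 : pα ≠ pδ := by rw [hpα, hpδ]; exact ix_ne (by omega)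
  have n2 : pα ≠ p1 := by rw [hpα, hp1]; exact ix_ne (by omega)
  have n3 : pα ≠ p2 := by rw [hpα, hp2]; exact ix_ne (by omega)
  have n4 : pβ ≠ pδ := by rw [hpβ, hpδ]; exact ix_ne (by omega)
  have n5 : pβ ≠ p1 := by rw [hpβ, hp1]; exact ix_ne (by omega)
  have n6 : pβ ≠ p2 := by rw [hpβ, hp2]; exact ix_ne (by omega)
  have n7 : pδ ≠ p1 := by rw [hpδ, hp1]; exact ix_ne (by omega)
  have n8 : pδ ≠ p2 := by rw [hpδ, hp2]; exact ix_ne (by omega)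
  have n9 : p1 ≠ p2 := by rw [hp1, hp2]; exact ix_ne (by omega)
  have hfδ : f pδ = W' * (w pδ : ℝ) := by
    rw [hf, hW', hpδ]
    unfold ix
    simp only
    ring
  have hf1 : f p1 = W' * ((w p1 : ℝ) * (x / y)) := by
    rw [hf, hW', hp1]
    unfold ix
    simp only
    field_simp
    ring
  have hf2 : f p2 = W' * ((w p2 : ℝ) * (y / x)) := by
    rw [hf, hW', hp2]
    unfold ix
    simp only
    field_simp
    ring
  have e2 : |(w pα : ℝ) * x + (w pβ : ℝ) * y + w pδ + w p1 * (x / y) + w p2 * (y / x)| ≤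
      M * H * ρ ^ 2 / X := by
    have h1 := split_sum f {pα, pβ, pδ, p1, p2} (H * (ρ ^ 2 * W / X)) (by positivity) hf0
      (fun p hp => by
        rw [mem_insert, mem_insert, mem_insert, mem_insert, mem_singleton, not_or, not_or,
          not_or, not_or] at hp
        obtain ⟨m1, m2, m3, m4, m5⟩ := hp
        by_cases hpp : p = pc
        · rw [hpp, hfc, abs_zero]
          positivity
        refine (hfa p).trans ?_
        have h2 := mon_2 (a := a) (b := b) hX1 hY1 hρ1 hXY hYX (hi p) (hj p)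
          (by rw [hpc] at hpp; exact ne_ix hpp) (by rw [hpα] at m1; exact ne_ix m1)
          (by rw [hpβ] at m2; exact ne_ix m2) (by rw [hpδ] at m3; exact ne_ix m3)
          (by rw [hp1] at m4; exact ne_ix m4) (by rw [hp2] at m5; exact ne_ix m5)
        rw [← hW] at h2
        have h3 : X ^ (p.2 : ℕ) * Y ^ (p.1 : ℕ) ≤ ρ ^ 2 * W / X := by
          rw [le_div_iff₀ hX0]
          exact h2
        gcongr)
    rw [Finset.sum_insert (by simp [hαβ, n1, n2, n3]), Finset.sum_insert (by simp [n4, n5, n6]),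
      Finset.sum_insert (by simp [n7, n8]), Finset.sum_pair n9, ← hM, hfα, hfβ, hfδ, hf1, hf2] at h1
    have h2 : W' * ((w pα : ℝ) * x) + (W' * ((w pβ : ℝ) * y) + (W' * (w pδ : ℝ) +
        (W' * ((w p1 : ℝ) * (x / y)) + W' * ((w p2 : ℝ) * (y / x))))) =
        W' * ((w pα : ℝ) * x + (w pβ : ℝ) * y + w pδ + w p1 * (x / y) + w p2 * (y / x)) := by
      ring
    rw [h2, abs_mul, hWW] at h1
    have h3 : W * |(w pα : ℝ) * x + (w pβ : ℝ) * y + w pδ + w p1 * (x / y) + w p2 * (y / x)| ≤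
        W * (M * H * ρ ^ 2 / X) := by
      refine h1.trans (le_of_eq ?_)
      ring
    exact le_of_mul_le_mul_left h3 hW0
  obtain ⟨α, hαe⟩ : ∃ α : ℝ, α = (w pα : ℝ) := ⟨_, rfl⟩
  obtain ⟨β, hβe⟩ : ∃ β : ℝ, β = (w pβ : ℝ) := ⟨_, rfl⟩
  obtain ⟨δ, hδe⟩ : ∃ δ : ℝ, δ = (w pδ : ℝ) := ⟨_, rfl⟩
  obtain ⟨c, hce⟩ : ∃ c : ℝ, c = (w p1 : ℝ) := ⟨_, rfl⟩
  obtain ⟨d, hde⟩ : ∃ d : ℝ, d = (w p2 : ℝ) := ⟨_, rfl⟩
  obtain ⟨E, hE⟩ : ∃ E : ℝ, E = α * x + β * y := ⟨_, rfl⟩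
  obtain ⟨F, hF⟩ : ∃ F : ℝ, F = α * x + β * y + δ + c * (x / y) + d * (y / x) := ⟨_, rfl⟩
  rw [← hαe, ← hβe, ← hE] at e1
  rw [← hαe, ← hβe, ← hδe, ← hce, ← hde, ← hF] at e2
  have hαH : |α| ≤ H := hαe ▸ hwH pα
  have hβH : |β| ≤ H := hβe ▸ hwH pβ
  have hcH : |c| ≤ H := hce ▸ hwH p1
  have hdH : |d| ≤ H := hde ▸ hwH p2
  have key : α * β * (α * x + β * y + δ) - c * β ^ 2 - d * α ^ 2 =
      α * β * F - c * β * (E / y) - d * α * (E / x) := by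
    rw [hF, hE]
    field_simp
    ring
  have hEy : |E / y| ≤ M * ρ * H * (ρ / X) := by
    rw [abs_div, ← hYe]
    have h1 : 1 / Y ≤ ρ / X := by
      rw [div_le_div_iff₀ hY0 hX0]
      linarith
    calc |E| / Y = |E| * (1 / Y) := by ring
      _ ≤ _ := by gcongr
  have hEx : |E / x| ≤ M * ρ * H * (1 / X) := by
    rw [abs_div, ← hXe]
    calc |E| / X = |E| * (1 / X) := by ring
      _ ≤ _ := by gcongr
  have hlt : |α * β * (α * x + β * y + δ) - c * β ^ 2 - d * α ^ 2| < 1 := by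
    rw [key]
    have h1 : |α * β * F - c * β * (E / y) - d * α * (E / x)| ≤
        |α * β * F| + |c * β * (E / y)| + |d * α * (E / x)| :=
      (abs_sub _ _).trans (add_le_add (abs_sub _ _) le_rfl)
    have h2 : |α * β * F| ≤ H * H * (M * H * ρ ^ 2 / X) := by
      rw [abs_mul, abs_mul]
      gcongr
    have h3 : |c * β * (E / y)| ≤ H * H * (M * ρ * H * (ρ / X)) := by
      rw [abs_mul, abs_mul]
      gcongr
    have h4 : |d * α * (E / x)| ≤ H * H * (M * ρ * H * (1 / X)) := by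
      rw [abs_mul, abs_mul]
      gcongr
    have h5 : (H : ℝ) * H * (M * ρ * H * (1 / X)) ≤ H * H * (M * ρ * H * (ρ / X)) := by
      gcongr
    have h6 : (H : ℝ) * H * (M * H * ρ ^ 2 / X) + H * H * (M * ρ * H * (ρ / X)) +
        H * H * (M * ρ * H * (ρ / X)) = 3 * M * ρ ^ 2 * H ^ 3 / X := by
      field_simp
      ring
    have h7 : 3 * M * ρ ^ 2 * (H : ℝ) ^ 3 / X < 1 := by
      rw [div_lt_one hX0]
      exact hX3
    linarith
  have hz : w pα * w pβ * (w pα * x + w pβ * y + w pδ) - w p1 * w pβ ^ 2 - w p2 * w pα ^ 2 = 0 := by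
    apply Int.abs_lt_one_iff.1
    have h1 : ((|w pα * w pβ * (w pα * x + w pβ * y + w pδ) - w p1 * w pβ ^ 2 -
        w p2 * w pα ^ 2| : ℤ) : ℝ) < 1 := by
      push_cast
      rw [← hαe, ← hβe, ← hδe, ← hce, ← hde]
      exact hlt
    exact_mod_cast h1
  refine ⟨w pβ * (w pα * x + w pβ * y + w pδ) - w p2 * w pα, ?_⟩
  linear_combination -hz

end Pool.Agent.N656.BD
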