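import Pool.Agent.N656.BD.Gen
import Pool.Agent.N656.BD.Arith
import Pool.Agent.N656.BD.Corner
import Pool.Agent.N656.PL.Slice

/-!
# Counting the polynomials with an integer zero both of whose coordinates are large
-/

set_option autoImplicit false

open Finset

namespace Pool.Agent.N656.BD

variable {a b : ℕ}

lemma G_sub (u v : Ix a b → ℤ) (S : Finset (Ix a b)) (h : ∀ p, p ∉ S → u p = v p) (x y : ℤ) :
    G u x y - G v x y = ∑ p ∈ S, (u p - v p) * x ^ (p.2 : ℕ) * y ^ (p.1 : ℕ) := by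
  have h1 : ∑ p ∈ S, (u p - v p) * x ^ (p.2 : ℕ) * y ^ (p.1 : ℕ) =
      ∑ p, (u p - v p) * x ^ (p.2 : ℕ) * y ^ (p.1 : ℕ) := by
    refine Finset.sum_subset (Finset.subset_univ S) fun p _ hp => ?_
    rw [h p hp]
    ring
  rw [h1]
  unfold G
  rw [← Finset.sum_sub_distrib]
  exact Finset.sum_congr rfl fun p _ => by ring

lemma dig2 {e0 e1 e2 y B : ℤ} (h0 : |e0| ≤ B) (h1 : |e1| ≤ B) (h2 : |e2| ≤ B) (hy : B < |y|)
    (h : e0 + e1 * y + e2 * y ^ 2 = 0) : e0 = 0 ∧ e1 = 0 ∧ e2 = 0 := by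
  have hy0 : y ≠ 0 := by
    intro h3
    rw [h3, abs_zero] at hy
    have := abs_nonneg e0
    omega
  have h3 : e0 = 0 := by
    refine Int.eq_zero_of_abs_lt_dvd (m := |y|) ((abs_dvd _ _).2 ⟨-e1 - e2 * y, ?_⟩) (by omega)
    linear_combination h
  have h4 : e1 + e2 * y = 0 := by
    have h5 : y * (e1 + e2 * y) = 0 := by
      rw [h3] at h
      linear_combination h
    rcases mul_eq_zero.1 h5 with h6 | h6
    · exact absurd h6 hy0
    · exact h6
  have h5 : e1 = 0 := by
    refine Int.eq_zero_of_abs_lt_dvd (m := |y|) ((abs_dvd _ _).2 ⟨-e2, ?_⟩) (by omega)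
    linear_combination h4
  refine ⟨h3, h5, ?_⟩
  rw [h5, zero_add] at h4
  rcases mul_eq_zero.1 h4 with h6 | h6
  · exact h6
  · exact absurd h6 hy0

/-- counting by the second coordinate of the zero -/
lemma by_y {ι : Type} [Fintype ι] [DecidableEq ι] (U : Finset (ι → ℤ))
    (P : (ι → ℤ) → ℤ → Prop) (A β : ℤ) (hβ : β ≠ 0) (K : ℝ) (hK : 0 ≤ K) (c : ℝ) (hc : 0 ≤ c)
    (h1 : ∀ u ∈ U, ∃ y : ℤ, |(A : ℝ) + β * y| ≤ K ∧ P u y)
    (h2 : ∀ (y : ℤ) (V : Finset (ι → ℤ)), |(A : ℝ) + β * y| ≤ K → (∀ u ∈ V, u ∈ U ∧ P u y) →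
      (V.card : ℝ) ≤ c) :
    (U.card : ℝ) ≤ (2 * K / |(β : ℝ)| + 1) * c := by
  classical
  obtain ⟨hf, hcard⟩ := card_int A β hβ K hK
  have h3 : U ⊆ hf.toFinset.biUnion fun y => U.filter fun u => P u y := by
    intro u hu
    obtain ⟨y, hy1, hy2⟩ := h1 u hu
    rw [mem_biUnion]
    exact ⟨y, hf.mem_toFinset.2 hy1, mem_filter.2 ⟨hu, hy2⟩⟩
  have h4 := (card_le_card h3).trans card_biUnion_le
  have h5 : (U.card : ℝ) ≤ ∑ y ∈ hf.toFinset, ((U.filter fun u => P u y).card : ℝ) := by
    exact_mod_cast h4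
  rw [Set.ncard_eq_toFinset_card _ hf] at hcard
  calc (U.card : ℝ) ≤ ∑ y ∈ hf.toFinset, ((U.filter fun u => P u y).card : ℝ) := h5
    _ ≤ ∑ _y ∈ hf.toFinset, c := by
        refine Finset.sum_le_sum fun y hy => h2 y _ (hf.mem_toFinset.1 hy) fun u hu => ?_
        rw [mem_filter] at hu
        exact hu
    _ = (hf.toFinset.card : ℝ) * c := by rw [Finset.sum_const, nsmul_eq_mul]
    _ ≤ _ := by gcongr

/-- one vertical line, first coordinate not too large -/
lemma line2 (H : ℕ) (θ K : ℝ) (hθ : 0 < θ) (hH : 0 < (H : ℝ)) (hK : 0 ≤ K) (x : ℤ)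
    (U : Finset (Ix a b → ℤ))
    (hU : ∀ u ∈ U, (∀ p, |u p| ≤ H) ∧ u (ix a b (a + 2) (b + 2) (by omega) (by omega)) = 0 ∧
      θ * H < |(u (ix a b (a + 1) (b + 2) (by omega) (by omega)) : ℝ)| ∧
      ∃ y : ℤ, 2 * (H : ℤ) < |y| ∧
        |(u (ix a b (a + 2) (b + 1) (by omega) (by omega)) : ℝ) * x +
          (u (ix a b (a + 1) (b + 2) (by omega) (by omega)) : ℝ) * y| ≤ K ∧ G u x y = 0) :
    (U.card : ℝ) * (2 * H + 1) ^ 4 ≤
      (2 * K / (θ * H) + 1) * (2 * H + 1) ^ Fintype.card (Ix a b) := by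
  classical
  obtain ⟨pc, hpc⟩ : ∃ p, p = ix a b (a + 2) (b + 2) (by omega) (by omega) := ⟨_, rfl⟩
  obtain ⟨pα, hpα⟩ : ∃ p, p = ix a b (a + 2) (b + 1) (by omega) (by omega) := ⟨_, rfl⟩
  obtain ⟨pβ, hpβ⟩ : ∃ p, p = ix a b (a + 1) (b + 2) (by omega) (by omega) := ⟨_, rfl⟩
  obtain ⟨p0, hp0⟩ : ∃ p, p = ix a b 0 0 (by omega) (by omega) := ⟨_, rfl⟩
  obtain ⟨p1, hp1⟩ : ∃ p, p = ix a b 0 1 (by omega) (by omega) := ⟨_, rfl⟩
  obtain ⟨p2, hp2⟩ : ∃ p, p = ix a b 0 2 (by omega) (by omega) := ⟨_, rfl⟩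
  rw [← hpc, ← hpα, ← hpβ] at hU
  have n1 : p0 ≠ p1 := by rw [hp0, hp1]; exact ix_ne (by omega)
  have n2 : p0 ≠ p2 := by rw [hp0, hp2]; exact ix_ne (by omega)
  have n3 : p0 ≠ pc := by rw [hp0, hpc]; exact ix_ne (by omega)
  have n4 : p1 ≠ p2 := by rw [hp1, hp2]; exact ix_ne (by omega)
  have n5 : p1 ≠ pc := by rw [hp1, hpc]; exact ix_ne (by omega)
  have n6 : p2 ≠ pc := by rw [hp2, hpc]; exact ix_ne (by omega)
  obtain ⟨S, hS⟩ : ∃ S : Finset (Ix a b), S = {p0, p1, p2, pc} := ⟨_, rfl⟩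
  have hS4 : S.card = 4 := by
    rw [hS, card_insert_of_notMem (by simp [n1, n2, n3]), card_insert_of_notMem (by simp [n4, n5]),
      card_pair n6]
  have hα : pα ∉ S := by
    rw [hS, mem_insert, mem_insert, mem_insert, mem_singleton, not_or, not_or, not_or, hpα, hp0,
      hp1, hp2, hpc]
    exact ⟨ix_ne (by omega), ix_ne (by omega), ix_ne (by omega), ix_ne (by omega)⟩
  have hβ : pβ ∉ S := by
    rw [hS, mem_insert, mem_insert, mem_insert, mem_singleton, not_or, not_or, not_or, hpβ, hp0,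
      hp1, hp2, hpc]
    exact ⟨ix_ne (by omega), ix_ne (by omega), ix_ne (by omega), ix_ne (by omega)⟩
  have h1 := fibre H S U (fun u hu => mem_box.2 (hU u hu).1)
    (fun _ => 2 * K / (θ * H) + 1) (fun w _ => by
      rcases (U.filter fun u => ∀ p, p ∉ S → u p = w p).eq_empty_or_nonempty with h2 | ⟨u0, h2⟩
      · rw [h2, card_empty, Nat.cast_zero]
        positivity
      · rw [mem_filter] at h2
        have hβw : θ * H < |(w pβ : ℝ)| := by
          rw [← h2.2 pβ hβ]
          exact (hU u0 h2.1).2.2.1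
        have hβw0 : (w pβ : ℤ) ≠ 0 := by
          intro h3
          rw [h3, Int.cast_zero, abs_zero] at hβw
          have : 0 < θ * H := by positivity
          linarith
        have h3 := by_y (U.filter fun u => ∀ p, p ∉ S → u p = w p)
          (fun u y => 2 * (H : ℤ) < |y| ∧ G u x y = 0) (w pα * x) (w pβ) hβw0 K hK 1 (by norm_num)
          (fun u hu => by
            rw [mem_filter] at hu
            obtain ⟨y, hy1, hy2, hy3⟩ := (hU u hu.1).2.2.2
            refine ⟨y, ?_, hy1, hy3⟩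
            rw [hu.2 pα hα, hu.2 pβ hβ] at hy2
            push_cast
            exact hy2)
          (fun y V _ hV => by
            have h4 : V.card ≤ 1 := by
              rw [card_le_one]
              intro u hu v hv
              have hu' := hV u hu
              have hv' := hV v hv
              rw [mem_filter] at hu' hv'
              have huv : ∀ p, p ∉ S → u p = v p := fun p hp => by
                rw [hu'.1.2 p hp, hv'.1.2 p hp]
              have h5 := G_sub u v S huv x y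
              rw [hu'.2.2, hv'.2.2, hS, Finset.sum_insert (by simp [n1, n2, n3]),
                Finset.sum_insert (by simp [n4, n5]), Finset.sum_pair n6,
                (hU u hu'.1.1).2.1, (hU v hv'.1.1).2.1] at h5
              have hb : ∀ p, |u p - v p| ≤ 2 * (H : ℤ) := by
                intro p
                have h6 := (hU u hu'.1.1).1 p
                have h7 := (hU v hv'.1.1).1 p
                have h8 := abs_sub (u p) (v p)
                linarith
              have h6 := dig2 (hb p0) (hb p1) (hb p2) hu'.2.1 (by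
                rw [hp0, hp1, hp2] at h5
                unfold ix at h5
                simp only [pow_zero, mul_one, pow_one, sub_self, zero_mul, add_zero] at h5
                rw [hp0, hp1, hp2]
                unfold ix
                linear_combination -h5)
              funext p
              by_cases hp : p ∈ S
              · rw [hS, mem_insert, mem_insert, mem_insert, mem_singleton] at hp
                rcases hp with rfl | rfl | rfl | rfl
                · linarith [h6.1]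
                · linarith [h6.2.1]
                · linarith [h6.2.2]
                · rw [(hU u hu'.1.1).2.1, (hU v hv'.1.1).2.1]
              · exact huv p hp
            exact_mod_cast h4)
        refine h3.trans ?_
        rw [mul_one]
        gcongr)
  rw [hS4, Finset.sum_const, nsmul_eq_mul, card_box] at h1
  push_cast at h1
  linarith

lemma ar3 {α β x y e0 e1 e2 d : ℤ} {H : ℕ} (h0 : |e0| ≤ 2 * (H : ℤ)) (h1 : |e1| ≤ 2 * (H : ℤ))
    (hd : |d| ≤ 2 * (H : ℤ)) (hβ : |β| ≤ (H : ℤ)) {M ρ : ℝ}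
    (hM : 1 ≤ M) (hρ : 1 ≤ ρ) (hE : |(α : ℝ) * x + β * y| ≤ M * ρ * H)
    (hy : 2 * H * (ρ + 2) < |(y : ℝ)|) (hxy : |(x : ℝ)| ≤ ρ * |(y : ℝ)|)
    (hx : 4 * M * ρ * (H : ℝ) ^ 2 < |(x : ℝ)|) (h : e0 + d * x + e1 * y + e2 * y ^ 2 = 0) :
    e2 = 0 ∧ d * β = e1 * α := by
  have h0' : |(e0 : ℝ)| ≤ 2 * H := by exact_mod_cast h0
  have h1' : |(e1 : ℝ)| ≤ 2 * H := by exact_mod_cast h1
  have hd' : |(d : ℝ)| ≤ 2 * H := by exact_mod_cast hd
  have hβ' : |(β : ℝ)| ≤ H := by exact_mod_cast hβ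
  have hR : (e0 : ℝ) + d * x + e1 * y + e2 * y ^ 2 = 0 := by exact_mod_cast h
  obtain ⟨X, hX⟩ : ∃ X : ℝ, X = |(x : ℝ)| := ⟨_, rfl⟩
  obtain ⟨Y, hY⟩ : ∃ Y : ℝ, Y = |(y : ℝ)| := ⟨_, rfl⟩
  rw [← hX] at hxy hx
  rw [← hY] at hxy hy
  have hH : (0 : ℝ) ≤ H := by positivity
  have hY0 : 0 < Y := lt_of_le_of_lt (by positivity) hy
  have hX0 : 0 < X := lt_of_le_of_lt (by positivity) hx
  have hY1 : 1 ≤ Y := by
    rw [hY] at hY0 ⊢
    have h2 : (0 : ℤ) < |y| := by exact_mod_cast hY0
    have h3 : (1 : ℤ) ≤ |y| := h2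
    exact_mod_cast h3
  refine ⟨?_, ?_⟩
  · by_contra hne
    have h2 : (1 : ℝ) ≤ |(e2 : ℝ)| := by
      have h3 : (1 : ℤ) ≤ |e2| := Int.one_le_abs hne
      exact_mod_cast h3
    have h3 : |(e2 : ℝ) * y ^ 2| = |(e0 : ℝ) + d * x + e1 * y| := by
      rw [show (e2 : ℝ) * y ^ 2 = -((e0 : ℝ) + d * x + e1 * y) by linarith, abs_neg]
    have h4 : |(e0 : ℝ) + d * x + e1 * y| ≤ |(e0 : ℝ)| + |(d : ℝ)| * X + |(e1 : ℝ)| * Y := by
      rw [hX, hY, ← abs_mul, ← abs_mul]
      exact (abs_add_le _ _).trans (add_le_add (abs_add_le _ _) le_rfl)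
    have h5 : |(e0 : ℝ)| + |(d : ℝ)| * X + |(e1 : ℝ)| * Y ≤ 2 * H + 2 * H * (ρ * Y) + 2 * H * Y := by
      gcongr
    have h6 : Y ^ 2 ≤ |(e2 : ℝ) * y ^ 2| := by
      rw [abs_mul, abs_pow, ← hY]
      nlinarith [sq_nonneg Y]
    have h7 : 2 * (H : ℝ) + 2 * H * (ρ * Y) + 2 * H * Y ≤ 2 * H * (ρ + 2) * Y := by nlinarith
    have h8 : 2 * (H : ℝ) * (ρ + 2) * Y < Y * Y := by nlinarith
    nlinarith
  · have h2 : ((d * β - e1 * α : ℤ) : ℝ) * x = -(e0 : ℝ) * β - e1 * (α * x + β * y) -
        e2 * y ^ 2 * β := by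
      push_cast
      linear_combination (β : ℝ) * hR
    have he2 : e2 = 0 := by
      by_contra hne
      have h2 : (1 : ℝ) ≤ |(e2 : ℝ)| := by
        have h3 : (1 : ℤ) ≤ |e2| := Int.one_le_abs hne
        exact_mod_cast h3
      have h3 : |(e2 : ℝ) * y ^ 2| = |(e0 : ℝ) + d * x + e1 * y| := by
        rw [show (e2 : ℝ) * y ^ 2 = -((e0 : ℝ) + d * x + e1 * y) by linarith, abs_neg]
      have h4 : |(e0 : ℝ) + d * x + e1 * y| ≤ |(e0 : ℝ)| + |(d : ℝ)| * X + |(e1 : ℝ)| * Y := by
        rw [hX, hY, ← abs_mul, ← abs_mul]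
        exact (abs_add_le _ _).trans (add_le_add (abs_add_le _ _) le_rfl)
      have h5 : |(e0 : ℝ)| + |(d : ℝ)| * X + |(e1 : ℝ)| * Y ≤
          2 * H + 2 * H * (ρ * Y) + 2 * H * Y := by
        gcongr
      have h6 : Y ^ 2 ≤ |(e2 : ℝ) * y ^ 2| := by
        rw [abs_mul, abs_pow, ← hY]
        nlinarith [sq_nonneg Y]
      have h7 : 2 * (H : ℝ) + 2 * H * (ρ * Y) + 2 * H * Y ≤ 2 * H * (ρ + 2) * Y := by nlinarith
      have h8 : 2 * (H : ℝ) * (ρ + 2) * Y < Y * Y := by nlinarith
      nlinarith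
    rw [he2, Int.cast_zero, zero_mul, zero_mul, sub_zero] at h2
    have h3 : |((d * β - e1 * α : ℤ) : ℝ)| * X ≤ 4 * M * ρ * (H : ℝ) ^ 2 := by
      rw [hX, ← abs_mul, h2]
      calc |-(e0 : ℝ) * β - e1 * (α * x + β * y)| ≤ |-(e0 : ℝ) * β| + |(e1 : ℝ) * (α * x + β * y)| :=
            abs_sub _ _
        _ = |(e0 : ℝ)| * |(β : ℝ)| + |(e1 : ℝ)| * |(α : ℝ) * x + β * y| := by
            rw [abs_mul, abs_mul, abs_neg]
        _ ≤ 2 * H * H + 2 * H * (M * ρ * H) := by gcongr
        _ ≤ _ := by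
            have : 1 ≤ M * ρ := by nlinarith
            nlinarith [sq_nonneg (H : ℝ)]
    have h4 : |((d * β - e1 * α : ℤ) : ℝ)| < 1 := by
      by_contra hcon
      push Not at hcon
      nlinarith
    have h5 : |d * β - e1 * α| < 1 := by exact_mod_cast h4
    have h6 := Int.abs_lt_one_iff.1 h5
    linarith

/-- one vertical line, first coordinate large -/
lemma line3 (H : ℕ) (θ M ρ : ℝ) (hθ : 0 < θ) (hH : 0 < (H : ℝ)) (hM : 1 ≤ M) (hρ : 1 ≤ ρ) (x : ℤ)
    (hx : 4 * M * ρ * (H : ℝ) ^ 2 < |(x : ℝ)|) (U : Finset (Ix a b → ℤ))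
    (hU : ∀ u ∈ U, (∀ p, |u p| ≤ H) ∧ u (ix a b (a + 2) (b + 2) (by omega) (by omega)) = 0 ∧
      θ * H < |(u (ix a b (a + 2) (b + 1) (by omega) (by omega)) : ℝ)| ∧
      θ * H < |(u (ix a b (a + 1) (b + 2) (by omega) (by omega)) : ℝ)| ∧
      ∃ y : ℤ, 2 * H * (ρ + 2) < |(y : ℝ)| ∧ |(x : ℝ)| ≤ ρ * |(y : ℝ)| ∧
        |(u (ix a b (a + 2) (b + 1) (by omega) (by omega)) : ℝ) * x +
          (u (ix a b (a + 1) (b + 2) (by omega) (by omega)) : ℝ) * y| ≤ M * ρ * H ∧
        G u x y = 0) :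
    (U.card : ℝ) * (2 * H + 1) ^ 5 ≤ (2 * H + 1) ^ (Fintype.card (Ix a b) - 2) *
      ∑ s ∈ Icc (-(H : ℤ)) H, ∑ t ∈ Icc (-(H : ℤ)) H, (if s ≠ 0 ∧ t ≠ 0 then
        (2 * (M * ρ * H) / (θ * H) + 1) * (2 / θ * (Int.gcd s t : ℝ) + 1) else 0) := by
  classical
  obtain ⟨pc, hpc⟩ : ∃ p, p = ix a b (a + 2) (b + 2) (by omega) (by omega) := ⟨_, rfl⟩
  obtain ⟨pα, hpα⟩ : ∃ p, p = ix a b (a + 2) (b + 1) (by omega) (by omega) := ⟨_, rfl⟩
  obtain ⟨pβ, hpβ⟩ : ∃ p, p = ix a b (a + 1) (b + 2) (by omega) (by omega) := ⟨_, rfl⟩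
  obtain ⟨p0, hp0⟩ : ∃ p, p = ix a b 0 0 (by omega) (by omega) := ⟨_, rfl⟩
  obtain ⟨p1, hp1⟩ : ∃ p, p = ix a b 0 1 (by omega) (by omega) := ⟨_, rfl⟩
  obtain ⟨p2, hp2⟩ : ∃ p, p = ix a b 0 2 (by omega) (by omega) := ⟨_, rfl⟩
  obtain ⟨q1, hq1⟩ : ∃ p, p = ix a b 1 0 (by omega) (by omega) := ⟨_, rfl⟩
  rw [← hpc, ← hpα, ← hpβ] at hU
  have n1 : p0 ≠ p1 := by rw [hp0, hp1]; exact ix_ne (by omega)
  have n2 : p0 ≠ p2 := by rw [hp0, hp2]; exact ix_ne (by omega)
  have n3 : p0 ≠ pc := by rw [hp0, hpc]; exact ix_ne (by omega)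
  have n4 : p1 ≠ p2 := by rw [hp1, hp2]; exact ix_ne (by omega)
  have n5 : p1 ≠ pc := by rw [hp1, hpc]; exact ix_ne (by omega)
  have n6 : p2 ≠ pc := by rw [hp2, hpc]; exact ix_ne (by omega)
  have n7 : q1 ≠ p0 := by rw [hp0, hq1]; exact ix_ne (by omega)
  have n8 : q1 ≠ p1 := by rw [hp1, hq1]; exact ix_ne (by omega)
  have n9 : q1 ≠ p2 := by rw [hp2, hq1]; exact ix_ne (by omega)
  have n10 : q1 ≠ pc := by rw [hpc, hq1]; exact ix_ne (by omega)
  obtain ⟨S, hS⟩ : ∃ S : Finset (Ix a b), S = {q1, p0, p1, p2, pc} := ⟨_, rfl⟩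
  have hS5 : S.card = 5 := by
    rw [hS, card_insert_of_notMem (by simp [n7, n8, n9, n10]),
      card_insert_of_notMem (by simp [n1, n2, n3]), card_insert_of_notMem (by simp [n4, n5]),
      card_pair n6]
  have hα : pα ∉ S := by
    rw [hS, mem_insert, mem_insert, mem_insert, mem_insert, mem_singleton, not_or, not_or, not_or,
      not_or, hpα, hp0, hp1, hp2, hpc, hq1]
    exact ⟨ix_ne (by omega), ix_ne (by omega), ix_ne (by omega), ix_ne (by omega),
      ix_ne (by omega)⟩
  have hβ : pβ ∉ S := by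
    rw [hS, mem_insert, mem_insert, mem_insert, mem_insert, mem_singleton, not_or, not_or, not_or,
      not_or, hpβ, hp0, hp1, hp2, hpc, hq1]
    exact ⟨ix_ne (by omega), ix_ne (by omega), ix_ne (by omega), ix_ne (by omega),
      ix_ne (by omega)⟩
  have hαβ : pα ≠ pβ := by rw [hpα, hpβ]; exact ix_ne (by omega)
  obtain ⟨φ, hφ⟩ : ∃ φ : ℤ → ℤ → ℝ, φ = fun s t => if s ≠ 0 ∧ t ≠ 0 then
        (2 * (M * ρ * H) / (θ * H) + 1) * (2 / θ * (Int.gcd s t : ℝ) + 1) else 0 := ⟨_, rfl⟩
  have hφ0 : ∀ s t, 0 ≤ φ s t := by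
    intro s t
    rw [hφ]
    simp only
    split_ifs
    · positivity
    · exact le_rfl
  have h1 := fibre H S U (fun u hu => mem_box.2 (hU u hu).1)
    (fun w => φ (w pα) (w pβ)) (fun w _ => by
      rcases (U.filter fun u => ∀ p, p ∉ S → u p = w p).eq_empty_or_nonempty with h2 | ⟨u0, h2⟩
      · rw [h2, card_empty, Nat.cast_zero]
        exact hφ0 _ _
      · rw [mem_filter] at h2
        have hβw : θ * H < |(w pβ : ℝ)| := by
          rw [← h2.2 pβ hβ]
          exact (hU u0 h2.1).2.2.2.1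
        have hαw : θ * H < |(w pα : ℝ)| := by
          rw [← h2.2 pα hα]
          exact (hU u0 h2.1).2.2.1
        have hβw0 : (w pβ : ℤ) ≠ 0 := by
          intro h3
          rw [h3, Int.cast_zero, abs_zero] at hβw
          have : 0 < θ * H := by positivity
          linarith
        have hαw0 : (w pα : ℤ) ≠ 0 := by
          intro h3
          rw [h3, Int.cast_zero, abs_zero] at hαw
          have : 0 < θ * H := by positivity
          linarith
        have hβH : |w pβ| ≤ (H : ℤ) := by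
          rw [← h2.2 pβ hβ]
          exact (hU u0 h2.1).1 pβ
        have hg0 : 0 < Int.gcd (w pα) (w pβ) := Int.gcd_pos_of_ne_zero_left _ hαw0
        obtain ⟨α', β', hcop, hα', hβ'⟩ := Int.exists_gcd_one hg0
        obtain ⟨g, hg⟩ : ∃ g : ℕ, g = Int.gcd (w pα) (w pβ) := ⟨_, rfl⟩
        rw [← hg] at hα' hβ' hg0
        have hgR : (0 : ℝ) < g := by exact_mod_cast hg0
        have hα'0 : α' ≠ 0 := by
          intro h3
          rw [h3, zero_mul] at hα'
          exact hαw0 hα'
        have hα'a : θ * H / g < |(α' : ℝ)| := by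
          rw [div_lt_iff₀ hgR]
          rw [hα'] at hαw
          push_cast at hαw
          rw [abs_mul, Nat.abs_cast] at hαw
          exact hαw
        have h3 := by_y (U.filter fun u => ∀ p, p ∉ S → u p = w p)
          (fun u y => (2 * H * (ρ + 2) < |(y : ℝ)| ∧ |(x : ℝ)| ≤ ρ * |(y : ℝ)|) ∧ G u x y = 0)
          (w pα * x) (w pβ) hβw0 (M * ρ * H) (by positivity) (2 / θ * (g : ℝ) + 1) (by positivity)
          (fun u hu => by
            rw [mem_filter] at hu
            obtain ⟨y, hy1, hy2, hy3, hy4⟩ := (hU u hu.1).2.2.2.2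
            refine ⟨y, ?_, ⟨hy1, hy2⟩, hy4⟩
            rw [hu.2 pα hα, hu.2 pβ hβ] at hy3
            push_cast
            exact hy3)
          (fun y V hyE hV => by
            rcases V.eq_empty_or_nonempty with hVe | ⟨v0, hv0⟩
            · rw [hVe, card_empty, Nat.cast_zero]
              positivity
            -- differences
            have hdiff : ∀ u ∈ V, ∀ v ∈ V, u p2 - v p2 = 0 ∧
                (u q1 - v q1) * w pβ = (u p1 - v p1) * w pα ∧
                (u p0 - v p0) + (u q1 - v q1) * x + (u p1 - v p1) * y = 0 := by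
              intro u hu v hv
              have hu' := hV u hu
              have hv' := hV v hv
              rw [mem_filter] at hu' hv'
              have huv : ∀ p, p ∉ S → u p = v p := fun p hp => by
                rw [hu'.1.2 p hp, hv'.1.2 p hp]
              have h5 := G_sub u v S huv x y
              rw [hu'.2.2, hv'.2.2, hS, Finset.sum_insert (by simp [n7, n8, n9, n10]),
                Finset.sum_insert (by simp [n1, n2, n3]),
                Finset.sum_insert (by simp [n4, n5]), Finset.sum_pair n6,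
                (hU u hu'.1.1).2.1, (hU v hv'.1.1).2.1] at h5
              have hb : ∀ p, |u p - v p| ≤ 2 * (H : ℤ) := by
                intro p
                have h6 := (hU u hu'.1.1).1 p
                have h7 := (hU v hv'.1.1).1 p
                have h8 := abs_sub (u p) (v p)
                linarith
              have h7 : (u p0 - v p0) + (u q1 - v q1) * x + (u p1 - v p1) * y +
                  (u p2 - v p2) * y ^ 2 = 0 := by
                rw [hp0, hp1, hp2, hq1] at h5
                unfold ix at h5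
                simp only [pow_zero, mul_one, pow_one, sub_self, zero_mul, add_zero] at h5
                rw [hp0, hp1, hp2, hq1]
                unfold ix
                linear_combination -h5
              have h6 := ar3 (α := w pα) (β := w pβ) (hb p0) (hb p1) (hb q1) hβH hM hρ
                (by push_cast at hyE; exact hyE) hu'.2.1.1 hu'.2.1.2 hx h7
              refine ⟨h6.1, h6.2, ?_⟩
              rw [h6.1] at h7
              linarith
            have hinj : ∀ u ∈ V, ∀ v ∈ V, u q1 = v q1 → u = v := by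
              intro u hu v hv hq
              obtain ⟨d1, d2, d3⟩ := hdiff u hu v hv
              have hu' := hV u hu
              have hv' := hV v hv
              rw [mem_filter] at hu' hv'
              rw [hq, sub_self, zero_mul] at d2
              have d4 : u p1 - v p1 = 0 := by
                rcases mul_eq_zero.1 d2.symm with h6 | h6
                · exact h6
                · exact absurd h6 hαw0
              rw [hq, d4, sub_self, zero_mul, zero_mul, add_zero, add_zero] at d3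
              funext p
              by_cases hp : p ∈ S
              · rw [hS, mem_insert, mem_insert, mem_insert, mem_insert, mem_singleton] at hp
                rcases hp with rfl | rfl | rfl | rfl | rfl
                · exact hq
                · linarith
                · linarith
                · linarith
                · rw [(hU u hu'.1.1).2.1, (hU v hv'.1.1).2.1]
              · rw [hu'.1.2 p hp, hv'.1.2 p hp]
            have hdv : ∀ u ∈ V, α' ∣ v0 q1 - u q1 := by
              intro u hu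
              have d2 := (hdiff v0 hv0 u hu).2.1
              rw [hα', hβ'] at d2
              have d3 : (v0 q1 - u q1) * β' = (v0 p1 - u p1) * α' := by
                have hgZ : (g : ℤ) ≠ 0 := by omega
                have : (g : ℤ) * ((v0 q1 - u q1) * β') = (g : ℤ) * ((v0 p1 - u p1) * α') := by
                  linear_combination d2
                exact mul_left_cancel₀ hgZ this
              have d4 : α' ∣ (v0 q1 - u q1) * β' := ⟨v0 p1 - u p1, by rw [d3]; ring⟩
              exact (Int.isCoprime_iff_gcd_eq_one.2 hcop).dvd_of_dvd_mul_right d4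
            have h5 := Pool.Agent.N656.PL.card_cong (H : ℝ) hH.le α' (v0 q1) hα'0
            have h6 : V.card ≤ ((Icc (-⌊(H : ℝ)⌋) ⌊(H : ℝ)⌋).filter
                fun z : ℤ => α' ∣ v0 q1 - z).card := by
              refine Finset.card_le_card_of_injOn (fun u => u q1) (fun u hu => ?_) (fun u hu v hv h =>
                hinj u hu v hv h)
              have hu' := hV u hu
              rw [mem_filter] at hu'
              rw [coe_filter, Set.mem_setOf_eq, Int.floor_natCast, mem_Icc]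
              exact ⟨abs_le.1 ((hU u hu'.1.1).1 q1), hdv u hu⟩
            have h7 : (V.card : ℝ) ≤ 2 * H / |(α' : ℝ)| + 1 := le_trans (by exact_mod_cast h6) h5
            refine h7.trans ?_
            have h8 : 2 * (H : ℝ) / |(α' : ℝ)| ≤ 2 * H / (θ * H / g) := by
              have : 0 < θ * H / g := by positivity
              gcongr
            have h9 : 2 * (H : ℝ) / (θ * H / g) = 2 / θ * g := by
              field_simp
            linarith)
        refine h3.trans ?_
        rw [hφ]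
        simp only
        rw [if_pos ⟨hαw0, hβw0⟩, ← hg]
        gcongr)
  rw [hS5] at h1
  have h2 := sum_two H pα pβ hαβ φ hφ0
  refine (h1.trans h2).trans (le_of_eq ?_)
  rw [hφ]

end Pool.Agent.N656.BD
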