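import Pool.Agent.N656.BD.Cor2

/-!
# The polynomials with an integer zero both of whose coordinates are large are rare
-/

set_option autoImplicit false

open Finset

namespace Pool.Agent.N656.BD

variable {a b : ℕ}

lemma last4 (H : ℕ) :
    (((box (Ix a b) H).filter fun w => w (ix a b (a + 2) (b + 2) (by omega) (by omega)) = 0 ∧
      w (ix a b (a + 1) (b + 2) (by omega) (by omega)) ≠ 0 ∧
      w (ix a b (a + 2) (b + 1) (by omega) (by omega)) ∣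
        w (ix a b (a + 2) b (by omega) (by omega)) *
          w (ix a b (a + 1) (b + 2) (by omega) (by omega)) ^ 2).card : ℝ) ≤
      (2 * (H : ℝ) + 1) ^ (Fintype.card (Ix a b) - 2) +
      16 * ((H : ℝ) ^ 2 * Real.sqrt H * (1 + Real.log H) ^ 2) *
        (2 * (H : ℝ) + 1) ^ (Fintype.card (Ix a b) - 4) := by
  classical
  obtain ⟨pc, hpc⟩ : ∃ p, p = ix a b (a + 2) (b + 2) (by omega) (by omega) := ⟨_, rfl⟩
  obtain ⟨pα, hpα⟩ : ∃ p, p = ix a b (a + 2) (b + 1) (by omega) (by omega) := ⟨_, rfl⟩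
  obtain ⟨pβ, hpβ⟩ : ∃ p, p = ix a b (a + 1) (b + 2) (by omega) (by omega) := ⟨_, rfl⟩
  obtain ⟨p1, hp1⟩ : ∃ p, p = ix a b (a + 2) b (by omega) (by omega) := ⟨_, rfl⟩
  rw [← hpc, ← hpα, ← hpβ, ← hp1]
  have n1 : pc ≠ pβ := by rw [hpc, hpβ]; exact ix_ne (by omega)
  have n2 : pc ≠ p1 := by rw [hpc, hp1]; exact ix_ne (by omega)
  have n3 : pc ≠ pα := by rw [hpc, hpα]; exact ix_ne (by omega)
  have n4 : pβ ≠ p1 := by rw [hpβ, hp1]; exact ix_ne (by omega)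
  have n5 : pβ ≠ pα := by rw [hpβ, hpα]; exact ix_ne (by omega)
  have n6 : p1 ≠ pα := by rw [hp1, hpα]; exact ix_ne (by omega)
  obtain ⟨T, hT⟩ : ∃ T, T = ((nz H ×ˢ nz H ×ˢ Icc (-(H : ℤ)) H).filter
    fun t => t.2.2 ∣ t.2.1 * t.1 ^ 2) := ⟨_, rfl⟩
  have h1 : ((box (Ix a b) H).filter fun w => w pc = 0 ∧ w pβ ≠ 0 ∧ w pα ∣ w p1 * w pβ ^ 2) ⊆
      ((box (Ix a b) H).filter fun w => ∀ q ∈ ({pc, p1} : Finset (Ix a b)), w q = 0) ∪
      T.biUnion fun t => (box (Ix a b) H).filter fun w =>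
        ∀ q ∈ ({pc, pβ, p1, pα} : Finset (Ix a b)), w q =
          (if q = pc then 0 else if q = pβ then t.1 else if q = p1 then t.2.1 else t.2.2) := by
    intro w hw
    rw [mem_filter] at hw
    obtain ⟨hw1, hw2, hw3, hw4⟩ := hw
    rw [mem_union]
    by_cases h5 : w p1 = 0
    · left
      rw [mem_filter]
      refine ⟨hw1, fun q hq => ?_⟩
      rw [mem_insert, mem_singleton] at hq
      rcases hq with rfl | rfl
      · exact hw2
      · exact h5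
    · right
      rw [mem_biUnion]
      have h6 := mem_box.1 hw1
      refine ⟨(w pβ, w p1, w pα), ?_, ?_⟩
      · rw [hT, mem_filter, mem_product, mem_product, mem_nz, mem_nz, mem_Icc]
        exact ⟨⟨⟨h6 pβ, hw3⟩, ⟨h6 p1, h5⟩, abs_le.1 (h6 pα)⟩, hw4⟩
      · rw [mem_filter]
        refine ⟨hw1, fun q hq => ?_⟩
        rw [mem_insert, mem_insert, mem_insert, mem_singleton] at hq
        rcases hq with rfl | rfl | rfl | rfl
        · rw [if_pos rfl]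
          exact hw2
        · rw [if_neg n1.symm, if_pos rfl]
        · rw [if_neg n2.symm, if_neg n4.symm, if_pos rfl]
        · rw [if_neg n3.symm, if_neg n5.symm, if_neg n6.symm]
  have h2 := (card_le_card h1).trans ((card_union_le _ _).trans
    (Nat.add_le_add_left card_biUnion_le _))
  have h3 := card_on H ({pc, p1} : Finset (Ix a b)) (fun _ => 0)
  rw [card_pair n2] at h3
  have h4 : ∑ t ∈ T, ((box (Ix a b) H).filter fun w =>
        ∀ q ∈ ({pc, pβ, p1, pα} : Finset (Ix a b)), w q =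
          (if q = pc then 0 else if q = pβ then t.1 else if q = p1 then t.2.1 else t.2.2)).card ≤
      T.card * (2 * H + 1) ^ (Fintype.card (Ix a b) - 4) := by
    refine Finset.sum_le_card_nsmul _ _ _ fun t _ => ?_
    have h5 := card_on H ({pc, pβ, p1, pα} : Finset (Ix a b))
      (fun q => if q = pc then 0 else if q = pβ then t.1 else if q = p1 then t.2.1 else t.2.2)
    rwa [card_insert_of_notMem (by simp [n1, n2, n3]), card_insert_of_notMem (by simp [n4, n5]),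
      card_pair n6] at h5
  have h5 := h2.trans (add_le_add h3 h4)
  have h6 : (((box (Ix a b) H).filter fun w => w pc = 0 ∧ w pβ ≠ 0 ∧
      w pα ∣ w p1 * w pβ ^ 2).card : ℝ) ≤ (2 * (H : ℝ) + 1) ^ (Fintype.card (Ix a b) - 2) +
      (T.card : ℝ) * (2 * (H : ℝ) + 1) ^ (Fintype.card (Ix a b) - 4) := by exact_mod_cast h5
  refine h6.trans ?_
  have h7 := card_div H
  rw [← hT] at h7
  gcongr

lemma sum_phi (H : ℕ) (hH : 1 ≤ H) (Q θ : ℝ) (hQ : 0 ≤ Q) (hθ : 0 < θ) :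
    ∑ s ∈ Icc (-(H : ℤ)) H, ∑ t ∈ Icc (-(H : ℤ)) H, (if s ≠ 0 ∧ t ≠ 0 then
        Q * (2 / θ * (Int.gcd s t : ℝ) + 1) else 0) ≤
      Q * (2 / θ + 1) * ((2 * H + 1) ^ 2 * (1 + Real.log H)) := by
  classical
  have hlog : 0 ≤ Real.log H := Real.log_natCast_nonneg H
  have h1 : ∑ s ∈ Icc (-(H : ℤ)) H, ∑ t ∈ Icc (-(H : ℤ)) H, (if s ≠ 0 ∧ t ≠ 0 then
        Q * (2 / θ * (Int.gcd s t : ℝ) + 1) else 0) =
      ∑ s ∈ nz H, ∑ t ∈ nz H, Q * (2 / θ * (Int.gcd s t : ℝ) + 1) := by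
    unfold nz
    rw [Finset.sum_filter]
    refine Finset.sum_congr rfl fun s _ => ?_
    by_cases hs : s = 0
    · simp [hs]
    · rw [if_pos hs, Finset.sum_filter]
      refine Finset.sum_congr rfl fun t _ => ?_
      by_cases ht : t = 0
      · simp [ht]
      · rw [if_pos ht, if_pos ⟨hs, ht⟩]
  have h2 : ∑ s ∈ nz H, ∑ t ∈ nz H, Q * (2 / θ * (Int.gcd s t : ℝ) + 1) =
      Q * (2 / θ * (∑ s ∈ nz H, ∑ t ∈ nz H, (Int.gcd s t : ℝ)) + ((nz H).card : ℝ) ^ 2) := by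
    simp only [mul_add, mul_one, Finset.sum_add_distrib, Finset.sum_const, nsmul_eq_mul,
      ← Finset.mul_sum]
    ring
  have h3 := sum_gcd_nz H
  have h4 : ((nz H).card : ℝ) ≤ 2 * H + 1 := by
    have h5 : (nz H).card ≤ (Icc (-(H : ℤ)) H).card := card_le_card (filter_subset _ _)
    rw [card_I] at h5
    exact_mod_cast h5
  rw [h1, h2]
  have h5 : 4 * ((H : ℝ) ^ 2 * (1 + Real.log H)) ≤ (2 * H + 1) ^ 2 * (1 + Real.log H) := by
    have h6 : 4 * (H : ℝ) ^ 2 ≤ (2 * H + 1) ^ 2 := by nlinarith [(by positivity : (0 : ℝ) ≤ H)]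
    nlinarith
  have h6 : ((nz H).card : ℝ) ^ 2 ≤ (2 * H + 1) ^ 2 * (1 + Real.log H) := by
    calc ((nz H).card : ℝ) ^ 2 ≤ (2 * H + 1) ^ 2 := by gcongr
      _ ≤ _ := by nlinarith [sq_nonneg (2 * (H : ℝ) + 1)]
  calc Q * (2 / θ * (∑ s ∈ nz H, ∑ t ∈ nz H, (Int.gcd s t : ℝ)) + ((nz H).card : ℝ) ^ 2)
      ≤ Q * (2 / θ * ((2 * H + 1) ^ 2 * (1 + Real.log H)) +
        (2 * H + 1) ^ 2 * (1 + Real.log H)) := by
        have := h3.trans h5
        gcongr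
    _ = _ := by ring

lemma log_small (H : ℕ) (hH : 1 ≤ H) :
    Real.sqrt H * (1 + Real.log H) ^ 2 ≤ 64 * H / Real.sqrt (Real.sqrt H) := by
  have hH1 : (1 : ℝ) ≤ H := by exact_mod_cast hH
  obtain ⟨r, hr⟩ : ∃ r : ℝ, r = Real.sqrt H := ⟨_, rfl⟩
  obtain ⟨q, hq⟩ : ∃ q : ℝ, q = Real.sqrt r := ⟨_, rfl⟩
  obtain ⟨s, hs⟩ : ∃ s : ℝ, s = Real.sqrt q := ⟨_, rfl⟩
  have hr1 : 1 ≤ r := by rw [hr]; exact Real.one_le_sqrt.2 hH1
  have hq1 : 1 ≤ q := by rw [hq]; exact Real.one_le_sqrt.2 hr1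
  have hs1 : 1 ≤ s := by rw [hs]; exact Real.one_le_sqrt.2 hq1
  have e1 : r ^ 2 = H := by rw [hr]; exact Real.sq_sqrt (by linarith)
  have e2 : q ^ 2 = r := by rw [hq]; exact Real.sq_sqrt (by linarith)
  have e3 : s ^ 2 = q := by rw [hs]; exact Real.sq_sqrt (by linarith)
  have hs8 : (H : ℝ) = s ^ 8 := by rw [← e1, ← e2, ← e3]; ring
  have hlog : Real.log H = 8 * Real.log s := by
    rw [hs8, Real.log_pow]
    norm_num
  have hls : Real.log s ≤ s - 1 := Real.log_le_sub_one_of_pos (by linarith)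
  have hls0 : 0 ≤ Real.log s := Real.log_nonneg hs1
  rw [← hr, ← hq, le_div_iff₀ (by linarith), hlog]
  have h1 : (1 + 8 * Real.log s) ^ 2 ≤ (8 * s) ^ 2 := by
    have : 1 + 8 * Real.log s ≤ 8 * s := by linarith
    gcongr
  calc r * (1 + 8 * Real.log s) ^ 2 * q ≤ r * (8 * s) ^ 2 * q := by gcongr
    _ = 64 * (H : ℝ) := by
      rw [hs8, ← e2, ← e3]
      ring

/-- the polynomials with an integer zero both of whose coordinates exceed `M H` -/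
def crn (a b : ℕ) (H : ℕ) : Set (Ix a b → ℤ) :=
  {w | (∀ p, |w p| ≤ H) ∧ ∃ x y : ℤ, (Fintype.card (Ix a b) : ℝ) * H < |(x : ℝ)| ∧
    (Fintype.card (Ix a b) : ℝ) * H < |(y : ℝ)| ∧ G w x y = 0}

theorem crn_le (a b : ℕ) (θ : ℝ) (hθ : 0 < θ) (hθ1 : θ ≤ 1) : ∃ C : ℝ, 0 ≤ C ∧
    ∀ H : ℕ, 4 / θ ≤ (H : ℝ) → (Set.ncard (crn a b H) : ℝ) ≤
      (2 * θ + C / Real.sqrt (Real.sqrt H)) *
        (2 * (H : ℝ) + 1) ^ (Fintype.card (Ix a b) - 1) := by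
  classical
  obtain ⟨M, hM⟩ : ∃ M : ℝ, M = (Fintype.card (Ix a b) : ℝ) := ⟨_, rfl⟩
  obtain ⟨m, hm⟩ : ∃ m : ℕ, Fintype.card (Ix a b) = m + 5 := by
    refine ⟨Fintype.card (Ix a b) - 5, ?_⟩
    rw [Fintype.card_prod, Fintype.card_fin, Fintype.card_fin]
    have : 9 ≤ (b + 3) * (a + 3) := by nlinarith [Nat.zero_le a, Nat.zero_le b]
    omega
  have hM1 : 1 ≤ M := by
    rw [hM, hm]
    push_cast
    have : (0 : ℝ) ≤ m := by positivity
    linarith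
  have hM2 : 2 ≤ M := by
    rw [hM, hm]
    push_cast
    have : (0 : ℝ) ≤ m := by positivity
    linarith
  obtain ⟨ρ, hρ⟩ : ∃ ρ : ℝ, ρ = 2 / θ := ⟨_, rfl⟩
  have hρ1 : 1 ≤ ρ := by
    rw [hρ, le_div_iff₀ hθ]
    linarith
  have hρ0 : 0 < ρ := by linarith
  have hM0 : 0 < M := by linarith
  obtain ⟨Q, hQ⟩ : ∃ Q : ℝ, Q = 2 * (M * ρ) / θ + 1 := ⟨_, rfl⟩
  have hQ0 : 0 ≤ Q := by rw [hQ]; positivity
  obtain ⟨C1, hC1⟩ : ∃ C1 : ℝ, C1 = 6 * M * ρ ^ 2 := ⟨_, rfl⟩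
  obtain ⟨C2, hC2⟩ : ∃ C2 : ℝ, C2 = 3 * M * ρ ^ 2 := ⟨_, rfl⟩
  have hC10 : 0 ≤ C1 := by rw [hC1]; positivity
  have hC20 : 0 ≤ C2 := by rw [hC2]; positivity
  refine ⟨64 * (2 + (2 * C1 + 1) * Q + (2 * C2 + 1) * (Q * (2 / θ + 1)) + 1 + 16),
    by positivity, fun H hH => ?_⟩
  have hHR : (0 : ℝ) < H := lt_of_lt_of_le (by positivity) hH
  have hH1 : 1 ≤ H := by
    have : 0 < H := by exact_mod_cast hHR
    omega
  have hHR1 : (1 : ℝ) ≤ H := by exact_mod_cast hH1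
  have hlog : 0 ≤ Real.log H := Real.log_natCast_nonneg H
  obtain ⟨pc, hpc⟩ : ∃ p, p = ix a b (a + 2) (b + 2) (by omega) (by omega) := ⟨_, rfl⟩
  obtain ⟨pα, hpα⟩ : ∃ p, p = ix a b (a + 2) (b + 1) (by omega) (by omega) := ⟨_, rfl⟩
  obtain ⟨pβ, hpβ⟩ : ∃ p, p = ix a b (a + 1) (b + 2) (by omega) (by omega) := ⟨_, rfl⟩
  obtain ⟨p1, hp1⟩ : ∃ p, p = ix a b (a + 2) b (by omega) (by omega) := ⟨_, rfl⟩
  have n1 : pc ≠ pβ := by rw [hpc, hpβ]; exact ix_ne (by omega)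
  have n3 : pc ≠ pα := by rw [hpc, hpα]; exact ix_ne (by omega)
  obtain ⟨L, hL⟩ : ∃ L : ℝ, L = 2 * (H : ℝ) + 1 := ⟨_, rfl⟩
  have hL0 : 0 < L := by rw [hL]; positivity
  have hLH : (H : ℝ) ≤ L := by rw [hL]; linarith
  have hL1 : 1 ≤ L := by rw [hL]; linarith
  -- the pieces
  obtain ⟨A1, hA1⟩ : ∃ A1 : Finset (Ix a b → ℤ), A1 = (box (Ix a b) H).filter
    fun w => w pc = 0 ∧ |(w pα : ℝ)| ≤ θ * H := ⟨_, rfl⟩
  obtain ⟨A2, hA2⟩ : ∃ A2 : Finset (Ix a b → ℤ), A2 = (box (Ix a b) H).filter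
    fun w => w pc = 0 ∧ |(w pβ : ℝ)| ≤ θ * H := ⟨_, rfl⟩
  obtain ⟨A5, hA5⟩ : ∃ A5 : Finset (Ix a b → ℤ), A5 = (box (Ix a b) H).filter
    fun w => w pc = 0 ∧ w pβ ≠ 0 ∧ w pα ∣ w p1 * w pβ ^ 2 := ⟨_, rfl⟩
  obtain ⟨V2, hV2⟩ : ∃ V2 : ℤ → Finset (Ix a b → ℤ), ∀ x, V2 x = (box (Ix a b) H).filter
    fun u => u pc = 0 ∧ θ * H < |(u pβ : ℝ)| ∧
      ∃ y : ℤ, 2 * (H : ℤ) < |y| ∧ |(u pα : ℝ) * x + (u pβ : ℝ) * y| ≤ M * ρ * H ∧
        G u x y = 0 := ⟨_, fun _ => rfl⟩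
  obtain ⟨V3, hV3⟩ : ∃ V3 : ℤ → Finset (Ix a b → ℤ), ∀ x, V3 x = (box (Ix a b) H).filter
    fun u => 4 * M * ρ * (H : ℝ) ^ 2 < |(x : ℝ)| ∧ u pc = 0 ∧
      θ * H < |(u pα : ℝ)| ∧ θ * H < |(u pβ : ℝ)| ∧
      ∃ y : ℤ, 2 * H * (ρ + 2) < |(y : ℝ)| ∧ |(x : ℝ)| ≤ ρ * |(y : ℝ)| ∧
        |(u pα : ℝ) * x + (u pβ : ℝ) * y| ≤ M * ρ * H ∧
        G u x y = 0 := ⟨_, fun _ => rfl⟩
  obtain ⟨N1, hN1⟩ : ∃ N1 : ℕ, N1 = ⌊C1 * (H : ℝ) ^ 2⌋₊ := ⟨_, rfl⟩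
  obtain ⟨N2, hN2⟩ : ∃ N2 : ℕ, N2 = ⌊C2 * (H : ℝ) ^ 3⌋₊ := ⟨_, rfl⟩
  have hN1le : (N1 : ℝ) ≤ C1 * (H : ℝ) ^ 2 := by rw [hN1]; exact Nat.floor_le (by positivity)
  have hN2le : (N2 : ℝ) ≤ C2 * (H : ℝ) ^ 3 := by rw [hN2]; exact Nat.floor_le (by positivity)
  have hmemI : ∀ (x : ℤ) (B : ℝ) (N : ℕ), N = ⌊B⌋₊ → |(x : ℝ)| ≤ B →
      x ∈ Icc (-(N : ℤ)) N := by
    intro x B N hN hx
    have h3 : (x.natAbs : ℝ) ≤ B := by
      rw [Nat.cast_natAbs]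
      push_cast
      exact hx
    have h4 : x.natAbs ≤ N := by rw [hN]; exact Nat.le_floor h3
    exact mem_Icc.2 ⟨by omega, by omega⟩
  have hsub : crn a b H ⊆ (((A1 ∪ A2) ∪ ((Icc (-(N1 : ℤ)) N1).biUnion V2)) ∪
      (((Icc (-(N2 : ℤ)) N2).biUnion V3) ∪ A5) : Finset (Ix a b → ℤ)) := by
    rintro w ⟨hw, x, y, hx, hy, h0⟩
    have hwb : w ∈ box (Ix a b) H := mem_box.2 hw
    rw [← hM] at hx hy
    obtain ⟨hc, h1⟩ := struct w H hw M hM θ hθ hθ1 hH x y hx hy h0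
    rw [← hpc] at hc
    rw [← hpα, ← hpβ, ← hp1, ← hρ] at h1
    rw [mem_coe, mem_union, mem_union, mem_union, mem_union]
    rcases le_or_gt |(w pα : ℝ)| (θ * H) with h2 | h2
    · left; left; left
      rw [hA1, mem_filter]
      exact ⟨hwb, hc, h2⟩
    rcases le_or_gt |(w pβ : ℝ)| (θ * H) with h3 | h3
    · left; left; right
      rw [hA2, mem_filter]
      exact ⟨hwb, hc, h3⟩
    rcases h1 with h1 | h1 | ⟨h4, h5, h6, h7⟩
    · exact absurd h1 (not_le.2 h2)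
    · exact absurd h1 (not_le.2 h3)
    rcases le_or_gt |(x : ℝ)| (C1 * (H : ℝ) ^ 2) with h8 | h8
    · left; right
      rw [mem_biUnion]
      refine ⟨x, hmemI x _ N1 hN1 h8, ?_⟩
      rw [hV2, mem_filter]
      refine ⟨hwb, hc, h3, y, ?_, h6, h0⟩
      have h9 : 2 * (H : ℝ) < |(y : ℝ)| := lt_of_le_of_lt (by gcongr) hy
      exact_mod_cast h9
    rcases le_or_gt |(x : ℝ)| (C2 * (H : ℝ) ^ 3) with h9 | h9
    · right; left
      rw [mem_biUnion]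
      refine ⟨x, hmemI x _ N2 hN2 h9, ?_⟩
      rw [hV3, mem_filter]
      refine ⟨hwb, ?_, hc, h2, h3, y, ?_, h4, h6, h0⟩
      · refine lt_of_le_of_lt ?_ h8
        rw [hC1]
        have : ρ ≤ ρ ^ 2 := by nlinarith
        have h10 : 4 * M * ρ ≤ 6 * M * ρ ^ 2 := by nlinarith
        gcongr
      · have h10 : C1 * (H : ℝ) ^ 2 < ρ * |(y : ℝ)| := lt_of_lt_of_le h8 h4
        have h11 : ρ * (2 * H * (ρ + 2)) ≤ C1 * (H : ℝ) ^ 2 := by
          rw [hC1]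
          have e1 : 2 * (ρ + 2) ≤ 6 * M * ρ := by nlinarith
          have e2 : (H : ℝ) ≤ (H : ℝ) ^ 2 := by nlinarith
          calc ρ * (2 * H * (ρ + 2)) = ρ * (2 * (ρ + 2)) * H := by ring
            _ ≤ ρ * (6 * M * ρ) * (H : ℝ) ^ 2 := by gcongr
            _ = _ := by ring
        exact lt_of_mul_lt_mul_left (lt_of_le_of_lt h11 h10) hρ0.le
    · right; right
      rw [hA5, mem_filter]
      refine ⟨hwb, hc, ?_, h7 (by rw [hC2] at h9; exact h9)⟩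
      intro h10
      rw [h10, Int.cast_zero, abs_zero] at h3
      have : 0 < θ * H := by positivity
      linarith
  have h1 := Set.ncard_le_ncard hsub (Finset.finite_toSet _)
  rw [Set.ncard_coe_finset] at h1
  have h2 := h1.trans ((card_union_le _ _).trans (add_le_add
    ((card_union_le _ _).trans (add_le_add (card_union_le _ _) card_biUnion_le))
    ((card_union_le _ _).trans (add_le_add card_biUnion_le le_rfl))))
  have h3 : (Set.ncard (crn a b H) : ℝ) ≤ (((A1.card : ℝ) + A2.card) +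
      ∑ x ∈ Icc (-(N1 : ℤ)) N1, ((V2 x).card : ℝ)) +
      (∑ x ∈ Icc (-(N2 : ℤ)) N2, ((V3 x).card : ℝ) + A5.card) := by exact_mod_cast h2
  -- the single bounds
  have b1 : (A1.card : ℝ) ≤ (2 * (θ * H) + 1) * L ^ (m + 3) := by
    have h4 := card_small H pc pα n3 (θ * H) (by positivity)
    rw [hm, show m + 5 - 2 = m + 3 by omega, ← hL, ← hA1] at h4
    exact h4
  have b2 : (A2.card : ℝ) ≤ (2 * (θ * H) + 1) * L ^ (m + 3) := by
    have h4 := card_small H pc pβ n1 (θ * H) (by positivity)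
    rw [hm, show m + 5 - 2 = m + 3 by omega, ← hL, ← hA2] at h4
    exact h4
  have hQe : 2 * (M * ρ * H) / (θ * H) + 1 = Q := by
    rw [hQ]
    field_simp
  have b3 : ∀ x, ((V2 x).card : ℝ) ≤ Q * L ^ (m + 1) := by
    intro x
    have h4 := line2 (a := a) (b := b) H θ (M * ρ * H) hθ hHR (by positivity) x (V2 x)
      (fun u hu => by
        rw [hV2, mem_filter] at hu
        rw [← hpc, ← hpα, ← hpβ]
        exact ⟨mem_box.1 hu.1, hu.2⟩)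
    rw [hQe, hm, ← hL] at h4
    have h5 : ((V2 x).card : ℝ) * L ^ 4 ≤ Q * L ^ (m + 1) * L ^ 4 := by
      calc _ ≤ _ := h4
        _ = _ := by ring
    exact le_of_mul_le_mul_right h5 (by positivity)
  have b4 : ∀ x, ((V3 x).card : ℝ) ≤ Q * (2 / θ + 1) * (1 + Real.log H) * L ^ m := by
    intro x
    by_cases hx : 4 * M * ρ * (H : ℝ) ^ 2 < |(x : ℝ)|
    · have h4 := line3 (a := a) (b := b) H θ M ρ hθ hHR hM1 hρ1 x hx (V3 x)
        (fun u hu => by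
          rw [hV3, mem_filter] at hu
          rw [← hpc, ← hpα, ← hpβ]
          exact ⟨mem_box.1 hu.1, hu.2.2⟩)
      rw [hQe, hm, ← hL, show m + 5 - 2 = m + 3 by omega] at h4
      have h6 := sum_phi H hH1 Q θ hQ0 hθ
      rw [← hL] at h6
      have h5 : ((V3 x).card : ℝ) * L ^ 5 ≤
          Q * (2 / θ + 1) * (1 + Real.log H) * L ^ m * L ^ 5 := by
        calc _ ≤ _ := h4
          _ ≤ L ^ (m + 3) * (Q * (2 / θ + 1) * (L ^ 2 * (1 + Real.log H))) := by gcongr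
          _ = _ := by ring
      exact le_of_mul_le_mul_right h5 (by positivity)
    · have h4 : V3 x = ∅ := by
        rw [hV3]
        refine filter_eq_empty_iff.2 fun u _ h5 => hx h5.1
      rw [h4, card_empty, Nat.cast_zero]
      positivity
  have b5 : (A5.card : ℝ) ≤ L ^ (m + 3) +
      16 * ((H : ℝ) ^ 2 * Real.sqrt H * (1 + Real.log H) ^ 2) * L ^ (m + 1) := by
    have h4 := last4 (a := a) (b := b) H
    rw [← hpc, ← hpα, ← hpβ, ← hp1, ← hA5, hm, show m + 5 - 2 = m + 3 by omega,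
      show m + 5 - 4 = m + 1 by omega, ← hL] at h4
    exact h4
  have s3 : ∑ x ∈ Icc (-(N1 : ℤ)) N1, ((V2 x).card : ℝ) ≤
      (2 * C1 + 1) * Q * L ^ (m + 3) := by
    calc _ ≤ ∑ _x ∈ Icc (-(N1 : ℤ)) N1, Q * L ^ (m + 1) := Finset.sum_le_sum fun x _ => b3 x
      _ = (2 * N1 + 1) * (Q * L ^ (m + 1)) := by
          rw [Finset.sum_const, nsmul_eq_mul, card_I]
          push_cast
          ring
      _ ≤ ((2 * C1 + 1) * L ^ 2) * (Q * L ^ (m + 1)) := by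
          have h4 : 2 * (N1 : ℝ) + 1 ≤ (2 * C1 + 1) * L ^ 2 := by
            have h5 : (H : ℝ) ^ 2 ≤ L ^ 2 := by gcongr
            have h6 : 1 ≤ L ^ 2 := one_le_pow₀ hL1
            have h7 : C1 * (H : ℝ) ^ 2 ≤ C1 * L ^ 2 := by gcongr
            nlinarith
          gcongr
      _ = _ := by ring
  have s4 : ∑ x ∈ Icc (-(N2 : ℤ)) N2, ((V3 x).card : ℝ) ≤
      (2 * C2 + 1) * (Q * (2 / θ + 1)) * (1 + Real.log H) * L ^ (m + 3) := by
    calc _ ≤ ∑ _x ∈ Icc (-(N2 : ℤ)) N2, Q * (2 / θ + 1) * (1 + Real.log H) * L ^ m :=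
          Finset.sum_le_sum fun x _ => b4 x
      _ = (2 * N2 + 1) * (Q * (2 / θ + 1) * (1 + Real.log H) * L ^ m) := by
          rw [Finset.sum_const, nsmul_eq_mul, card_I]
          push_cast
          ring
      _ ≤ ((2 * C2 + 1) * L ^ 3) * (Q * (2 / θ + 1) * (1 + Real.log H) * L ^ m) := by
          have h4 : 2 * (N2 : ℝ) + 1 ≤ (2 * C2 + 1) * L ^ 3 := by
            have h5 : (H : ℝ) ^ 3 ≤ L ^ 3 := by gcongr
            have h6 : 1 ≤ L ^ 3 := one_le_pow₀ hL1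
            have h7 : C2 * (H : ℝ) ^ 3 ≤ C2 * L ^ 3 := by gcongr
            nlinarith
          gcongr
      _ = _ := by ring
  obtain ⟨F, hF⟩ : ∃ F : ℝ, F = Real.sqrt H * (1 + Real.log H) ^ 2 := ⟨_, rfl⟩
  have hsq1 : 1 ≤ Real.sqrt H := Real.one_le_sqrt.2 hHR1
  have hl1 : 1 ≤ (1 + Real.log H) ^ 2 := one_le_pow₀ (by linarith)
  have hl2 : 1 + Real.log H ≤ (1 + Real.log H) ^ 2 := by nlinarith
  have hF1 : 1 ≤ F := by rw [hF]; nlinarith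
  have hF2 : 1 + Real.log H ≤ F := by rw [hF]; nlinarith
  have s1 : (2 * (θ * H) + 1) * L ^ (m + 3) ≤ θ * L ^ (m + 4) + L ^ (m + 3) := by
    have h4 : 2 * (θ * H) ≤ θ * L := by rw [hL]; nlinarith
    calc (2 * (θ * H) + 1) * L ^ (m + 3) ≤ (θ * L + 1) * L ^ (m + 3) := by gcongr
      _ = _ := by ring
  have s5 : 16 * ((H : ℝ) ^ 2 * Real.sqrt H * (1 + Real.log H) ^ 2) * L ^ (m + 1) ≤
      16 * F * L ^ (m + 3) := by
    calc 16 * ((H : ℝ) ^ 2 * Real.sqrt H * (1 + Real.log H) ^ 2) * L ^ (m + 1) =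
        16 * ((H : ℝ) ^ 2 * F) * L ^ (m + 1) := by rw [hF]; ring
      _ ≤ 16 * (L ^ 2 * F) * L ^ (m + 1) := by gcongr
      _ = _ := by ring
  have hFs : F * L ^ (m + 3) ≤ 64 / Real.sqrt (Real.sqrt H) * L ^ (m + 4) := by
    have h4 := log_small H hH1
    rw [← hF] at h4
    have hss : 0 < Real.sqrt (Real.sqrt H) := Real.sqrt_pos.2 (by linarith)
    calc F * L ^ (m + 3) ≤ (64 * H / Real.sqrt (Real.sqrt H)) * L ^ (m + 3) := by gcongr
      _ ≤ (64 * L / Real.sqrt (Real.sqrt H)) * L ^ (m + 3) := by gcongr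
      _ = _ := by ring
  rw [← hL, hm, show m + 5 - 1 = m + 4 by omega]
  have hP : 0 ≤ L ^ (m + 3) := by positivity
  have t3 : (2 * C1 + 1) * Q * L ^ (m + 3) ≤ (2 * C1 + 1) * Q * (F * L ^ (m + 3)) := by
    have : L ^ (m + 3) ≤ F * L ^ (m + 3) := by nlinarith
    gcongr
  have t4 : (2 * C2 + 1) * (Q * (2 / θ + 1)) * (1 + Real.log H) * L ^ (m + 3) ≤
      (2 * C2 + 1) * (Q * (2 / θ + 1)) * (F * L ^ (m + 3)) := by
    calc _ = (2 * C2 + 1) * (Q * (2 / θ + 1)) * ((1 + Real.log H) * L ^ (m + 3)) := by ring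
      _ ≤ _ := by gcongr
  have t1 : L ^ (m + 3) ≤ F * L ^ (m + 3) := by nlinarith
  obtain ⟨Z, hZ⟩ : ∃ Z : ℝ, Z = F * L ^ (m + 3) := ⟨_, rfl⟩
  rw [← hZ] at t1 t3 t4 hFs
  have s5' : 16 * ((H : ℝ) ^ 2 * Real.sqrt H * (1 + Real.log H) ^ 2) * L ^ (m + 1) ≤ 16 * Z := by
    rw [hZ]
    linarith
  have hall : (Set.ncard (crn a b H) : ℝ) ≤ 2 * θ * L ^ (m + 4) +
      (2 + (2 * C1 + 1) * Q + (2 * C2 + 1) * (Q * (2 / θ + 1)) + 1 + 16) * Z := by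
    linarith
  refine hall.trans ?_
  have hK0 : 0 ≤ 2 + (2 * C1 + 1) * Q + (2 * C2 + 1) * (Q * (2 / θ + 1)) + 1 + 16 := by positivity
  calc 2 * θ * L ^ (m + 4) +
      (2 + (2 * C1 + 1) * Q + (2 * C2 + 1) * (Q * (2 / θ + 1)) + 1 + 16) * Z ≤
      2 * θ * L ^ (m + 4) +
      (2 + (2 * C1 + 1) * Q + (2 * C2 + 1) * (Q * (2 / θ + 1)) + 1 + 16) *
        (64 / Real.sqrt (Real.sqrt H) * L ^ (m + 4)) := by gcongr
    _ = _ := by ring

open Filter Topology in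
/-- the polynomials with an integer zero both of whose coordinates exceed `M H` are rare -/
theorem crn_rare (a b : ℕ) (η : ℝ) (hη : 0 < η) : ∀ᶠ H : ℕ in atTop,
    (Set.ncard (crn a b H) : ℝ) ≤ η * (2 * (H : ℝ) + 1) ^ (Fintype.card (Ix a b) - 1) := by
  obtain ⟨θ, hθe⟩ : ∃ θ : ℝ, θ = min (η / 4) 1 := ⟨_, rfl⟩
  have hθ : 0 < θ := by rw [hθe]; exact lt_min (by positivity) one_pos
  have hθ1 : θ ≤ 1 := by rw [hθe]; exact min_le_right _ _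
  have hθη : θ ≤ η / 4 := by rw [hθe]; exact min_le_left _ _
  obtain ⟨C, hC0, hC⟩ := crn_le a b θ hθ hθ1
  have h1 : ∀ᶠ H : ℕ in atTop, 4 / θ ≤ (H : ℝ) :=
    tendsto_natCast_atTop_atTop.eventually_ge_atTop _
  have h2 : Tendsto (fun H : ℕ => Real.sqrt (Real.sqrt H)) atTop atTop :=
    Real.tendsto_sqrt_atTop.comp (Real.tendsto_sqrt_atTop.comp tendsto_natCast_atTop_atTop)
  have h3 : ∀ᶠ H : ℕ in atTop, 2 * (C + 1) / η ≤ Real.sqrt (Real.sqrt H) :=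
    h2.eventually_ge_atTop _
  filter_upwards [h1, h3] with H e1 e3
  refine (hC H e1).trans ?_
  have hs0 : 0 < Real.sqrt (Real.sqrt H) := lt_of_lt_of_le (by positivity) e3
  have h4 : C / Real.sqrt (Real.sqrt H) ≤ η / 2 := by
    rw [div_le_iff₀ hs0]
    rw [div_le_iff₀ hη] at e3
    nlinarith
  have h5 : 2 * θ + C / Real.sqrt (Real.sqrt H) ≤ η := by linarith
  gcongr

end Pool.Agent.N656.BD
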