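import Pool.Agent.N656.BD.One

/-!
# Polynomials in two variables with a large integer zero one of whose coordinates is not very large
-/

set_option autoImplicit false

open Finset

namespace Pool.Agent.N656.BD

open Pool.Agent.N656.PL

lemma ratio_mono {R s : ℝ} (hR : 1 ≤ R) (hs : 1 ≤ s) :
    (1 + Real.log (R * s)) / (R * s) ≤ (1 + Real.log R) / R := by
  have hR0 : 0 < R := by linarith
  have hs0 : 0 < s := by linarith
  have hL : 0 ≤ Real.log R := Real.log_nonneg hR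
  have h1 : Real.log s ≤ s - 1 := Real.log_le_sub_one_of_pos hs0
  rw [Real.log_mul hR0.ne' hs0.ne', div_le_div_iff₀ (by positivity) hR0]
  have h2 : 0 ≤ (s - 1) * Real.log R := by
    have : 0 ≤ s - 1 := by linarith
    positivity
  have h3 : 1 + (Real.log R + Real.log s) ≤ (1 + Real.log R) * s := by nlinarith
  nlinarith

lemma ratio_le_one {R : ℝ} (hR : 1 ≤ R) : (1 + Real.log R) / R ≤ 1 := by
  rw [div_le_one (by linarith)]
  have := Real.log_le_sub_one_of_pos (by linarith : 0 < R)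
  linarith

theorem reg1 (κ : ℝ) (hκ : 1 ≤ κ) (a b : ℕ) (lam : ℝ) (hl : 1 ≤ lam) : ∃ C : ℝ, 0 ≤ C ∧
    ∀ (Ω : Type) [Fintype Ω] [DecidableEq Ω] (g : Ω → ℤ) (R : ℝ), 1 ≤ R → Spread g κ R → ∀ T : ℕ,
      (Set.ncard {u : Fin (b + 3) → Fin (a + 3) → Ω | ∃ x y : ℤ, |(x : ℝ)| ≤ lam * R ∧
        ((T : ℤ) ≤ |x| ∨ (T : ℤ) ≤ |y|) ∧ sl (b + 2) y (sl (a + 2) x g) u = 0} : ℝ) * R ≤
        C * ((Fintype.card Ω : ℝ) ^ (a + 3)) ^ (b + 3) * (1 / ((T : ℝ) + 1) ^ (a + 1) +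
          1 / ((T : ℝ) + 1) ^ (b + 1) + (1 + Real.log R) / R) := by
  classical
  have hKg := Kap_ge hκ hl (a + 2)
  have hK1 : 1 ≤ Kap κ lam (a + 2) := by
    refine le_trans ?_ hKg
    have : (0 : ℝ) ≤ ((a + 2 : ℕ) : ℝ) := by positivity
    nlinarith
  obtain ⟨C, hC0, hC⟩ := S1 (Kap κ lam (a + 2)) hK1 b
  refine ⟨2 ^ (a + 5) * C, by positivity, fun Ω _ _ g R hR h T => ?_⟩
  obtain ⟨Q, hQ⟩ : ∃ Q : ℝ, Q = ((Fintype.card Ω : ℝ) ^ (a + 3)) ^ (b + 3) := ⟨_, rfl⟩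
  have hQ0 : 0 ≤ Q := by rw [hQ]; positivity
  rw [← hQ]
  have hR0 : 0 < R := by linarith
  obtain ⟨N, hN⟩ : ∃ N : ℕ, N = ⌊lam * R⌋₊ := ⟨_, rfl⟩
  have hNle : (N : ℝ) ≤ lam * R := by rw [hN]; exact Nat.floor_le (by positivity)
  obtain ⟨Z, hZ⟩ : ∃ Z : ℕ → ℤ → Finset (Fin (b + 3) → Fin (a + 3) → Ω), ∀ S t, Z S t =
      univ.filter fun u => ∃ y : ℤ, (S : ℤ) ≤ |y| ∧ sl (b + 2) y (sl (a + 2) t g) u = 0 :=
    ⟨_, fun _ _ => rfl⟩
  have h1 : {u : Fin (b + 3) → Fin (a + 3) → Ω | ∃ x y : ℤ, |(x : ℝ)| ≤ lam * R ∧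
        ((T : ℤ) ≤ |x| ∨ (T : ℤ) ≤ |y|) ∧ sl (b + 2) y (sl (a + 2) x g) u = 0} ⊆
      ((((Icc (-(N : ℤ)) N).filter fun t => (T : ℤ) ≤ |t|).biUnion fun t => Z 0 t) ∪
        ((Icc (-(N : ℤ)) N).filter fun t => ((0 : ℕ) : ℤ) ≤ |t|).biUnion fun t => Z T t :
        Finset (Fin (b + 3) → Fin (a + 3) → Ω)) := by
    rintro u ⟨x, y, hx, hxy, hz⟩
    have h3 : (x.natAbs : ℝ) ≤ lam * R := by
      rw [Nat.cast_natAbs]
      push_cast
      exact hx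
    have h4 : x.natAbs ≤ N := by rw [hN]; exact Nat.le_floor h3
    have h5 : x ∈ Icc (-(N : ℤ)) N := mem_Icc.2 ⟨by omega, by omega⟩
    rw [mem_coe, mem_union]
    rcases hxy with hT | hT
    · left
      rw [mem_biUnion]
      refine ⟨x, mem_filter.2 ⟨h5, hT⟩, ?_⟩
      rw [hZ, mem_filter]
      exact ⟨mem_univ _, y, by simp, hz⟩
    · right
      rw [mem_biUnion]
      refine ⟨x, mem_filter.2 ⟨h5, by simp⟩, ?_⟩
      rw [hZ, mem_filter]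
      exact ⟨mem_univ _, y, hT, hz⟩
  have h2 := Set.ncard_le_ncard h1 (Finset.finite_toSet _)
  rw [Set.ncard_coe_finset] at h2
  have h3 := h2.trans ((card_union_le _ _).trans (add_le_add card_biUnion_le card_biUnion_le))
  have h4 : (Set.ncard {u : Fin (b + 3) → Fin (a + 3) → Ω | ∃ x y : ℤ, |(x : ℝ)| ≤ lam * R ∧
        ((T : ℤ) ≤ |x| ∨ (T : ℤ) ≤ |y|) ∧ sl (b + 2) y (sl (a + 2) x g) u = 0} : ℝ) ≤
      ∑ t ∈ (Icc (-(N : ℤ)) N).filter (fun t => (T : ℤ) ≤ |t|), ((Z 0 t).card : ℝ) +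
      ∑ t ∈ (Icc (-(N : ℤ)) N).filter (fun t => ((0 : ℕ) : ℤ) ≤ |t|), ((Z T t).card : ℝ) := by
    exact_mod_cast h3
  -- one slice
  have h5 : ∀ S : ℕ, ∀ t ∈ Icc (-(N : ℤ)) N, ((Z S t).card : ℝ) * R ≤
      C * Q * (1 / ((S : ℝ) + 1) ^ (b + 1) + (1 + Real.log R) / R) *
        (1 / (max 1 |(t : ℝ)|) ^ (a + 2)) := by
    intro S t ht
    rw [mem_Icc] at ht
    have htR : |(t : ℝ)| ≤ lam * R := by
      refine le_trans ?_ hNle
      rw [abs_le]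
      constructor
      · exact_mod_cast ht.1
      · exact_mod_cast ht.2
    have hm : (1 : ℝ) ≤ max 1 |(t : ℝ)| := le_max_left _ _
    have hmp : (1 : ℝ) ≤ (max 1 |(t : ℝ)|) ^ (a + 2) := one_le_pow₀ hm
    have h6 := spread_sl hR hκ hl h t htR (a + 2)
    have hR' : 1 ≤ R * (max 1 |(t : ℝ)|) ^ (a + 2) := by nlinarith
    have h7 := hC (Fin (a + 3) → Ω) (sl (a + 2) t g) _ hR' h6 S
    have h8 : (Set.ncard {ω : Fin (b + 3) → Fin (a + 3) → Ω |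
        ∃ y : ℤ, (S : ℤ) ≤ |y| ∧ sl (b + 2) y (sl (a + 2) t g) ω = 0} : ℝ) = ((Z S t).card : ℝ) := by
      rw [← Set.ncard_coe_finset]
      congr 2
      ext u
      rw [hZ, coe_filter]
      simp
    rw [h8, Fintype.card_fun, Fintype.card_fin] at h7
    push_cast at h7
    rw [← hQ] at h7
    have h9 := ratio_mono hR hmp
    rw [mul_one_div, le_div_iff₀ (by positivity)]
    calc ((Z S t).card : ℝ) * R * (max 1 |(t : ℝ)|) ^ (a + 2)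
        = ((Z S t).card : ℝ) * (R * (max 1 |(t : ℝ)|) ^ (a + 2)) := by ring
      _ ≤ _ := h7
      _ ≤ _ := by gcongr
  have hr0 : 0 ≤ (1 + Real.log R) / R := by
    have := Real.log_nonneg hR
    positivity
  have hr1 := ratio_le_one hR
  have h6 : ∀ S S' : ℕ, (∑ t ∈ (Icc (-(N : ℤ)) N).filter (fun t => (S' : ℤ) ≤ |t|),
      ((Z S t).card : ℝ)) * R ≤ C * Q * (1 / ((S : ℝ) + 1) ^ (b + 1) + (1 + Real.log R) / R) *
        (2 ^ (a + 4) / ((S' : ℝ) + 1) ^ (a + 1)) := by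
    intro S S'
    have h7 := sum_tail (a + 2) (by omega) S' N
    rw [show a + 2 - 1 = a + 1 by omega, show a + 2 + 2 = a + 4 by omega] at h7
    rw [Finset.sum_mul]
    calc _ ≤ ∑ t ∈ (Icc (-(N : ℤ)) N).filter (fun t => (S' : ℤ) ≤ |t|),
          C * Q * (1 / ((S : ℝ) + 1) ^ (b + 1) + (1 + Real.log R) / R) *
            (1 / (max 1 |(t : ℝ)|) ^ (a + 2)) :=
          Finset.sum_le_sum fun t ht => h5 S t (mem_filter.1 ht).1
      _ = C * Q * (1 / ((S : ℝ) + 1) ^ (b + 1) + (1 + Real.log R) / R) *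
          ∑ t ∈ (Icc (-(N : ℤ)) N).filter (fun t => (S' : ℤ) ≤ |t|),
            (1 / (max 1 |(t : ℝ)|) ^ (a + 2)) := by rw [Finset.mul_sum]
      _ ≤ _ := by gcongr
  have h7 := h6 0 T
  have h8 := h6 T 0
  simp only [Nat.cast_zero, zero_add, one_pow, div_one] at h7 h8
  obtain ⟨p, hp⟩ : ∃ p : ℝ, p = 1 / ((T : ℝ) + 1) ^ (a + 1) := ⟨_, rfl⟩
  obtain ⟨q, hq⟩ : ∃ q : ℝ, q = 1 / ((T : ℝ) + 1) ^ (b + 1) := ⟨_, rfl⟩
  have hp0 : 0 ≤ p := by rw [hp]; positivity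
  have hq0 : 0 ≤ q := by rw [hq]; positivity
  have hCQ : 0 ≤ C * Q := by positivity
  calc _ ≤ (∑ t ∈ (Icc (-(N : ℤ)) N).filter (fun t => (T : ℤ) ≤ |t|), ((Z 0 t).card : ℝ) +
      ∑ t ∈ (Icc (-(N : ℤ)) N).filter (fun t => ((0 : ℕ) : ℤ) ≤ |t|),
        ((Z T t).card : ℝ)) * R := by gcongr
    _ = (∑ t ∈ (Icc (-(N : ℤ)) N).filter (fun t => (T : ℤ) ≤ |t|), ((Z 0 t).card : ℝ)) * R +
      (∑ t ∈ (Icc (-(N : ℤ)) N).filter (fun t => ((0 : ℕ) : ℤ) ≤ |t|),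
        ((Z T t).card : ℝ)) * R := by ring
    _ ≤ C * Q * (1 + (1 + Real.log R) / R) * (2 ^ (a + 4) / ((T : ℝ) + 1) ^ (a + 1)) +
        C * Q * (1 / ((T : ℝ) + 1) ^ (b + 1) + (1 + Real.log R) / R) * 2 ^ (a + 4) :=
        add_le_add h7 h8
    _ = 2 ^ (a + 4) * (C * Q) * ((1 + (1 + Real.log R) / R) * p +
        (q + (1 + Real.log R) / R)) := by
        rw [hp, hq]
        ring
    _ ≤ 2 ^ (a + 4) * (C * Q) * (2 * (p + q + (1 + Real.log R) / R)) := by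
        have : (1 + (1 + Real.log R) / R) * p + (q + (1 + Real.log R) / R) ≤
            2 * (p + q + (1 + Real.log R) / R) := by nlinarith
        gcongr
    _ = _ := by
        rw [hp, hq]
        ring

end Pool.Agent.N656.BD
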