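import Pool.Agent.N656.BD.Cor3
import Pool.Agent.N656.BD.Reg
import Pool.Agent.N656.LL.Fin
import Pool.Agent.N656.PL.Lower

/-!
# The data of the limit law for polynomials of bounded bidegree
-/

set_option autoImplicit false
set_option linter.unusedSectionVars false

open Filter Topology Finset

namespace Pool.Agent.N656.BD

open Pool.Agent.N656.PL Pool.Agent.N656.LL

variable {a b : ℕ}

lemma sl_sl {Ω : Type} (g : Ω → ℤ) (u : Fin (b + 3) → Fin (a + 3) → Ω) (x y : ℤ) :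
    sl (b + 2) y (sl (a + 2) x g) u = G (fun p : Ix a b => g (u p.1 p.2)) x y := by
  unfold sl G
  rw [Fintype.sum_prod_type]
  refine Finset.sum_congr rfl fun j _ => ?_
  rw [Finset.sum_mul]

lemma sl_sl' {Ω : Type} (g : Ω → ℤ) (u : Fin (a + 3) → Fin (b + 3) → Ω) (x y : ℤ) :
    sl (a + 2) x (sl (b + 2) y g) u = G (fun p : Ix a b => g (u p.2 p.1)) x y := by
  unfold sl G
  rw [Fintype.sum_prod_type, Finset.sum_comm]
  refine Finset.sum_congr rfl fun j _ => ?_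
  rw [Finset.sum_mul]
  exact Finset.sum_congr rfl fun i _ => by ring

/-- the polynomials with a large zero, one given coordinate of which is not very large -/
def R1 (a b : ℕ) (lam : ℝ) (H T : ℕ) : Set (Ix a b → ℤ) :=
  {w | (∀ p, |w p| ≤ H) ∧ ∃ x y : ℤ, |(x : ℝ)| ≤ lam * H ∧
        ((T : ℤ) ≤ |x| ∨ (T : ℤ) ≤ |y|) ∧ G w x y = 0}

def R2 (a b : ℕ) (lam : ℝ) (H T : ℕ) : Set (Ix a b → ℤ) :=
  {w | (∀ p, |w p| ≤ H) ∧ ∃ x y : ℤ, |(y : ℝ)| ≤ lam * H ∧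
        ((T : ℤ) ≤ |x| ∨ (T : ℤ) ≤ |y|) ∧ G w x y = 0}

lemma R1_le (a b : ℕ) (lam : ℝ) (H T : ℕ) : (R1 a b lam H T).ncard ≤
    Set.ncard {u : Fin (b + 3) → Fin (a + 3) → Bx H | ∃ x y : ℤ, |(x : ℝ)| ≤ lam * H ∧
        ((T : ℤ) ≤ |x| ∨ (T : ℤ) ≤ |y|) ∧ sl (b + 2) y (sl (a + 2) x (gv H)) u = 0} := by
  classical
  have h1 : R1 a b lam H T ⊆ (fun (u : Fin (b + 3) → Fin (a + 3) → Bx H) (p : Ix a b) =>
      gv H (u p.1 p.2)) '' {u : Fin (b + 3) → Fin (a + 3) → Bx H |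
        ∃ x y : ℤ, |(x : ℝ)| ≤ lam * H ∧
        ((T : ℤ) ≤ |x| ∨ (T : ℤ) ≤ |y|) ∧ sl (b + 2) y (sl (a + 2) x (gv H)) u = 0} := by
    rintro w ⟨hw, x, y, h1, h2, h3⟩
    refine ⟨fun j i => ⟨w (j, i), mem_Icc.2 (abs_le.1 (hw (j, i)))⟩, ⟨x, y, h1, h2, ?_⟩, rfl⟩
    rw [sl_sl]
    exact h3
  exact (Set.ncard_le_ncard h1 ((Set.toFinite _).image _)).trans (Set.ncard_image_le (Set.toFinite _))

lemma R2_le (a b : ℕ) (lam : ℝ) (H T : ℕ) : (R2 a b lam H T).ncard ≤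
    Set.ncard {u : Fin (a + 3) → Fin (b + 3) → Bx H | ∃ x y : ℤ, |(x : ℝ)| ≤ lam * H ∧
        ((T : ℤ) ≤ |x| ∨ (T : ℤ) ≤ |y|) ∧ sl (a + 2) y (sl (b + 2) x (gv H)) u = 0} := by
  classical
  have h1 : R2 a b lam H T ⊆ (fun (u : Fin (a + 3) → Fin (b + 3) → Bx H) (p : Ix a b) =>
      gv H (u p.2 p.1)) '' {u : Fin (a + 3) → Fin (b + 3) → Bx H |
        ∃ x y : ℤ, |(x : ℝ)| ≤ lam * H ∧
        ((T : ℤ) ≤ |x| ∨ (T : ℤ) ≤ |y|) ∧ sl (a + 2) y (sl (b + 2) x (gv H)) u = 0} := by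
    rintro w ⟨hw, x, y, h1, h2, h3⟩
    refine ⟨fun i j => ⟨w (j, i), mem_Icc.2 (abs_le.1 (hw (j, i)))⟩, ⟨y, x, h1, h2.symm, ?_⟩, rfl⟩
    rw [sl_sl']
    exact h3
  exact (Set.ncard_le_ncard h1 ((Set.toFinite _).image _)).trans (Set.ncard_image_le (Set.toFinite _))

lemma card_Ix (a b : ℕ) : Fintype.card (Ix a b) = (b + 3) * (a + 3) := by
  rw [Fintype.card_prod, Fintype.card_fin, Fintype.card_fin]

lemma card_Ix_ge (a b : ℕ) : 9 ≤ Fintype.card (Ix a b) := by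
  rw [card_Ix]
  nlinarith [Nat.zero_le a, Nat.zero_le b]

lemma ratio_tendsto : Tendsto (fun H : ℕ => (1 + Real.log H) / (H : ℝ)) atTop (𝓝 0) := by
  have h1 : Tendsto (fun x : ℝ => Real.log x / x) atTop (𝓝 0) := by
    have := Real.isLittleO_log_id_atTop
    exact this.tendsto_div_nhds_zero
  have h2 : Tendsto (fun x : ℝ => 1 / x) atTop (𝓝 0) := by
    simp only [one_div]
    exact tendsto_inv_atTop_zero
  have h3 := (h2.add h1).comp (tendsto_natCast_atTop_atTop (R := ℝ))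
  rw [add_zero] at h3
  refine h3.congr fun H => ?_
  simp only [Function.comp]
  ring

theorem tail (a b : ℕ) : ∃ K : ℝ, 0 ≤ K ∧ ∀ T : ℕ, ∀ᶠ H : ℕ in atTop,
    (Set.ncard {w : Ix a b → ℤ | w ∈ box (Ix a b) H ∧ ∃ P : ℤ × ℤ, T < sz P ∧ G w P.1 P.2 = 0} : ℝ) ≤
      K / ((T : ℝ) + 1) ^ (min a b + 1) * (2 * (H : ℝ) + 1) ^ (Fintype.card (Ix a b) - 1) := by
  classical
  obtain ⟨M, hM⟩ : ∃ M : ℝ, M = (Fintype.card (Ix a b) : ℝ) := ⟨_, rfl⟩
  have hM1 : 1 ≤ M := by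
    rw [hM]
    have := card_Ix_ge a b
    exact_mod_cast (by omega : 1 ≤ Fintype.card (Ix a b))
  obtain ⟨C1, hC10, hC1⟩ := reg1 3 (by norm_num) a b M hM1
  obtain ⟨C2, hC20, hC2⟩ := reg1 3 (by norm_num) b a M hM1
  refine ⟨9 * C1 + 9 * C2 + 1, by positivity, fun T => ?_⟩
  obtain ⟨k, hk⟩ : ∃ k, k = min a b + 1 := ⟨_, rfl⟩
  rw [← hk]
  obtain ⟨τ, hτ⟩ : ∃ τ : ℝ, τ = 1 / ((T : ℝ) + 1) ^ k := ⟨_, rfl⟩
  have hτ0 : 0 < τ := by rw [hτ]; positivity
  have hT1 : (1 : ℝ) ≤ (T : ℝ) + 1 := by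
    have : (0 : ℝ) ≤ T := by positivity
    linarith
  have ha : 1 / ((T : ℝ) + 1) ^ (a + 1) ≤ τ := by
    rw [hτ, hk]
    exact one_div_pow_le_one_div_pow_of_le hT1 (by omega)
  have hb : 1 / ((T : ℝ) + 1) ^ (b + 1) ≤ τ := by
    rw [hτ, hk]
    exact one_div_pow_le_one_div_pow_of_le hT1 (by omega)
  have e1 := crn_rare a b τ hτ0
  have e2 : ∀ᶠ H : ℕ in atTop, (1 + Real.log H) / (H : ℝ) ≤ τ :=
    ratio_tendsto.eventually (eventually_le_nhds hτ0)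
  filter_upwards [e1, e2, eventually_ge_atTop 1] with H h1 h2 hH
  have hHR : (1 : ℝ) ≤ H := by exact_mod_cast hH
  have hH0 : (0 : ℝ) < H := by linarith
  obtain ⟨L, hL⟩ : ∃ L : ℝ, L = 2 * (H : ℝ) + 1 := ⟨_, rfl⟩
  have hL3 : L ≤ 3 * H := by rw [hL]; linarith
  have hL0 : 0 < L := by rw [hL]; linarith
  obtain ⟨n, hn⟩ : ∃ n : ℕ, Fintype.card (Ix a b) = n + 1 :=
    ⟨Fintype.card (Ix a b) - 1, by have := card_Ix_ge a b; omega⟩
  have hsub : {w : Ix a b → ℤ | w ∈ box (Ix a b) H ∧ ∃ P : ℤ × ℤ, T < sz P ∧ G w P.1 P.2 = 0} ⊆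
      (R1 a b M H T ∪ R2 a b M H T) ∪ crn a b H := by
    rintro w ⟨hw, P, hP, hz⟩
    have hw' := mem_box.1 hw
    have hP' : (T : ℤ) ≤ |P.1| ∨ (T : ℤ) ≤ |P.2| := by
      unfold sz at hP
      rcases lt_max_iff.1 hP with h | h
      · left
        rw [Int.abs_eq_natAbs]
        omega
      · right
        rw [Int.abs_eq_natAbs]
        omega
    rcases le_or_gt |(P.1 : ℝ)| (M * H) with h3 | h3
    · exact Or.inl (Or.inl ⟨hw', P.1, P.2, h3, hP', hz⟩)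
    rcases le_or_gt |(P.2 : ℝ)| (M * H) with h4 | h4
    · exact Or.inl (Or.inr ⟨hw', P.1, P.2, h4, hP', hz⟩)
    rw [hM] at h3 h4
    exact Or.inr ⟨hw', P.1, P.2, h3, h4, hz⟩
  have hfin : ((R1 a b M H T ∪ R2 a b M H T) ∪ crn a b H).Finite := by
    refine (box (Ix a b) H).finite_toSet.subset ?_
    rintro w ((h | h) | h) <;> exact mem_box.2 h.1
  have h3 := (Set.ncard_le_ncard hsub hfin).trans ((Set.ncard_union_le _ _).trans
    (add_le_add (Set.ncard_union_le _ _) le_rfl))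
  have h4 : (Set.ncard {w : Ix a b → ℤ | w ∈ box (Ix a b) H ∧
      ∃ P : ℤ × ℤ, T < sz P ∧ G w P.1 P.2 = 0} : ℝ) ≤
      ((R1 a b M H T).ncard : ℝ) + (R2 a b M H T).ncard + (crn a b H).ncard := by
    exact_mod_cast h3
  have r1 : ((R1 a b M H T).ncard : ℝ) ≤ 9 * C1 * τ * L ^ n := by
    have h5 := hC1 (Bx H) (gv H) H hHR (spread_gv H hH) T
    have h6 : ((R1 a b M H T).ncard : ℝ) ≤ (Set.ncard {u : Fin (b + 3) → Fin (a + 3) → Bx H |
        ∃ x y : ℤ, |(x : ℝ)| ≤ M * H ∧ ((T : ℤ) ≤ |x| ∨ (T : ℤ) ≤ |y|) ∧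
          sl (b + 2) y (sl (a + 2) x (gv H)) u = 0} : ℝ) := by
      exact_mod_cast R1_le a b M H T
    rw [card_Bx, ← pow_mul, mul_comm (a + 3), ← card_Ix, hn] at h5
    push_cast at h5
    rw [← hL] at h5
    have h7 : ((R1 a b M H T).ncard : ℝ) * H ≤ (9 * C1 * τ * L ^ n) * H := by
      calc _ ≤ _ := by gcongr
        _ ≤ _ := h5
        _ ≤ C1 * L ^ (n + 1) * (τ + τ + τ) := by gcongr
        _ = (3 * C1 * τ * L ^ n) * L := by ring
        _ ≤ (3 * C1 * τ * L ^ n) * (3 * H) := by gcongr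
        _ = _ := by ring
    exact le_of_mul_le_mul_right h7 hH0
  have r2 : ((R2 a b M H T).ncard : ℝ) ≤ 9 * C2 * τ * L ^ n := by
    have h5 := hC2 (Bx H) (gv H) H hHR (spread_gv H hH) T
    have h6 : ((R2 a b M H T).ncard : ℝ) ≤ (Set.ncard {u : Fin (a + 3) → Fin (b + 3) → Bx H |
        ∃ x y : ℤ, |(x : ℝ)| ≤ M * H ∧ ((T : ℤ) ≤ |x| ∨ (T : ℤ) ≤ |y|) ∧
          sl (a + 2) y (sl (b + 2) x (gv H)) u = 0} : ℝ) := by
      exact_mod_cast R2_le a b M H T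
    rw [card_Bx, ← pow_mul, ← card_Ix, hn] at h5
    push_cast at h5
    rw [← hL] at h5
    have h7 : ((R2 a b M H T).ncard : ℝ) * H ≤ (9 * C2 * τ * L ^ n) * H := by
      calc _ ≤ _ := by gcongr
        _ ≤ _ := h5
        _ ≤ C2 * L ^ (n + 1) * (τ + τ + τ) := by gcongr
        _ = (3 * C2 * τ * L ^ n) * L := by ring
        _ ≤ (3 * C2 * τ * L ^ n) * (3 * H) := by gcongr
        _ = _ := by ring
    exact le_of_mul_le_mul_right h7 hH0
  have r3 : ((crn a b H).ncard : ℝ) ≤ τ * L ^ n := by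
    rw [hn, Nat.add_sub_cancel, ← hL] at h1
    exact h1
  rw [hn, Nat.add_sub_cancel, ← hL]
  refine h4.trans ?_
  have h5 : (9 * C1 + 9 * C2 + 1) / ((T : ℝ) + 1) ^ k = (9 * C1 + 9 * C2 + 1) * τ := by
    rw [hτ]
    ring
  rw [h5]
  linarith

/-- the exponents of the nonconstant monomials -/
abbrev JJ (a b : ℕ) : Type := {m : Fin (b + 3) × Fin (a + 3) // (m.1 : ℕ) + m.2 ≠ 0}

/-- the monomials -/
def mn (a b : ℕ) (P : ℤ × ℤ) (m : JJ a b) : ℤ := P.1 ^ (m.1.2 : ℕ) * P.2 ^ (m.1.1 : ℕ)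

/-- the index of the constant coefficient -/
abbrev z0 (a b : ℕ) : Ix a b := ix a b 0 0 (by omega) (by omega)

lemma ne_z0 {p : Ix a b} : p ≠ z0 a b ↔ (p.1 : ℕ) + p.2 ≠ 0 := by
  rw [not_iff_not]
  unfold z0 ix
  rw [Prod.ext_iff, Fin.ext_iff, Fin.ext_iff]
  simp only
  omega

lemma card_JJ (a b : ℕ) : Fintype.card (JJ a b) + 1 = Fintype.card (Ix a b) := by
  classical
  rw [Fintype.card_subtype]
  have h1 : (univ.filter fun m : Ix a b => (m.1 : ℕ) + m.2 ≠ 0) = univ.erase (z0 a b) := by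
    ext p
    rw [mem_filter, mem_erase, ne_z0]
    tauto
  rw [h1, card_erase_of_mem (mem_univ _), card_univ]
  have := card_Ix_ge a b
  exact Nat.sub_add_cancel (le_trans (by norm_num) this)

lemma G_split (w : Ix a b → ℤ) (P : ℤ × ℤ) :
    G w P.1 P.2 = w (z0 a b) + ∑ m : JJ a b, w m.1 * mn a b P m := by
  classical
  unfold G
  rw [← Finset.add_sum_erase _ _ (mem_univ (z0 a b)),
    Finset.sum_subtype (univ.erase (z0 a b)) (p := fun m : Ix a b => (m.1 : ℕ) + m.2 ≠ 0)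
      (fun p => by rw [mem_erase, ne_z0]; exact and_iff_left (mem_univ _))]
  congr 1
  · unfold z0 ix
    simp
  · refine Finset.sum_congr rfl fun m _ => ?_
    unfold mn
    ring

lemma ncard_val (P : ℤ × ℤ) (H : ℕ) :
    Set.ncard {w : Ix a b → ℤ | w ∈ box (Ix a b) H ∧ G w P.1 P.2 = 0} =
      (cnt (mn a b P) 0 H).ncard := by
  classical
  refine Set.ncard_congr (fun w _ => fun m => w m.1) ?_ ?_ ?_
  · rintro w ⟨hw, hs⟩
    rw [mem_box] at hw
    refine ⟨fun m => hw _, ?_⟩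
    rw [G_split] at hs
    rw [show (0 : ℤ) - ∑ m : JJ a b, w m.1 * mn a b P m = w (z0 a b) by linarith]
    exact hw _
  · rintro w w' ⟨_, hs⟩ ⟨_, hs'⟩ hww
    rw [G_split] at hs hs'
    have h1 : ∀ m : JJ a b, w m.1 = w' m.1 := fun m => congrFun hww m
    funext p
    by_cases hp : p = z0 a b
    · simp only [h1] at hs
      rw [hp]
      linarith
    · exact h1 ⟨p, ne_z0.1 hp⟩
  · rintro v ⟨hv1, hv2⟩
    refine ⟨fun p => if h : (p.1 : ℕ) + p.2 ≠ 0 then v ⟨p, h⟩ else 0 - ∑ m, v m * mn a b P m,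
      ⟨?_, ?_⟩, ?_⟩
    · rw [mem_box]
      intro p
      split_ifs with h
      · exact hv1 _
      · exact hv2
    · rw [G_split]
      have h1 : ¬ (((z0 a b).1 : ℕ) + (z0 a b).2 ≠ 0) := by simp [z0, ix]
      rw [dif_neg h1]
      have h2 : ∀ m : JJ a b, (if h : (m.1.1 : ℕ) + m.1.2 ≠ 0 then v ⟨m.1, h⟩ else
          0 - ∑ m, v m * mn a b P m) = v m := fun m => by rw [dif_pos m.2]
      simp only [h2]
      ring
    · funext m
      simp only
      rw [dif_pos m.2]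

lemma two_pts {P Q : ℤ × ℤ} (hPQ : P ≠ Q) (H : ℕ) :
    (Set.ncard {w : Ix a b → ℤ | w ∈ box (Ix a b) H ∧ G w P.1 P.2 = 0 ∧ G w Q.1 Q.2 = 0} : ℝ) ≤
      (2 * (H : ℝ) + 1) ^ (Fintype.card (JJ a b) - 1) := by
  classical
  obtain ⟨q, hq0, hq⟩ : ∃ q : Ix a b, q ≠ z0 a b ∧
      P.1 ^ (q.2 : ℕ) * P.2 ^ (q.1 : ℕ) ≠ Q.1 ^ (q.2 : ℕ) * Q.2 ^ (q.1 : ℕ) := by
    by_cases h : P.1 = Q.1
    · refine ⟨ix a b 0 1 (by omega) (by omega), ix_ne (by omega), ?_⟩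
      unfold ix
      simp only [pow_zero, one_mul, pow_one]
      intro h2
      exact hPQ (Prod.ext h h2)
    · refine ⟨ix a b 1 0 (by omega) (by omega), ix_ne (by omega), ?_⟩
      unfold ix
      simp only [pow_zero, mul_one, pow_one]
      exact h
  obtain ⟨U, hU⟩ : ∃ U, U = (box (Ix a b) H).filter fun w => G w P.1 P.2 = 0 ∧ G w Q.1 Q.2 = 0 :=
    ⟨_, rfl⟩
  have h1 : Set.ncard {w : Ix a b → ℤ | w ∈ box (Ix a b) H ∧ G w P.1 P.2 = 0 ∧
      G w Q.1 Q.2 = 0} = U.card := by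
    rw [← Set.ncard_coe_finset, hU]
    congr 1
    ext w
    simp
  rw [h1]
  have h2 := fibre H {z0 a b, q} U (by rw [hU]; exact filter_subset _ _) (fun _ => 1)
    (fun w _ => by
      have h3 : (U.filter fun u => ∀ p, p ∉ ({z0 a b, q} : Finset (Ix a b)) → u p = w p).card ≤ 1 := by
        rw [card_le_one]
        intro u hu v hv
        rw [hU, mem_filter, mem_filter] at hu hv
        have huv : ∀ p, p ∉ ({z0 a b, q} : Finset (Ix a b)) → u p = v p := fun p hp => by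
          rw [hu.2 p hp, hv.2 p hp]
        have e1 := G_sub u v _ huv P.1 P.2
        have e2 := G_sub u v _ huv Q.1 Q.2
        rw [hu.1.2.1, hv.1.2.1, Finset.sum_pair hq0.symm] at e1
        rw [hu.1.2.2, hv.1.2.2, Finset.sum_pair hq0.symm] at e2
        have z1 : ∀ R : ℤ × ℤ, R.1 ^ ((z0 a b).2 : ℕ) = 1 ∧ R.2 ^ ((z0 a b).1 : ℕ) = 1 := by
          intro R
          simp [z0, ix]
        rw [(z1 P).1, (z1 P).2] at e1
        rw [(z1 Q).1, (z1 Q).2] at e2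
        have e3 : (u q - v q) * (P.1 ^ (q.2 : ℕ) * P.2 ^ (q.1 : ℕ) -
            Q.1 ^ (q.2 : ℕ) * Q.2 ^ (q.1 : ℕ)) = 0 := by
          linear_combination e2 - e1
        have e4 : u q = v q := by
          rcases mul_eq_zero.1 e3 with h4 | h4
          · linarith
          · exact absurd (by linarith) hq
        have e5 : u (z0 a b) = v (z0 a b) := by
          rw [e4] at e1
          linarith
        funext p
        by_cases hp : p ∈ ({z0 a b, q} : Finset (Ix a b))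
        · rw [mem_insert, mem_singleton] at hp
          rcases hp with rfl | rfl
          · exact e5
          · exact e4
        · exact huv p hp
      exact_mod_cast h3)
  rw [card_pair hq0.symm, Finset.sum_const, nsmul_eq_mul, mul_one, card_box] at h2
  have hc := card_JJ a b
  have hc9 := card_Ix_ge a b
  have h3 : Fintype.card (Ix a b) = (Fintype.card (JJ a b) - 1) + 2 := by omega
  rw [h3, pow_add] at h2
  push_cast at h2
  exact le_of_mul_le_mul_right h2 (by positivity)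

lemma tail' (a b : ℕ) : ∃ K : ℝ, 0 ≤ K ∧ ∀ T : ℕ, ∀ᶠ H : ℕ in atTop,
    (Set.ncard {w : Ix a b → ℤ | w ∈ box (Ix a b) H ∧ ∃ P : ℤ × ℤ, T < sz P ∧ G w P.1 P.2 = 0} : ℝ) ≤
      K / ((T : ℝ) + 1) ^ (min a b + 1) * (2 * (H : ℝ) + 1) ^ Fintype.card (JJ a b) := by
  have h1 := tail a b
  have h2 : Fintype.card (Ix a b) - 1 = Fintype.card (JJ a b) := by
    have := card_JJ a b
    omega
  rw [h2] at h1
  exact h1

/-- the data of the limit law -/
noncomputable def datb (a b : ℕ) : Data where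
  α := Ix a b → ℤ
  dec := inferInstance
  S H := box (Ix a b) H
  Z w P := G w P.1 P.2 = 0
  v P := vol fun m => (mn a b P m : ℝ)
  n := Fintype.card (JJ a b)
  k := min a b + 1
  K := (tail' a b).choose
  hn := by
    have := card_JJ a b
    have := card_Ix_ge a b
    omega
  hk := by omega
  hK := (tail' a b).choose_spec.1
  hv P := vol_pos _
  lim P := by
    simp only [ncard_val]
    exact tendsto_cnt _ _
  two P Q hPQ H := two_pts hPQ H
  tail T := (tail' a b).choose_spec.2 T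

end Pool.Agent.N656.BD
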