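import Pool.Agent.N656.BD.Pol

/-!
# Irreducibility, singular points and the lower bound for the tail
-/

set_option autoImplicit false
set_option linter.unusedSectionVars false

open Filter Topology Finset

namespace Pool.Agent.N656.BD

open Pool.Agent.N656.LL

variable {a b : ℕ}

/-! ### singular points -/

/-- the value of the derivative -/
def Gx (w : Ix a b → ℤ) (x y : ℤ) : ℤ :=
  ∑ p : Ix a b, w p * ((p.2 : ℕ) * x ^ ((p.2 : ℕ) - 1) * y ^ (p.1 : ℕ))

lemma eval_pderiv (w : Ix a b → ℤ) (x y : ℤ) :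
    MvPolynomial.eval ![x, y] (MvPolynomial.pderiv 0 (pB (i := a + 2) (j := b + 2) w)) =
      Gx w x y := by
  unfold pB Gx
  rw [map_sum, map_sum]
  refine Finset.sum_congr rfl fun q _ => ?_
  rw [MvPolynomial.pderiv_monomial, MvPolynomial.eval_monomial,
    Finsupp.prod_fintype _ _ (fun i => pow_zero _), Fin.prod_univ_two, Finsupp.tsub_apply,
    Finsupp.tsub_apply, ex_zero, ex_one, Finsupp.single_eq_same,
    Finsupp.single_eq_of_ne (by decide : (1 : Fin 2) ≠ 0)]
  simp only [Matrix.cons_val_zero, Matrix.cons_val_one, Nat.sub_zero]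
  ring

lemma Gx_sub (u v : Ix a b → ℤ) (S : Finset (Ix a b)) (h : ∀ p, p ∉ S → u p = v p) (x y : ℤ) :
    Gx u x y - Gx v x y =
      ∑ p ∈ S, (u p - v p) * ((p.2 : ℕ) * x ^ ((p.2 : ℕ) - 1) * y ^ (p.1 : ℕ)) := by
  have h1 : ∑ p ∈ S, (u p - v p) * ((p.2 : ℕ) * x ^ ((p.2 : ℕ) - 1) * y ^ (p.1 : ℕ) : ℤ) =
      ∑ p, (u p - v p) * ((p.2 : ℕ) * x ^ ((p.2 : ℕ) - 1) * y ^ (p.1 : ℕ) : ℤ) := by
    refine Finset.sum_subset (Finset.subset_univ S) fun p _ hp => ?_
    rw [h p hp]
    ring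
  rw [h1]
  unfold Gx
  rw [← Finset.sum_sub_distrib]
  exact Finset.sum_congr rfl fun p _ => by ring

/-- polynomials with a zero at a given point that is also a zero of the derivative -/
lemma card_singB (P : ℤ × ℤ) (H : ℕ) (U : Finset (Ix a b → ℤ)) (hUb : U ⊆ box (Ix a b) H)
    (hU : ∀ w ∈ U, G w P.1 P.2 = 0 ∧ Gx w P.1 P.2 = 0) :
    (U.card : ℝ) ≤ (2 * (H : ℝ) + 1) ^ (Fintype.card (Ix a b) - 2) := by
  classical
  obtain ⟨q, hq⟩ : ∃ q, q = ix a b 1 0 (by omega) (by omega) := ⟨_, rfl⟩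
  have hq0 : z0 a b ≠ q := by rw [hq]; exact ix_ne (by omega)
  have h2 := fibre H {z0 a b, q} U hUb (fun _ => 1)
    (fun w _ => by
      have h3 : (U.filter fun u => ∀ p, p ∉ ({z0 a b, q} : Finset (Ix a b)) → u p = w p).card ≤ 1 := by
        rw [card_le_one]
        intro u hu v hv
        rw [mem_filter] at hu hv
        have huv : ∀ p, p ∉ ({z0 a b, q} : Finset (Ix a b)) → u p = v p := fun p hp => by
          rw [hu.2 p hp, hv.2 p hp]
        have e1 := G_sub u v _ huv P.1 P.2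
        have e2 := Gx_sub u v _ huv P.1 P.2
        rw [(hU u hu.1).1, (hU v hv.1).1, Finset.sum_pair hq0] at e1
        rw [(hU u hu.1).2, (hU v hv.1).2, Finset.sum_pair hq0] at e2
        have e3 : u q = v q := by
          have h4 : 0 - 0 = (u q - v q) * (((1 : ℕ) : ℤ) * P.1 ^ (1 - 1) * P.2 ^ 0) := by
            have h5 : ((q.2 : ℕ)) = 1 := by rw [hq]; rfl
            have h6 : ((q.1 : ℕ)) = 0 := by rw [hq]; rfl
            rw [h5, h6] at e2
            have h7 : (((z0 a b).2 : ℕ)) = 0 := rfl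
            rw [h7] at e2
            push_cast at e2 ⊢
            linarith
          simp at h4
          linarith
        have e5 : u (z0 a b) = v (z0 a b) := by
          have h7 : (((z0 a b).2 : ℕ)) = 0 := rfl
          have h8 : (((z0 a b).1 : ℕ)) = 0 := rfl
          rw [e3, h7, h8, pow_zero, pow_zero] at e1
          linarith
        funext p
        by_cases hp : p ∈ ({z0 a b, q} : Finset (Ix a b))
        · rw [mem_insert, mem_singleton] at hp
          rcases hp with rfl | rfl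
          · exact e5
          · exact e3
        · exact huv p hp
      exact_mod_cast h3)
  rw [card_pair hq0, Finset.sum_const, nsmul_eq_mul, mul_one, card_box] at h2
  have hc9 := card_Ix_ge a b
  obtain ⟨m, hm⟩ : ∃ m, Fintype.card (Ix a b) = m + 2 := ⟨Fintype.card (Ix a b) - 2, by omega⟩
  rw [hm, pow_add] at h2
  rw [hm, Nat.add_sub_cancel]
  push_cast at h2
  exact le_of_mul_le_mul_right h2 (by positivity)

/-! ### irreducibility -/

/-- the number of the polynomials with a zero that are not absolutely irreducible -/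
noncomputable def NRb (a b H : ℕ) : ℝ :=
  (Set.ncard {w : Ix a b → ℤ | w ∈ box (Ix a b) H ∧ (∃ P : ℤ × ℤ, G w P.1 P.2 = 0) ∧
    ¬ Irreducible (MvPolynomial.map (Int.castRingHom (AlgebraicClosure ℚ))
      (pB (i := a + 2) (j := b + 2) w))} : ℝ)

/-- **Almost all are absolutely irreducible.** -/
theorem irr_rareB (a b : ℕ) :
    Tendsto (fun H : ℕ => NRb a b H / (H : ℝ) ^ (datb a b).n) atTop (𝓝 0) := by
  classical
  obtain ⟨D, hD⟩ : ∃ D, D = datb a b := ⟨_, rfl⟩
  rw [← hD]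
  have hn : D.n = Fintype.card (Ix a b) - 1 := by
    have h4 : D.n = Fintype.card (JJ a b) := by rw [hD]; rfl
    have := card_JJ a b
    rw [h4]
    omega
  have hc9 := card_Ix_ge a b
  obtain ⟨m, hm⟩ : ∃ m, Fintype.card (Ix a b) = m + 2 := ⟨Fintype.card (Ix a b) - 2, by omega⟩
  have hn' : D.n = m + 1 := by rw [hn, hm]; rfl
  obtain ⟨CR, hCR0, hRed⟩ := red_few a b
  rw [hn']
  rw [Metric.tendsto_nhds]
  intro η hη
  obtain ⟨T, hT⟩ := D.exists_T (by positivity : 0 < η / 4)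
  have ht := D.tail_eventually T (by positivity : 0 < η / 4)
  have hp : ∀ᶠ H : ℕ in atTop, ((bx T).card + CR + 1) *
      ((2 * (H : ℝ) + 1) ^ m / (H : ℝ) ^ (m + 1)) ≤ η / 4 := by
    have h1 := (Data.pow_lim' (n := m + 1) (by omega)).const_mul ((bx T).card + CR + 1)
    rw [mul_zero, Nat.add_sub_cancel] at h1
    exact h1.eventually (eventually_le_nhds (by positivity))
  rw [hn'] at ht hT
  filter_upwards [ht, hp, eventually_ge_atTop 1] with H h1 h2 hH1
  have hH0 : (0 : ℝ) < H := by exact_mod_cast hH1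
  have hXp : (0 : ℝ) < (H : ℝ) ^ (m + 1) := by positivity
  have h3 : NRb a b H ≤ D.N (Data.big T) H + ((bx T).card + CR + 1) *
      (2 * (H : ℝ) + 1) ^ m := by
    obtain ⟨B, hB⟩ : ∃ B, B = (box (Ix a b) H).filter fun w =>
      ∃ P : ℤ × ℤ, T < sz P ∧ G w P.1 P.2 = 0 := ⟨_, rfl⟩
    obtain ⟨S1, hS1⟩ : ∃ S1, S1 = (box (Ix a b) H).filter fun w => w = 0 := ⟨_, rfl⟩
    obtain ⟨S2, hS2⟩ : ∃ S2, S2 = (box (Ix a b) H).filter fun w =>
      0 < (pB (i := a + 2) (j := b + 2) w).totalDegree ∧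
      ¬ Irreducible (MvPolynomial.map (Int.castRingHom ℚ) (pB (i := a + 2) (j := b + 2) w)) :=
      ⟨_, rfl⟩
    obtain ⟨S3, hS3⟩ : ∃ S3 : ℤ × ℤ → Finset (Ix a b → ℤ), S3 = fun P =>
      (box (Ix a b) H).filter fun w => G w P.1 P.2 = 0 ∧ Gx w P.1 P.2 = 0 := ⟨_, rfl⟩
    have hsub : {w : Ix a b → ℤ | w ∈ box (Ix a b) H ∧ (∃ P : ℤ × ℤ, G w P.1 P.2 = 0) ∧
        ¬ Irreducible (MvPolynomial.map (Int.castRingHom (AlgebraicClosure ℚ))
          (pB (i := a + 2) (j := b + 2) w))} ⊆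
        ((B ∪ (S1 ∪ (S2 ∪ (bx T).biUnion S3)) : Finset (Ix a b → ℤ)) : Set (Ix a b → ℤ)) := by
      rintro w ⟨hw, ⟨P, hP⟩, hirr⟩
      rw [mem_coe, hB, hS1, hS2, hS3]
      simp only [mem_union, mem_filter, mem_biUnion]
      by_cases c1 : T < sz P
      · exact Or.inl ⟨hw, P, c1, hP⟩
      by_cases c2 : w = 0
      · exact Or.inr (Or.inl ⟨hw, c2⟩)
      have c4 : 0 < (pB (i := a + 2) (j := b + 2) w).totalDegree := by
        by_contra hcon
        have h4 : (pB (i := a + 2) (j := b + 2) w).totalDegree = 0 := by omega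
        rw [MvPolynomial.totalDegree_eq_zero_iff_eq_C] at h4
        have h5 := eval_pB w P.1 P.2
        rw [hP, h4, MvPolynomial.eval_C] at h5
        rw [h5, MvPolynomial.C_0] at h4
        apply c2
        have h6 : pB (i := a + 2) (j := b + 2) w = pB (i := a + 2) (j := b + 2) (0 : Ix a b → ℤ) := by
          rw [h4]
          unfold pB
          simp
        exact pB_inj h6
      by_cases c3 : Irreducible (MvPolynomial.map (Int.castRingHom ℚ)
        (pB (i := a + 2) (j := b + 2) w))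
      swap
      · exact Or.inr (Or.inr (Or.inl ⟨hw, c4, c3⟩))
      right; right; right
      refine ⟨P, mem_bx.2 (not_lt.1 c1), hw, hP, ?_⟩
      by_contra c5
      apply hirr
      refine Pool.Agent.N656.PC.abs_irr_at c3 (P := ![P.1, P.2]) ?_ ?_
      · rw [eval_pB]
        exact hP
      · rw [eval_pderiv]
        exact c5
    have c0 := Set.ncard_le_ncard hsub (finite_toSet _)
    rw [Set.ncard_coe_finset] at c0
    have c1 := c0.trans ((card_union_le _ _).trans (add_le_add le_rfl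
      ((card_union_le _ _).trans (add_le_add le_rfl
      ((card_union_le _ _).trans (add_le_add le_rfl card_biUnion_le))))))
    have c1' : NRb a b H ≤ (B.card : ℝ) + ((S1.card : ℝ) + ((S2.card : ℝ) +
        ∑ P ∈ bx T, ((S3 P).card : ℝ))) := by
      unfold NRb
      exact_mod_cast c1
    have b0 : (B.card : ℝ) = D.N (Data.big T) H := by
      rw [hD]
      unfold Data.N
      rw [← Set.ncard_coe_finset, hB]
      congr 2
      ext w
      simp only [coe_filter, Set.mem_ofPred_eq]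
      rfl
    obtain ⟨Z, hZ⟩ : ∃ Z : ℝ, Z = (2 * (H : ℝ) + 1) ^ m := ⟨_, rfl⟩
    rw [← hZ]
    have hL1 : (1 : ℝ) ≤ 2 * (H : ℝ) + 1 := by linarith
    have b1 : (S1.card : ℝ) ≤ Z := by
      have h1 : S1.card ≤ 1 := by
        rw [card_le_one]
        intro u hu v hv
        rw [hS1, mem_filter] at hu hv
        rw [hu.2, hv.2]
      have h2 : (S1.card : ℝ) ≤ 1 := by exact_mod_cast h1
      refine h2.trans ?_
      rw [hZ]
      exact one_le_pow₀ hL1
    have b2 : (S2.card : ℝ) ≤ CR * Z := by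
      have h1 := hRed H hH1 S2 (by rw [hS2]; exact filter_subset _ _)
        (by intro w hw; rw [hS2] at hw; exact (mem_filter.1 hw).2)
      rw [hm, Nat.add_sub_cancel] at h1
      rw [hZ]
      exact h1
    have b3 : ∑ P ∈ bx T, ((S3 P).card : ℝ) ≤ (bx T).card * Z := by
      rw [← nsmul_eq_mul]
      apply sum_le_card_nsmul
      intro P _
      have h1 := card_singB P H (S3 P) (by rw [hS3]; exact filter_subset _ _)
        (by intro w hw; rw [hS3] at hw; exact (mem_filter.1 hw).2)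
      rw [hm, Nat.add_sub_cancel] at h1
      rw [hZ]
      exact h1
    rw [← b0]
    linarith
  have h4 : NRb a b H / (H : ℝ) ^ (m + 1) ≤ D.N (Data.big T) H / (H : ℝ) ^ (m + 1) +
      ((bx T).card + CR + 1) *
      ((2 * (H : ℝ) + 1) ^ m / (H : ℝ) ^ (m + 1)) := by
    rw [← mul_div_assoc, ← add_div]
    gcongr
  have h5 : 0 ≤ NRb a b H / (H : ℝ) ^ (m + 1) := by
    apply div_nonneg _ hXp.le
    unfold NRb
    positivity
  rw [Real.dist_eq, sub_zero, abs_of_nonneg h5]
  linarith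

/-! ### lower bound for the weights -/

/-- many polynomials vanish at a point -/
lemma many (P : ℤ × ℤ) (W : ℕ) (hW : 1 ≤ W)
    (hb : ∀ p : Ix a b, |P.1 ^ (p.2 : ℕ) * P.2 ^ (p.1 : ℕ)| ≤ (W : ℤ)) (H : ℕ) (hH : 1 ≤ H) :
    (H : ℝ) ^ (Fintype.card (Ix a b) - 1) / (3 * Fintype.card (Ix a b) * W) ≤
      (Set.ncard {w : Ix a b → ℤ | w ∈ box (Ix a b) H ∧ G w P.1 P.2 = 0} : ℝ) := by
  classical
  obtain ⟨M, hM⟩ : ∃ M : ℕ, M = Fintype.card (Ix a b) := ⟨_, rfl⟩
  have hM9 : 9 ≤ M := by rw [hM]; exact card_Ix_ge a b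
  rw [← hM]
  obtain ⟨S, hS⟩ : ∃ S : Finset (Ix a b → ℤ), S = Fintype.piFinset fun _ => Icc (0 : ℤ) H := ⟨_, rfl⟩
  have hSc : S.card = (H + 1) ^ M := by
    rw [hS, Fintype.card_piFinset, Finset.prod_const, Int.card_Icc, card_univ, hM]
    congr 1
  have hSb : ∀ w ∈ S, ∀ p, 0 ≤ w p ∧ w p ≤ H := by
    intro w hw p
    rw [hS, Fintype.mem_piFinset] at hw
    exact mem_Icc.1 (hw p)
  obtain ⟨B, hB⟩ : ∃ B : ℕ, B = M * H * W := ⟨_, rfl⟩
  have hval : ∀ w ∈ S, G w P.1 P.2 ∈ Icc (-(B : ℤ)) B := by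
    intro w hw
    rw [mem_Icc, ← abs_le]
    unfold G
    calc |∑ p : Ix a b, w p * P.1 ^ (p.2 : ℕ) * P.2 ^ (p.1 : ℕ)| ≤
        ∑ p : Ix a b, |w p * P.1 ^ (p.2 : ℕ) * P.2 ^ (p.1 : ℕ)| := Finset.abs_sum_le_sum_abs _ _
      _ ≤ ∑ _p : Ix a b, (H : ℤ) * W := by
          refine Finset.sum_le_sum fun p _ => ?_
          rw [mul_assoc, abs_mul, abs_of_nonneg (hSb w hw p).1]
          exact mul_le_mul (hSb w hw p).2 (hb p) (abs_nonneg _) (by positivity)
      _ = (B : ℤ) := by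
          rw [Finset.sum_const, nsmul_eq_mul, card_univ, ← hM, hB]
          push_cast
          ring
  -- the pigeonhole principle
  obtain ⟨n, hn⟩ : ∃ n : ℕ, n = (Set.ncard {w : Ix a b → ℤ | w ∈ box (Ix a b) H ∧
    G w P.1 P.2 = 0}) := ⟨_, rfl⟩
  have hfin : {w : Ix a b → ℤ | w ∈ box (Ix a b) H ∧ G w P.1 P.2 = 0}.Finite :=
    (box (Ix a b) H).finite_toSet.subset fun _ h => h.1
  have hfib : ∀ v ∈ Icc (-(B : ℤ)) B, (S.filter fun w => G w P.1 P.2 = v).card ≤ n := by
    intro v _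
    rcases (S.filter fun w => G w P.1 P.2 = v).eq_empty_or_nonempty with h | ⟨w0, hw0⟩
    · rw [h, card_empty]
      exact Nat.zero_le _
    · rw [mem_filter] at hw0
      rw [hn, ← Set.ncard_coe_finset]
      refine Set.ncard_le_ncard_of_injOn (fun w => w - w0) ?_ ?_ hfin
      · intro w hw
        rw [mem_coe, mem_filter] at hw
        refine ⟨mem_box.2 fun p => ?_, ?_⟩
        · have h1 := hSb w hw.1 p
          have h2 := hSb w0 hw0.1 p
          rw [Pi.sub_apply, abs_le]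
          constructor <;> linarith
        · have h1 : G (w - w0) P.1 P.2 = G w P.1 P.2 - G w0 P.1 P.2 := by
            unfold G
            rw [← Finset.sum_sub_distrib]
            refine Finset.sum_congr rfl fun p _ => ?_
            rw [Pi.sub_apply]
            ring
          rw [h1, hw.2, hw0.2, sub_self]
      · intro w _ w' _ h
        exact sub_left_injective h
  have h1 := card_le_mul_card_image_of_maps_to (s := S) (t := Icc (-(B : ℤ)) B)
    (f := fun w => G w P.1 P.2) hval n hfib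
  rw [hSc, card_I] at h1
  have h2 : ((H : ℝ) + 1) ^ M ≤ n * (2 * B + 1) := by exact_mod_cast h1
  have hHR : (1 : ℝ) ≤ H := by exact_mod_cast hH
  have hWR : (1 : ℝ) ≤ W := by exact_mod_cast hW
  have hMR : (9 : ℝ) ≤ M := by exact_mod_cast hM9
  have h3 : (2 * (B : ℝ) + 1) ≤ 3 * M * W * H := by
    rw [hB]
    push_cast
    have : 1 ≤ (M : ℝ) * H * W := by
      have h4 : 1 ≤ (M : ℝ) * H := by nlinarith
      nlinarith
    nlinarith
  rw [← hn, div_le_iff₀ (by positivity)]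
  obtain ⟨m, hm⟩ : ∃ m, M = m + 1 := ⟨M - 1, by omega⟩
  have h4 : (H : ℝ) ^ (M - 1) * H ≤ n * (3 * M * W) * H := by
    calc (H : ℝ) ^ (M - 1) * H = (H : ℝ) ^ M := by rw [hm, Nat.add_sub_cancel, pow_succ]
      _ ≤ ((H : ℝ) + 1) ^ M := by gcongr; linarith
      _ ≤ n * (2 * B + 1) := h2
      _ ≤ n * (3 * M * W * H) := by gcongr
      _ = _ := by ring
  exact le_of_mul_le_mul_right h4 (by linarith)

lemma v_lower (P : ℤ × ℤ) (W : ℕ) (hW : 1 ≤ W)
    (hb : ∀ p : Ix a b, |P.1 ^ (p.2 : ℕ) * P.2 ^ (p.1 : ℕ)| ≤ (W : ℤ)) :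
    1 / (3 * Fintype.card (Ix a b) * (W : ℝ)) ≤ (datb a b).v P := by
  have h1 := (datb a b).lim P
  refine ge_of_tendsto h1 ?_
  filter_upwards [eventually_ge_atTop 1] with H hH
  have h2 := many (a := a) (b := b) P W hW hb H hH
  have hH0 : (0 : ℝ) < H := by exact_mod_cast hH
  have hn : (datb a b).n = Fintype.card (Ix a b) - 1 := by
    have h4 : (datb a b).n = Fintype.card (JJ a b) := rfl
    have := card_JJ a b
    rw [h4]
    omega
  rw [le_div_iff₀ (by positivity), hn]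
  refine le_trans (le_of_eq ?_) h2
  ring

/-- the lower bound for the tail -/
theorem wt_lowerB (a b : ℕ) : ∃ c : ℝ, 0 < c ∧ ∀ T : ℕ, 1 ≤ T →
    c / (T : ℝ) ^ (min a b + 1) ≤ (datb a b).wt (Data.big T) := by
  classical
  obtain ⟨M, hM⟩ : ∃ M : ℝ, M = (Fintype.card (Ix a b) : ℝ) := ⟨_, rfl⟩
  have hM9 : 9 ≤ M := by
    rw [hM]
    exact_mod_cast card_Ix_ge a b
  obtain ⟨k, hk⟩ : ∃ k, k = min a b := ⟨_, rfl⟩
  rw [← hk]
  refine ⟨1 / (3 * M * 2 ^ (k + 2)), by positivity, fun T hT => ?_⟩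
  have hT1 : (1 : ℝ) ≤ T := by exact_mod_cast hT
  -- the points
  obtain ⟨pt, hpt⟩ : ∃ pt : ℤ → ℤ × ℤ, pt = fun t => if a ≤ b then (t, 0) else (0, t) := ⟨_, rfl⟩
  have hinj : Function.Injective pt := by
    intro s t h
    rw [hpt] at h
    simp only at h
    split_ifs at h with h1
    · exact congrArg Prod.fst h
    · exact congrArg Prod.snd h
  obtain ⟨F, hF⟩ : ∃ F : Finset (ℤ × ℤ), F = (Icc ((T : ℤ) + 1) (2 * T)).image pt := ⟨_, rfl⟩
  have hFc : F.card = T := by
    rw [hF, card_image_of_injective _ hinj, Int.card_Icc]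
    omega
  have hv : ∀ P ∈ F, 1 / (3 * M * (2 * (T : ℝ)) ^ (k + 2)) ≤
      (Data.big T).indicator (datb a b).v P := by
    intro P hP
    rw [hF, mem_image] at hP
    obtain ⟨t, ht, rfl⟩ := hP
    rw [mem_Icc] at ht
    have hmem : pt t ∈ Data.big T := by
      show T < sz (pt t)
      rw [hpt]
      simp only
      unfold sz
      split_ifs <;> omega
    rw [Set.indicator_of_mem hmem]
    obtain ⟨s, hs⟩ : ∃ s : ℕ, t = s := ⟨t.toNat, by omega⟩
    have hs1 : 1 ≤ s := by omega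
    have hs2 : s ≤ 2 * T := by omega
    have h1 := v_lower (a := a) (b := b) (pt t) ((2 * T) ^ (k + 2)) (Nat.one_le_pow _ _ (by omega))
      (fun p => by
        have hp1 := p.1.isLt
        have hp2 := p.2.isLt
        have hz : ∀ n : ℕ, |(0 : ℤ) ^ n| ≤ 1 := by
          intro n
          rcases Nat.eq_zero_or_pos n with h | h
          · rw [h]; simp
          · rw [zero_pow (by omega)]; simp
        have hpw : ∀ n : ℕ, n ≤ k + 2 → |t ^ n| ≤ (((2 * T) ^ (k + 2) : ℕ) : ℤ) := by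
          intro n hn
          rw [hs, abs_of_nonneg (by positivity)]
          have h2 : s ^ n ≤ (2 * T) ^ (k + 2) := by
            calc s ^ n ≤ (2 * T) ^ n := Nat.pow_le_pow_left hs2 n
              _ ≤ (2 * T) ^ (k + 2) := Nat.pow_le_pow_right (by omega) hn
          exact_mod_cast h2
        rw [hpt]
        simp only
        split_ifs with h2
        · rw [abs_mul]
          calc |t ^ (p.2 : ℕ)| * |(0 : ℤ) ^ (p.1 : ℕ)| ≤ (((2 * T) ^ (k + 2) : ℕ) : ℤ) * 1 :=
                mul_le_mul (hpw _ (by omega)) (hz _) (abs_nonneg _) (by positivity)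
            _ = _ := mul_one _
        · rw [abs_mul]
          calc |(0 : ℤ) ^ (p.2 : ℕ)| * |t ^ (p.1 : ℕ)| ≤ 1 * (((2 * T) ^ (k + 2) : ℕ) : ℤ) :=
                mul_le_mul (hz _) (hpw _ (by omega)) (abs_nonneg _) (by norm_num)
            _ = _ := one_mul _)
    rw [← hM] at h1
    push_cast at h1
    exact h1
  have h1 : ∑ P ∈ F, (Data.big T).indicator (datb a b).v P ≤ (datb a b).wt (Data.big T) := by
    unfold Data.wt
    exact ((datb a b).summable_ind _).sum_le_tsum _ fun P _ =>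
      Set.indicator_nonneg (fun Q _ => ((datb a b).hv Q).le) P
  refine le_trans ?_ h1
  have h2 := Finset.card_nsmul_le_sum F _ _ hv
  rw [nsmul_eq_mul, hFc] at h2
  refine le_trans (le_of_eq ?_) h2
  have hT0 : (T : ℝ) ≠ 0 := by linarith
  rw [mul_pow, pow_succ (T : ℝ) (k + 1)]
  field_simp

end Pool.Agent.N656.BD
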