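import Mathlib

/-!
# Counting functions with values in a box
-/

set_option autoImplicit false

open Finset

namespace Pool.Agent.N656.BD

variable {ι : Type} [Fintype ι] [DecidableEq ι]

/-- the integral vectors with entries of absolute value at most `H` -/
noncomputable def box (ι : Type) [Fintype ι] [DecidableEq ι] (H : ℕ) : Finset (ι → ℤ) :=
  Fintype.piFinset fun _ => Icc (-(H : ℤ)) H

lemma mem_box {H : ℕ} {w : ι → ℤ} : w ∈ box ι H ↔ ∀ p, |w p| ≤ H := by
  unfold box
  rw [Fintype.mem_piFinset]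
  refine forall_congr' fun p => ?_
  rw [mem_Icc, abs_le]

lemma card_I (H : ℕ) : (Icc (-(H : ℤ)) H).card = 2 * H + 1 := by
  rw [Int.card_Icc]
  omega

lemma card_box (H : ℕ) : (box ι H).card = (2 * H + 1) ^ Fintype.card ι := by
  unfold box
  rw [Fintype.card_piFinset, Finset.prod_const, card_I, card_univ]

/-- the vectors with prescribed coordinates outside of `S` -/
lemma card_off (H : ℕ) (S : Finset ι) (u : ι → ℤ) (hu : u ∈ box ι H) :
    ((box ι H).filter fun w => ∀ p, p ∉ S → u p = w p).card = (2 * H + 1) ^ S.card := by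
  have h1 : (box ι H).filter (fun w => ∀ p, p ∉ S → u p = w p) =
      Fintype.piFinset fun p => if p ∈ S then Icc (-(H : ℤ)) H else {u p} := by
    ext w
    rw [mem_filter, Fintype.mem_piFinset, box, Fintype.mem_piFinset]
    constructor
    · rintro ⟨h1, h2⟩ p
      split_ifs with h
      · exact h1 p
      · rw [mem_singleton]
        exact (h2 p h).symm
    · intro h
      refine ⟨fun p => ?_, fun p hp => ?_⟩
      · have h2 := h p
        split_ifs at h2 with h3
        · exact h2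
        · rw [mem_singleton] at h2
          rw [h2]
          have := mem_box.1 hu p
          rw [mem_Icc]
          exact abs_le.1 this
      · have h2 := h p
        rw [if_neg hp, mem_singleton] at h2
        exact h2.symm
  rw [h1, Fintype.card_piFinset]
  have h2 : ∀ p, (if p ∈ S then Icc (-(H : ℤ)) H else {u p} : Finset ℤ).card =
      if p ∈ S then 2 * H + 1 else 1 := by
    intro p
    split_ifs
    · exact card_I H
    · exact card_singleton _
  simp only [h2]
  rw [Finset.prod_ite, Finset.prod_const, Finset.prod_const_one, mul_one, Finset.filter_mem_eq_inter,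
    univ_inter]

/-- counting by the fibres over the coordinates outside of `S` -/
theorem fibre (H : ℕ) (S : Finset ι) (U : Finset (ι → ℤ)) (hU : U ⊆ box ι H) (N : (ι → ℤ) → ℝ)
    (hN : ∀ w ∈ box ι H, ((U.filter fun u => ∀ p, p ∉ S → u p = w p).card : ℝ) ≤ N w) :
    (U.card : ℝ) * (2 * H + 1) ^ S.card ≤ ∑ w ∈ box ι H, N w := by
  refine le_trans ?_ (Finset.sum_le_sum hN)
  have h1 : ∑ w ∈ box ι H, (U.filter fun u => ∀ p, p ∉ S → u p = w p).card =
      ∑ u ∈ U, ((box ι H).filter fun w => ∀ p, p ∉ S → u p = w p).card := by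
    simp only [Finset.card_filter]
    exact Finset.sum_comm
  have h2 : ∑ u ∈ U, ((box ι H).filter fun w => ∀ p, p ∉ S → u p = w p).card =
      U.card * (2 * H + 1) ^ S.card := by
    rw [Finset.sum_congr rfl fun u hu => card_off H S u (hU hu), Finset.sum_const, smul_eq_mul]
  rw [h2] at h1
  have h3 : ((∑ w ∈ box ι H, (U.filter fun u => ∀ p, p ∉ S → u p = w p).card : ℕ) : ℝ) =
      (U.card : ℝ) * (2 * H + 1) ^ S.card := by
    rw [h1]
    push_cast
    ring
  rw [← h3]
  push_cast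
  exact le_rfl

/-- the vectors with prescribed coordinates in `S` -/
lemma card_on (H : ℕ) (S : Finset ι) (v : ι → ℤ) :
    ((box ι H).filter fun w => ∀ p ∈ S, w p = v p).card ≤
      (2 * H + 1) ^ (Fintype.card ι - S.card) := by
  have h1 : (box ι H).filter (fun w => ∀ p ∈ S, w p = v p) ⊆
      Fintype.piFinset fun p => if p ∈ S then {v p} else Icc (-(H : ℤ)) H := by
    intro w
    rw [mem_filter, Fintype.mem_piFinset, box, Fintype.mem_piFinset]
    rintro ⟨h1, h2⟩ p
    split_ifs with h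
    · rw [mem_singleton]
      exact h2 p h
    · exact h1 p
  refine (card_le_card h1).trans (le_of_eq ?_)
  rw [Fintype.card_piFinset]
  have h2 : ∀ p, (if p ∈ S then {v p} else Icc (-(H : ℤ)) H : Finset ℤ).card =
      if p ∈ S then 1 else 2 * H + 1 := by
    intro p
    split_ifs
    · exact card_singleton _
    · exact card_I H
  simp only [h2]
  rw [Finset.prod_ite, Finset.prod_const, Finset.prod_const, one_pow, one_mul]
  congr 1
  rw [← Finset.card_compl]
  congr 1
  ext p
  simp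

/-- the vectors with one coordinate zero and one other coordinate small -/
lemma card_small (H : ℕ) (c p : ι) (hcp : c ≠ p) (r : ℝ) (hr : 0 ≤ r) :
    (((box ι H).filter fun w => w c = 0 ∧ |(w p : ℝ)| ≤ r).card : ℝ) ≤
      (2 * r + 1) * (2 * H + 1) ^ (Fintype.card ι - 2) := by
  have h1 : (box ι H).filter (fun w => w c = 0 ∧ |(w p : ℝ)| ≤ r) ⊆
      (Icc (-⌊r⌋) ⌊r⌋).biUnion fun t => (box ι H).filter fun w => ∀ q ∈ ({c, p} : Finset ι),
        w q = (if q = c then 0 else t) := by
    intro w hw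
    rw [mem_filter] at hw
    rw [mem_biUnion]
    have h2 := abs_le.1 hw.2.2
    refine ⟨w p, mem_Icc.2 ⟨?_, Int.le_floor.2 h2.2⟩, mem_filter.2 ⟨hw.1, ?_⟩⟩
    · have h3 : -(w p) ≤ ⌊r⌋ := Int.le_floor.2 (by push_cast; linarith [h2.1])
      linarith
    · intro q hq
      rw [mem_insert, mem_singleton] at hq
      rcases hq with rfl | rfl
      · rw [if_pos rfl]
        exact hw.2.1
      · rw [if_neg hcp.symm]
  have h2 := (card_le_card h1).trans card_biUnion_le
  have h3 : ∑ t ∈ Icc (-⌊r⌋) ⌊r⌋, ((box ι H).filter fun w => ∀ q ∈ ({c, p} : Finset ι),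
        w q = (if q = c then 0 else t)).card ≤
      (Icc (-⌊r⌋) ⌊r⌋).card * (2 * H + 1) ^ (Fintype.card ι - 2) := by
    refine Finset.sum_le_card_nsmul _ _ _ fun t _ => ?_
    have := card_on H ({c, p} : Finset ι) (fun q => if q = c then 0 else t)
    rwa [Finset.card_pair hcp] at this
  have h4 : ((Icc (-⌊r⌋) ⌊r⌋).card : ℝ) ≤ 2 * r + 1 := by
    rw [Int.card_Icc]
    have h5 : (0 : ℤ) ≤ ⌊r⌋ := Int.floor_nonneg.2 hr
    have h6 : (((⌊r⌋ + 1 - -⌊r⌋).toNat : ℕ) : ℝ) = ((⌊r⌋ + 1 - -⌊r⌋ : ℤ) : ℝ) := by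
      exact_mod_cast congrArg (fun z : ℤ => (z : ℝ)) (Int.toNat_of_nonneg (by omega :
        0 ≤ ⌊r⌋ + 1 - -⌊r⌋))
    rw [h6]
    push_cast
    have := Int.floor_le r
    linarith
  have h5 : (((box ι H).filter fun w => w c = 0 ∧ |(w p : ℝ)| ≤ r).card : ℝ) ≤
      ((Icc (-⌊r⌋) ⌊r⌋).card : ℝ) * (2 * H + 1) ^ (Fintype.card ι - 2) := by
    exact_mod_cast h2.trans h3
  refine h5.trans ?_
  gcongr

/-- sums of functions of two coordinates -/
lemma sum_two (H : ℕ) (p q : ι) (hpq : p ≠ q) (φ : ℤ → ℤ → ℝ) (hφ : ∀ s t, 0 ≤ φ s t) :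
    ∑ w ∈ box ι H, φ (w p) (w q) ≤ (2 * (H : ℝ) + 1) ^ (Fintype.card ι - 2) *
      ∑ s ∈ Icc (-(H : ℤ)) H, ∑ t ∈ Icc (-(H : ℤ)) H, φ s t := by
  have h1 : ∀ w ∈ box ι H, (w p, w q) ∈ Icc (-(H : ℤ)) H ×ˢ Icc (-(H : ℤ)) H := by
    intro w hw
    have h2 := mem_box.1 hw
    rw [mem_product, mem_Icc, mem_Icc]
    exact ⟨abs_le.1 (h2 p), abs_le.1 (h2 q)⟩
  rw [← Finset.sum_fiberwise_of_maps_to h1, ← Finset.sum_product', Finset.mul_sum]
  refine Finset.sum_le_sum fun z _ => ?_
  have h2 : ∀ w ∈ (box ι H).filter (fun w => (w p, w q) = z), φ (w p) (w q) = φ z.1 z.2 := by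
    intro w hw
    have h3 := (mem_filter.1 hw).2
    rw [← h3]
  rw [Finset.sum_congr rfl h2, Finset.sum_const, nsmul_eq_mul]
  have h3 : ((box ι H).filter fun w => (w p, w q) = z).card ≤
      (2 * H + 1) ^ (Fintype.card ι - 2) := by
    have h4 := card_on H ({p, q} : Finset ι) (fun r => if r = p then z.1 else z.2)
    rw [Finset.card_pair hpq] at h4
    refine (card_le_card ?_).trans h4
    intro w hw
    rw [mem_filter] at hw ⊢
    refine ⟨hw.1, fun r hr => ?_⟩
    rw [mem_insert, mem_singleton] at hr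
    rcases hr with rfl | rfl
    · rw [if_pos rfl, ← hw.2]
    · rw [if_neg hpq.symm, ← hw.2]
  have h4 : (((box ι H).filter fun w => (w p, w q) = z).card : ℝ) ≤
      (2 * (H : ℝ) + 1) ^ (Fintype.card ι - 2) := by exact_mod_cast h3
  exact mul_le_mul_of_nonneg_right h4 (hφ _ _)

end Pool.Agent.N656.BD
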