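import Pool.Agent.N656.PL.Slice

/-!
# Polynomials in one variable with spread coefficients and a large integer zero
-/

set_option autoImplicit false

open Finset

namespace Pool.Agent.N656.BD

open Pool.Agent.N656.PL

/-- the tails of the sums over one coordinate -/
lemma sum_tail (m : ℕ) (hm : 2 ≤ m) (T N : ℕ) :
    ∑ t ∈ (Icc (-(N : ℤ)) N).filter (fun t => (T : ℤ) ≤ |t|), 1 / (max 1 |(t : ℝ)|) ^ m ≤
      2 ^ (m + 2) / ((T : ℝ) + 1) ^ (m - 1) := by
  classical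
  obtain ⟨k, rfl⟩ : ∃ k, m = k + 2 := ⟨m - 2, by omega⟩
  have h0 : ∀ t : ℤ, 0 ≤ 1 / (max 1 |(t : ℝ)|) ^ (k + 2) := fun t => by positivity
  have h1 : (Icc (-(N : ℤ)) N).filter (fun t => (T : ℤ) ≤ |t|) ⊆
      (Ico T (N + 1 + T)).image (fun s : ℕ => (s : ℤ)) ∪
      (Ico T (N + 1 + T)).image (fun s : ℕ => -(s : ℤ)) := by
    intro t ht
    rw [mem_filter, mem_Icc] at ht
    rw [mem_union, mem_image, mem_image]
    rcases le_total 0 t with h | h
    · left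
      have h2 : |t| = t := abs_of_nonneg h
      exact ⟨t.toNat, by rw [mem_Ico]; omega, by omega⟩
    · right
      have h2 : |t| = -t := abs_of_nonpos h
      exact ⟨(-t).toNat, by rw [mem_Ico]; omega, by omega⟩
  have h2 : ∑ t ∈ (Icc (-(N : ℤ)) N).filter (fun t => (T : ℤ) ≤ |t|),
      1 / (max 1 |(t : ℝ)|) ^ (k + 2) ≤
      2 * ∑ s ∈ Ico T (N + 1 + T), 1 / (max 1 |(s : ℝ)|) ^ (k + 2) := by
    calc ∑ t ∈ (Icc (-(N : ℤ)) N).filter (fun t => (T : ℤ) ≤ |t|),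
          1 / (max 1 |(t : ℝ)|) ^ (k + 2)
        ≤ ∑ t ∈ (Ico T (N + 1 + T)).image (fun s : ℕ => (s : ℤ)) ∪
          (Ico T (N + 1 + T)).image (fun s : ℕ => -(s : ℤ)), 1 / (max 1 |(t : ℝ)|) ^ (k + 2) :=
          Finset.sum_le_sum_of_subset_of_nonneg h1 fun t _ _ => h0 t
      _ ≤ ∑ t ∈ (Ico T (N + 1 + T)).image (fun s : ℕ => (s : ℤ)),
            1 / (max 1 |(t : ℝ)|) ^ (k + 2) +
          ∑ t ∈ (Ico T (N + 1 + T)).image (fun s : ℕ => -(s : ℤ)),
            1 / (max 1 |(t : ℝ)|) ^ (k + 2) := by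
          rw [← Finset.sum_union_inter]
          have := Finset.sum_nonneg fun t (_ : t ∈ (Ico T (N + 1 + T)).image
            (fun s : ℕ => (s : ℤ)) ∩ (Ico T (N + 1 + T)).image (fun s : ℕ => -(s : ℤ))) => h0 t
          linarith
      _ = ∑ s ∈ Ico T (N + 1 + T), 1 / (max 1 |(s : ℝ)|) ^ (k + 2) +
          ∑ s ∈ Ico T (N + 1 + T), 1 / (max 1 |(s : ℝ)|) ^ (k + 2) := by
          rw [Finset.sum_image (fun x _ y _ h => by exact_mod_cast h),
            Finset.sum_image (fun x _ y _ h => by simpa using h)]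
          push_cast
          simp only [abs_neg]
      _ = _ := by ring
  have hT0 : (0 : ℝ) ≤ T := Nat.cast_nonneg T
  have h3 : ∀ n : ℕ, ∑ s ∈ Ico T (n + T), 1 / ((s : ℝ) + 1) ^ 2 ≤
      2 / ((T : ℝ) + 1) - 2 / ((n : ℝ) + T + 1) := by
    intro n
    induction n with
    | zero => simp
    | succ n ih =>
      rw [show n + 1 + T = (n + T) + 1 by ring, Finset.sum_Ico_succ_top (by omega)]
      have h4 : 1 / (((n + T : ℕ) : ℝ) + 1) ^ 2 ≤
          2 / ((n : ℝ) + T + 1) - 2 / (((n + 1 : ℕ) : ℝ) + T + 1) := by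
        push_cast
        rw [div_sub_div _ _ (by positivity) (by positivity), div_le_div_iff₀ (by positivity)
          (by positivity)]
        have : (0 : ℝ) ≤ n := by positivity
        nlinarith
      linarith
  have h4 : ∀ s ∈ Ico T (N + 1 + T), 1 / (max 1 |(s : ℝ)|) ^ (k + 2) ≤
      2 ^ (k + 2) / ((T : ℝ) + 1) ^ k * (1 / ((s : ℝ) + 1) ^ 2) := by
    intro s hs
    rw [mem_Ico] at hs
    have hs0 : (0 : ℝ) ≤ s := by positivity
    have hTs : (T : ℝ) ≤ s := by exact_mod_cast hs.1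
    have h5 : (s : ℝ) + 1 ≤ 2 * max 1 |(s : ℝ)| := by
      rw [abs_of_nonneg hs0]
      rcases le_total (s : ℝ) 1 with h | h
      · rw [max_eq_left h]; linarith
      · rw [max_eq_right h]; linarith
    have h6 : ((s : ℝ) + 1) ^ (k + 2) ≤ 2 ^ (k + 2) * (max 1 |(s : ℝ)|) ^ (k + 2) := by
      rw [← mul_pow]
      gcongr
    have hmx : 0 < max 1 |(s : ℝ)| := lt_max_of_lt_left one_pos
    calc 1 / (max 1 |(s : ℝ)|) ^ (k + 2) ≤ 2 ^ (k + 2) / ((s : ℝ) + 1) ^ (k + 2) := by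
          rw [div_le_div_iff₀ (by positivity) (by positivity), one_mul]
          exact h6
      _ = 2 ^ (k + 2) / ((s : ℝ) + 1) ^ k * (1 / ((s : ℝ) + 1) ^ 2) := by
          rw [pow_add (s + 1 : ℝ)]
          field_simp
      _ ≤ _ := by gcongr
  have h5 := h3 (N + 1)
  have h6 : 0 ≤ 2 / (((N + 1 : ℕ) : ℝ) + T + 1) := by positivity
  calc _ ≤ 2 * ∑ s ∈ Ico T (N + 1 + T), 1 / (max 1 |(s : ℝ)|) ^ (k + 2) := h2
    _ ≤ 2 * ∑ s ∈ Ico T (N + 1 + T), 2 ^ (k + 2) / ((T : ℝ) + 1) ^ k *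
        (1 / ((s : ℝ) + 1) ^ 2) := by
        have := Finset.sum_le_sum h4
        linarith
    _ = 2 * (2 ^ (k + 2) / ((T : ℝ) + 1) ^ k) * ∑ s ∈ Ico T (N + 1 + T),
        (1 / ((s : ℝ) + 1) ^ 2) := by rw [← Finset.mul_sum]; ring
    _ ≤ 2 * (2 ^ (k + 2) / ((T : ℝ) + 1) ^ k) * (2 / ((T : ℝ) + 1)) := by
        gcongr
        linarith
    _ = _ := by
        rw [show k + 2 - 1 = k + 1 by omega]
        field_simp
        ring

/-- the sum over all the values of one coordinate -/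
lemma sum_all (T : ℕ) (hT : 1 ≤ T) :
    ∑ t ∈ Icc (-(T : ℤ)) T, 1 / (max 1 |(t : ℝ)|) ≤ 5 + 2 * Real.log T := by
  classical
  have h0 : ∀ t : ℤ, 0 ≤ 1 / (max 1 |(t : ℝ)|) := fun t => by positivity
  have h1 : Icc (-(T : ℤ)) T ⊆ insert 0 ((Icc 1 T).image (fun s : ℕ => (s : ℤ)) ∪
      (Icc 1 T).image (fun s : ℕ => -(s : ℤ))) := by
    intro t ht
    rw [mem_Icc] at ht
    rw [mem_insert, mem_union, mem_image, mem_image]
    rcases lt_trichotomy 0 t with h | h | h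
    · right; left
      exact ⟨t.toNat, by rw [mem_Icc]; omega, by omega⟩
    · left; exact h.symm
    · right; right
      exact ⟨(-t).toNat, by rw [mem_Icc]; omega, by omega⟩
  have h2 : ∑ t ∈ Icc (-(T : ℤ)) T, 1 / (max 1 |(t : ℝ)|) ≤
      1 + 2 * ∑ s ∈ Icc 1 T, 1 / (s : ℝ) := by
    calc ∑ t ∈ Icc (-(T : ℤ)) T, 1 / (max 1 |(t : ℝ)|)
        ≤ ∑ t ∈ insert 0 ((Icc 1 T).image (fun s : ℕ => (s : ℤ)) ∪
          (Icc 1 T).image (fun s : ℕ => -(s : ℤ))), 1 / (max 1 |(t : ℝ)|) :=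
          Finset.sum_le_sum_of_subset_of_nonneg h1 fun t _ _ => h0 t
      _ ≤ 1 / (max 1 |((0 : ℤ) : ℝ)|) + ∑ t ∈ ((Icc 1 T).image (fun s : ℕ => (s : ℤ)) ∪
          (Icc 1 T).image (fun s : ℕ => -(s : ℤ))), 1 / (max 1 |(t : ℝ)|) := by
          by_cases hm : (0 : ℤ) ∈ ((Icc 1 T).image (fun s : ℕ => (s : ℤ)) ∪
            (Icc 1 T).image (fun s : ℕ => -(s : ℤ)))
          · rw [Finset.insert_eq_of_mem hm]
            have := h0 0
            linarith
          · rw [Finset.sum_insert hm]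
      _ ≤ 1 + (∑ t ∈ (Icc 1 T).image (fun s : ℕ => (s : ℤ)), 1 / (max 1 |(t : ℝ)|) +
          ∑ t ∈ (Icc 1 T).image (fun s : ℕ => -(s : ℤ)), 1 / (max 1 |(t : ℝ)|)) := by
          refine add_le_add (by simp) ?_
          rw [← Finset.sum_union_inter]
          have := Finset.sum_nonneg fun t (_ : t ∈ (Icc 1 T).image
            (fun s : ℕ => (s : ℤ)) ∩ (Icc 1 T).image (fun s : ℕ => -(s : ℤ))) => h0 t
          linarith
      _ = 1 + (∑ s ∈ Icc 1 T, 1 / (max 1 |(s : ℝ)|) +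
          ∑ s ∈ Icc 1 T, 1 / (max 1 |(s : ℝ)|)) := by
          rw [Finset.sum_image (fun x _ y _ h => by exact_mod_cast h),
            Finset.sum_image (fun x _ y _ h => by simpa using h)]
          push_cast
          simp only [abs_neg]
      _ = 1 + 2 * ∑ s ∈ Icc 1 T, 1 / (max 1 |(s : ℝ)|) := by ring
      _ = _ := by
          congr 2
          refine Finset.sum_congr rfl fun s hs => ?_
          rw [mem_Icc] at hs
          have : (1 : ℝ) ≤ s := by exact_mod_cast hs.1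
          rw [abs_of_nonneg (by linarith), max_eq_right this]
  have h5 := harmonic_le_one_add_log T
  have h6 : ((harmonic T : ℚ) : ℝ) = ∑ s ∈ Icc 1 T, 1 / (s : ℝ) := by
    rw [harmonic_eq_sum_Icc]
    push_cast
    refine Finset.sum_congr rfl fun s _ => ?_
    rw [one_div]
  rw [h6] at h5
  linarith

lemma sl_last {Ω : Type} (b : ℕ) (t : ℤ) (g : Ω → ℤ) (ω : Fin (b + 2) → Ω) :
    sl (b + 1) t g ω = sl b t g (Fin.init ω) + g (ω (Fin.last _)) * t ^ (b + 1) := by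
  unfold sl
  rw [Fin.sum_univ_castSucc]
  rfl

/-- a polynomial with nonzero leading coefficient has only small zeros -/
lemma dom1 {Ω : Type} [Fintype Ω] {g : Ω → ℤ} {κ R : ℝ} (hR : 1 ≤ R) (hκ : 1 ≤ κ)
    (h : Spread g κ R) (b : ℕ) (ω : Fin (b + 2) → Ω) (hω : g (ω (Fin.last _)) ≠ 0) (y : ℤ)
    (hy : sl (b + 1) y g ω = 0) : |(y : ℝ)| ≤ (b + 2) * κ * R := by
  by_contra hcon
  push Not at hcon
  have hb : (0 : ℝ) ≤ b := by positivity
  have hκR : 1 ≤ κ * R := by nlinarith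
  have h1 : 1 < |(y : ℝ)| := by nlinarith
  have h2 : |(sl b y g (Fin.init ω) : ℝ)| ≤ (b + 1) * κ * (R * |(y : ℝ)| ^ b) := by
    have := bd_sl hR hκ h y b (Fin.init ω)
    rwa [max_eq_right h1.le] at this
  have h3 : (sl b y g (Fin.init ω) : ℝ) = -(g (ω (Fin.last _)) * (y : ℝ) ^ (b + 1)) := by
    rw [sl_last] at hy
    have : ((sl b y g (Fin.init ω) + g (ω (Fin.last _)) * y ^ (b + 1) : ℤ) : ℝ) = 0 := by
      rw [hy]; norm_num
    push_cast at this
    linarith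
  have h4 : |(y : ℝ)| ^ (b + 1) ≤ |(sl b y g (Fin.init ω) : ℝ)| := by
    rw [h3, abs_neg, abs_mul, abs_pow]
    have h5 : (1 : ℝ) ≤ |(g (ω (Fin.last _)) : ℝ)| := by
      have : (1 : ℤ) ≤ |g (ω (Fin.last _))| := Int.one_le_abs hω
      exact_mod_cast this
    have : 0 ≤ |(y : ℝ)| ^ (b + 1) := by positivity
    nlinarith
  have h5 : |(y : ℝ)| ^ (b + 1) ≤ (b + 1) * κ * R * |(y : ℝ)| ^ b := by
    calc _ ≤ _ := h4
      _ ≤ _ := h2
      _ = _ := by ring
  rw [pow_succ, mul_comm] at h5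
  have h6 : |(y : ℝ)| ≤ (b + 1) * κ * R := le_of_mul_le_mul_right h5 (by positivity)
  nlinarith

/-- the polynomials whose leading coefficient vanishes -/
lemma card_top {Ω : Type} [Fintype Ω] [DecidableEq Ω] {g : Ω → ℤ} {κ R : ℝ} (hR : 0 ≤ R)
    (h : Spread g κ R) (b : ℕ) (p : (Fin (b + 1) → Ω) → Prop) [DecidablePred p] :
    ((univ.filter fun ω : Fin (b + 2) → Ω => g (ω (Fin.last _)) = 0 ∧ p (Fin.init ω)).card : ℝ) *
      R ≤ κ * Fintype.card Ω * (univ.filter p).card := by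
  have h1 : (univ.filter fun ω : Fin (b + 2) → Ω => g (ω (Fin.last _)) = 0 ∧
      p (Fin.init ω)).card ≤ ((univ.filter fun ω => g ω = 0) ×ˢ (univ.filter p)).card := by
    refine Finset.card_le_card_of_injOn (fun ω => (ω (Fin.last _), Fin.init ω)) ?_ ?_
    · intro ω hω
      rw [coe_filter] at hω
      rw [coe_product]
      refine ⟨?_, ?_⟩
      · rw [coe_filter]
        exact ⟨mem_univ _, hω.2.1⟩
      · rw [coe_filter]
        exact ⟨mem_univ _, hω.2.2⟩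
    · intro ω _ ω' _ h2
      rw [Prod.mk.injEq] at h2
      rw [← Fin.snoc_init_self ω, ← Fin.snoc_init_self ω', h2.1, h2.2]
  have h2 : ((univ.filter fun ω : Fin (b + 2) → Ω => g (ω (Fin.last _)) = 0 ∧
      p (Fin.init ω)).card : ℝ) ≤ ((univ.filter fun ω => g ω = 0).card : ℝ) *
        (univ.filter p).card := by
    rw [card_product] at h1
    exact_mod_cast h1
  have h3 := h.fib 0
  calc _ ≤ ((univ.filter fun ω => g ω = 0).card : ℝ) * (univ.filter p).card * R := by gcongr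
    _ = ((univ.filter fun ω => g ω = 0).card : ℝ) * R * (univ.filter p).card := by ring
    _ ≤ _ := by gcongr

/-- the polynomials with an integer zero -/
theorem U1 (κ : ℝ) (hκ : 1 ≤ κ) (b : ℕ) : ∃ C : ℝ, 0 ≤ C ∧
    ∀ (Ω : Type) [Fintype Ω] [DecidableEq Ω] (g : Ω → ℤ) (R : ℝ), 1 ≤ R → Spread g κ R →
      (Set.ncard {ω : Fin (b + 2) → Ω | ∃ y : ℤ, sl (b + 1) y g ω = 0} : ℝ) * R ≤
        C * (Fintype.card Ω : ℝ) ^ (b + 2) * (1 + Real.log R) := by
  classical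
  obtain ⟨lam, hlam⟩ : ∃ lam : ℝ, lam = (b + 2) * κ := ⟨_, rfl⟩
  have hb : (0 : ℝ) ≤ b := by positivity
  have hl : 1 ≤ lam := by rw [hlam]; nlinarith
  have hll : 0 ≤ Real.log lam := Real.log_nonneg hl
  have hK0 : 0 ≤ Kap κ lam (b + 1) := le_trans (by positivity) (Kap_ge hκ hl (b + 1))
  refine ⟨κ + Kap κ lam (b + 1) * (5 + 2 * Real.log lam), by positivity,
    fun Ω _ _ g R hR h => ?_⟩
  obtain ⟨Q, hQ⟩ : ∃ Q : ℝ, Q = (Fintype.card Ω : ℝ) ^ (b + 2) := ⟨_, rfl⟩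
  have hQ0 : 0 ≤ Q := by rw [hQ]; positivity
  rw [← hQ]
  obtain ⟨T, hT⟩ : ∃ T : ℕ, T = ⌊lam * R⌋₊ := ⟨_, rfl⟩
  have hlR : 1 ≤ lam * R := by nlinarith
  have hTle : (T : ℝ) ≤ lam * R := by rw [hT]; exact Nat.floor_le (by linarith)
  have hT1 : 1 ≤ T := by rw [hT]; exact Nat.le_floor (by exact_mod_cast hlR)
  have hLR : 0 ≤ Real.log R := Real.log_nonneg hR
  have hlogT : Real.log T ≤ Real.log lam + Real.log R := by
    rw [← Real.log_mul (by linarith) (by linarith)]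
    exact Real.log_le_log (by exact_mod_cast hT1) hTle
  have h1 : {ω : Fin (b + 2) → Ω | ∃ y : ℤ, sl (b + 1) y g ω = 0} ⊆
      ((univ.filter fun ω : Fin (b + 2) → Ω => g (ω (Fin.last _)) = 0 ∧ True) ∪
        (Icc (-(T : ℤ)) T).biUnion fun y => univ.filter fun ω : Fin (b + 2) → Ω =>
          sl (b + 1) y g ω = 0 : Finset (Fin (b + 2) → Ω)) := by
    rintro ω ⟨y, hy⟩
    rw [mem_coe, mem_union]
    by_cases h0 : g (ω (Fin.last _)) = 0
    · left
      exact mem_filter.2 ⟨mem_univ _, h0, trivial⟩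
    · right
      have h2 := dom1 hR hκ h b ω h0 y hy
      rw [← hlam] at h2
      have h3 : (y.natAbs : ℝ) ≤ lam * R := by
        rw [Nat.cast_natAbs]
        push_cast
        exact h2
      have h4 : y.natAbs ≤ T := by rw [hT]; exact Nat.le_floor h3
      rw [mem_biUnion]
      exact ⟨y, mem_Icc.2 ⟨by omega, by omega⟩, mem_filter.2 ⟨mem_univ _, hy⟩⟩
  have h2 := Set.ncard_le_ncard h1 (Finset.finite_toSet _)
  rw [Set.ncard_coe_finset] at h2
  have h3 := h2.trans ((card_union_le _ _).trans (Nat.add_le_add_left card_biUnion_le _))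
  have h4 : (Set.ncard {ω : Fin (b + 2) → Ω | ∃ y : ℤ, sl (b + 1) y g ω = 0} : ℝ) ≤
      ((univ.filter fun ω : Fin (b + 2) → Ω => g (ω (Fin.last _)) = 0 ∧ True).card : ℝ) +
      ∑ y ∈ Icc (-(T : ℤ)) T, ((univ.filter fun ω : Fin (b + 2) → Ω =>
          sl (b + 1) y g ω = 0).card : ℝ) := by exact_mod_cast h3
  have h5 := card_top (by linarith : 0 ≤ R) h b (fun _ => True)
  rw [show (univ.filter fun _ : Fin (b + 1) → Ω => True) = univ from filter_true_of_mem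
    fun _ _ => trivial, card_univ, Fintype.card_fun, Fintype.card_fin] at h5
  push_cast at h5
  have h5' : ((univ.filter fun ω : Fin (b + 2) → Ω => g (ω (Fin.last _)) = 0 ∧ True).card : ℝ) *
      R ≤ κ * Q := by
    refine h5.trans (le_of_eq ?_)
    rw [hQ, pow_succ]
    ring
  have h6 : ∀ y ∈ Icc (-(T : ℤ)) T, ((univ.filter fun ω : Fin (b + 2) → Ω =>
      sl (b + 1) y g ω = 0).card : ℝ) * R ≤ Kap κ lam (b + 1) * Q * (1 / max 1 |(y : ℝ)|) := by
    intro y hy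
    rw [mem_Icc] at hy
    have hyR : |(y : ℝ)| ≤ lam * R := by
      refine le_trans ?_ hTle
      rw [abs_le]
      constructor
      · exact_mod_cast hy.1
      · exact_mod_cast hy.2
    have h7 := fib_sl hR hκ hl h y hyR (b + 1) 0
    rw [← hQ] at h7
    have hm : (1 : ℝ) ≤ max 1 |(y : ℝ)| := le_max_left _ _
    rw [mul_one_div, le_div_iff₀ (by linarith)]
    refine le_trans ?_ h7
    rw [mul_assoc]
    have : max 1 |(y : ℝ)| ≤ (max 1 |(y : ℝ)|) ^ (b + 1) := le_self_pow₀ hm (by omega)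
    gcongr
  have h7 := sum_all T hT1
  calc _ ≤ (((univ.filter fun ω : Fin (b + 2) → Ω => g (ω (Fin.last _)) = 0 ∧ True).card : ℝ) +
      ∑ y ∈ Icc (-(T : ℤ)) T, ((univ.filter fun ω : Fin (b + 2) → Ω =>
          sl (b + 1) y g ω = 0).card : ℝ)) * R := by gcongr
    _ = ((univ.filter fun ω : Fin (b + 2) → Ω => g (ω (Fin.last _)) = 0 ∧ True).card : ℝ) * R +
      ∑ y ∈ Icc (-(T : ℤ)) T, ((univ.filter fun ω : Fin (b + 2) → Ω =>
          sl (b + 1) y g ω = 0).card : ℝ) * R := by rw [add_mul, Finset.sum_mul]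
    _ ≤ κ * Q + ∑ y ∈ Icc (-(T : ℤ)) T, Kap κ lam (b + 1) * Q * (1 / max 1 |(y : ℝ)|) :=
        add_le_add h5' (Finset.sum_le_sum h6)
    _ = κ * Q + Kap κ lam (b + 1) * Q * ∑ y ∈ Icc (-(T : ℤ)) T, (1 / max 1 |(y : ℝ)|) := by
        rw [Finset.mul_sum]
    _ ≤ κ * Q + Kap κ lam (b + 1) * Q * (5 + 2 * (Real.log lam + Real.log R)) := by
        gcongr
        linarith
    _ ≤ κ * Q * (1 + Real.log R) + Kap κ lam (b + 1) * Q * ((5 + 2 * Real.log lam) *
        (1 + Real.log R)) := by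
        have h8 : 0 ≤ Real.log lam * Real.log R := by positivity
        refine add_le_add ?_ ?_
        · have : 0 ≤ κ * Q := by positivity
          nlinarith
        · gcongr
          nlinarith
    _ = _ := by ring

/-- the polynomials with a large integer zero -/
theorem S1 (κ : ℝ) (hκ : 1 ≤ κ) (b : ℕ) : ∃ C : ℝ, 0 ≤ C ∧
    ∀ (Ω : Type) [Fintype Ω] [DecidableEq Ω] (g : Ω → ℤ) (R : ℝ), 1 ≤ R → Spread g κ R → ∀ T : ℕ,
      (Set.ncard {ω : Fin (b + 3) → Ω | ∃ y : ℤ, (T : ℤ) ≤ |y| ∧ sl (b + 2) y g ω = 0} : ℝ) * R ≤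
        C * (Fintype.card Ω : ℝ) ^ (b + 3) * (1 / ((T : ℝ) + 1) ^ (b + 1) +
          (1 + Real.log R) / R) := by
  classical
  obtain ⟨C₁, hC₁, hU⟩ := U1 κ hκ b
  obtain ⟨lam, hlam⟩ : ∃ lam : ℝ, lam = ((b + 1 : ℕ) + 2) * κ := ⟨_, rfl⟩
  have hb : (0 : ℝ) ≤ b := by positivity
  have hl : 1 ≤ lam := by rw [hlam]; push_cast; nlinarith
  have hK0 : 0 ≤ Kap κ lam (b + 2) := le_trans (by positivity) (Kap_ge hκ hl (b + 2))
  refine ⟨κ * C₁ + Kap κ lam (b + 2) * 2 ^ (b + 4), by positivity,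
    fun Ω _ _ g R hR h T => ?_⟩
  obtain ⟨Q, hQ⟩ : ∃ Q : ℝ, Q = (Fintype.card Ω : ℝ) ^ (b + 3) := ⟨_, rfl⟩
  have hQ0 : 0 ≤ Q := by rw [hQ]; positivity
  rw [← hQ]
  obtain ⟨N, hN⟩ : ∃ N : ℕ, N = ⌊lam * R⌋₊ := ⟨_, rfl⟩
  have hlR : 1 ≤ lam * R := by nlinarith
  have hNle : (N : ℝ) ≤ lam * R := by rw [hN]; exact Nat.floor_le (by linarith)
  have hLR : 0 ≤ Real.log R := Real.log_nonneg hR
  obtain ⟨p, hp⟩ : ∃ p : (Fin (b + 2) → Ω) → Prop, p = fun ω => ∃ y : ℤ, sl (b + 1) y g ω = 0 :=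
    ⟨_, rfl⟩
  have h1 : {ω : Fin (b + 3) → Ω | ∃ y : ℤ, (T : ℤ) ≤ |y| ∧ sl (b + 2) y g ω = 0} ⊆
      ((univ.filter fun ω : Fin (b + 3) → Ω => g (ω (Fin.last _)) = 0 ∧ p (Fin.init ω)) ∪
        ((Icc (-(N : ℤ)) N).filter fun t => (T : ℤ) ≤ |t|).biUnion fun y =>
          univ.filter fun ω : Fin (b + 3) → Ω =>
          sl (b + 2) y g ω = 0 : Finset (Fin (b + 3) → Ω)) := by
    rintro ω ⟨y, hTy, hy⟩
    rw [mem_coe, mem_union]
    by_cases h0 : g (ω (Fin.last _)) = 0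
    · left
      refine mem_filter.2 ⟨mem_univ _, h0, ?_⟩
      rw [hp]
      refine ⟨y, ?_⟩
      rw [sl_last, h0, zero_mul, add_zero] at hy
      exact hy
    · right
      have h2 := dom1 hR hκ h (b + 1) ω h0 y hy
      rw [← hlam] at h2
      have h3 : (y.natAbs : ℝ) ≤ lam * R := by
        rw [Nat.cast_natAbs]
        push_cast
        exact h2
      have h4 : y.natAbs ≤ N := by rw [hN]; exact Nat.le_floor h3
      rw [mem_biUnion]
      exact ⟨y, mem_filter.2 ⟨mem_Icc.2 ⟨by omega, by omega⟩, hTy⟩,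
        mem_filter.2 ⟨mem_univ _, hy⟩⟩
  have h2 := Set.ncard_le_ncard h1 (Finset.finite_toSet _)
  rw [Set.ncard_coe_finset] at h2
  have h3 := h2.trans ((card_union_le _ _).trans (Nat.add_le_add_left card_biUnion_le _))
  have h4 : (Set.ncard {ω : Fin (b + 3) → Ω | ∃ y : ℤ, (T : ℤ) ≤ |y| ∧ sl (b + 2) y g ω = 0} : ℝ) ≤
      ((univ.filter fun ω : Fin (b + 3) → Ω => g (ω (Fin.last _)) = 0 ∧
        p (Fin.init ω)).card : ℝ) +
      ∑ y ∈ (Icc (-(N : ℤ)) N).filter fun t => (T : ℤ) ≤ |t|,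
        ((univ.filter fun ω : Fin (b + 3) → Ω =>
          sl (b + 2) y g ω = 0).card : ℝ) := by exact_mod_cast h3
  have h5 := card_top (by linarith : 0 ≤ R) h (b + 1) p
  have h5a := hU Ω g R hR h
  have h5b : (Set.ncard {ω : Fin (b + 2) → Ω | ∃ y : ℤ, sl (b + 1) y g ω = 0} : ℝ) =
      ((univ.filter p).card : ℝ) := by
    rw [← Set.ncard_coe_finset]
    congr 2
    ext ω
    rw [coe_filter, hp]
    simp
  rw [h5b] at h5a
  have hR0 : 0 < R := by linarith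
  have h5' : ((univ.filter fun ω : Fin (b + 3) → Ω => g (ω (Fin.last _)) = 0 ∧
      p (Fin.init ω)).card : ℝ) * R ≤ κ * C₁ * Q * ((1 + Real.log R) / R) := by
    refine h5.trans ?_
    rw [mul_div_assoc', le_div_iff₀ hR0]
    calc κ * (Fintype.card Ω : ℝ) * ((univ.filter p).card : ℝ) * R =
        κ * (Fintype.card Ω : ℝ) * (((univ.filter p).card : ℝ) * R) := by ring
      _ ≤ κ * (Fintype.card Ω : ℝ) * (C₁ * (Fintype.card Ω : ℝ) ^ (b + 2) *
          (1 + Real.log R)) := by gcongr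
      _ = _ := by
          rw [hQ]
          ring
  have h6 : ∀ y ∈ (Icc (-(N : ℤ)) N).filter (fun t => (T : ℤ) ≤ |t|),
      ((univ.filter fun ω : Fin (b + 3) → Ω =>
      sl (b + 2) y g ω = 0).card : ℝ) * R ≤ Kap κ lam (b + 2) * Q *
        (1 / (max 1 |(y : ℝ)|) ^ (b + 2)) := by
    intro y hy
    rw [mem_filter, mem_Icc] at hy
    have hyR : |(y : ℝ)| ≤ lam * R := by
      refine le_trans ?_ hNle
      rw [abs_le]
      constructor
      · exact_mod_cast hy.1.1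
      · exact_mod_cast hy.1.2
    have h7 := fib_sl hR hκ hl h y hyR (b + 2) 0
    rw [← hQ] at h7
    have hm : (1 : ℝ) ≤ max 1 |(y : ℝ)| := le_max_left _ _
    rw [mul_one_div, le_div_iff₀ (by positivity)]
    refine le_trans (le_of_eq ?_) h7
    ring
  have h7 := sum_tail (b + 2) (by omega) T N
  have h8 : 0 ≤ (1 + Real.log R) / R := by positivity
  have h9 : 0 ≤ 1 / ((T : ℝ) + 1) ^ (b + 1) := by positivity
  calc _ ≤ (((univ.filter fun ω : Fin (b + 3) → Ω => g (ω (Fin.last _)) = 0 ∧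
        p (Fin.init ω)).card : ℝ) +
      ∑ y ∈ (Icc (-(N : ℤ)) N).filter fun t => (T : ℤ) ≤ |t|,
        ((univ.filter fun ω : Fin (b + 3) → Ω =>
          sl (b + 2) y g ω = 0).card : ℝ)) * R := by gcongr
    _ = ((univ.filter fun ω : Fin (b + 3) → Ω => g (ω (Fin.last _)) = 0 ∧
        p (Fin.init ω)).card : ℝ) * R +
      ∑ y ∈ (Icc (-(N : ℤ)) N).filter fun t => (T : ℤ) ≤ |t|,
        ((univ.filter fun ω : Fin (b + 3) → Ω =>
          sl (b + 2) y g ω = 0).card : ℝ) * R := by rw [add_mul, Finset.sum_mul]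
    _ ≤ κ * C₁ * Q * ((1 + Real.log R) / R) +
      ∑ y ∈ (Icc (-(N : ℤ)) N).filter fun t => (T : ℤ) ≤ |t|,
        Kap κ lam (b + 2) * Q * (1 / (max 1 |(y : ℝ)|) ^ (b + 2)) :=
        add_le_add h5' (Finset.sum_le_sum h6)
    _ = κ * C₁ * Q * ((1 + Real.log R) / R) + Kap κ lam (b + 2) * Q *
      ∑ y ∈ (Icc (-(N : ℤ)) N).filter fun t => (T : ℤ) ≤ |t|,
        (1 / (max 1 |(y : ℝ)|) ^ (b + 2)) := by rw [Finset.mul_sum]
    _ ≤ κ * C₁ * Q * ((1 + Real.log R) / R) + Kap κ lam (b + 2) * Q *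
        (2 ^ (b + 4) / ((T : ℝ) + 1) ^ (b + 1)) := by
        gcongr
        exact h7
    _ = κ * C₁ * Q * ((1 + Real.log R) / R) + Kap κ lam (b + 2) * 2 ^ (b + 4) * Q *
        (1 / ((T : ℝ) + 1) ^ (b + 1)) := by ring
    _ ≤ _ := by
        have e1 : 0 ≤ κ * C₁ * Q * (1 / ((T : ℝ) + 1) ^ (b + 1)) := by positivity
        have e2 : 0 ≤ Kap κ lam (b + 2) * 2 ^ (b + 4) * Q * ((1 + Real.log R) / R) := by positivity
        nlinarith

end Pool.Agent.N656.BD
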