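import Pool.Agent.N656.BD.Dat
import Pool.Agent.N656.PC.Irr
import Pool.Agent.N415.PC.Red

/-!
# Polynomials of bounded bidegree
-/

set_option autoImplicit false
set_option linter.unusedSectionVars false

open Finset

namespace Pool.Agent.N656.BD

/-- the indices of the monomials of degree at most `i` in `x` and at most `j` in `y` -/
abbrev Bd (i j : ℕ) : Type := Fin (j + 1) × Fin (i + 1)

/-- the exponents -/
noncomputable def ex {i j : ℕ} (q : Bd i j) : Fin 2 →₀ ℕ :=
  Finsupp.equivFunOnFinite.symm ![(q.2 : ℕ), (q.1 : ℕ)]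

lemma ex_zero {i j : ℕ} (q : Bd i j) : ex q 0 = (q.2 : ℕ) := rfl

lemma ex_one {i j : ℕ} (q : Bd i j) : ex q 1 = (q.1 : ℕ) := rfl

lemma ex_inj {i j : ℕ} : Function.Injective (ex : Bd i j → Fin 2 →₀ ℕ) := by
  intro q q' h
  have h0 := ex_zero q
  have h1 := ex_one q
  rw [h, ex_zero] at h0
  rw [h, ex_one] at h1
  exact Prod.ext (Fin.ext h1.symm) (Fin.ext h0.symm)

variable {R : Type} [CommRing R]

/-- the polynomial with the coefficients `u` -/
noncomputable def pB {i j : ℕ} (u : Bd i j → R) : MvPolynomial (Fin 2) R :=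
  ∑ q : Bd i j, MvPolynomial.monomial (ex q) (u q)

lemma coeff_pB {i j : ℕ} (u : Bd i j → R) (q : Bd i j) : (pB u).coeff (ex q) = u q := by
  classical
  unfold pB
  rw [MvPolynomial.coeff_sum, Finset.sum_eq_single q]
  · rw [MvPolynomial.coeff_monomial, if_pos rfl]
  · intro q' _ hq'
    rw [MvPolynomial.coeff_monomial, if_neg fun h => hq' (ex_inj h)]
  · intro h
    exact absurd (mem_univ _) h

lemma coeff_pB_of_ne {i j : ℕ} (u : Bd i j → R) (m : Fin 2 →₀ ℕ) (hm : ∀ q : Bd i j, ex q ≠ m) :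
    (pB u).coeff m = 0 := by
  classical
  unfold pB
  rw [MvPolynomial.coeff_sum]
  refine Finset.sum_eq_zero fun q _ => ?_
  rw [MvPolynomial.coeff_monomial, if_neg (hm q)]

lemma ex_of_le {i j : ℕ} (m : Fin 2 →₀ ℕ) (h0 : m 0 ≤ i) (h1 : m 1 ≤ j) :
    ∃ q : Bd i j, ex q = m := by
  refine ⟨(⟨m 1, by omega⟩, ⟨m 0, by omega⟩), ?_⟩
  ext l
  fin_cases l <;> rfl

lemma eq_pB {i j : ℕ} (P : MvPolynomial (Fin 2) R) (h0 : P.degreeOf 0 ≤ i) (h1 : P.degreeOf 1 ≤ j) :
    P = pB (fun q : Bd i j => P.coeff (ex q)) := by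
  classical
  ext m
  by_cases h : ∃ q : Bd i j, ex q = m
  · obtain ⟨q, rfl⟩ := h
    rw [coeff_pB]
  · have h2 := h
    push Not at h
    rw [coeff_pB_of_ne _ m h]
    by_contra hne
    have h3 := MvPolynomial.mem_support_iff.2 hne
    exact h2 (ex_of_le m (MvPolynomial.degreeOf_le_iff.1 h0 m h3)
      (MvPolynomial.degreeOf_le_iff.1 h1 m h3))

lemma deg_pB {i j : ℕ} (u : Bd i j → R) : (pB u).degreeOf 0 ≤ i ∧ (pB u).degreeOf 1 ≤ j := by
  classical
  constructor
  · rw [MvPolynomial.degreeOf_le_iff]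
    intro m hm
    rw [MvPolynomial.mem_support_iff] at hm
    by_contra hcon
    refine hm (coeff_pB_of_ne u m fun q hq => hcon ?_)
    rw [← hq, ex_zero]
    have := q.2.isLt
    omega
  · rw [MvPolynomial.degreeOf_le_iff]
    intro m hm
    rw [MvPolynomial.mem_support_iff] at hm
    by_contra hcon
    refine hm (coeff_pB_of_ne u m fun q hq => hcon ?_)
    rw [← hq, ex_one]
    have := q.1.isLt
    omega

lemma pB_inj {i j : ℕ} : Function.Injective (pB : (Bd i j → R) → MvPolynomial (Fin 2) R) := by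
  intro u v h
  funext q
  rw [← coeff_pB u q, h, coeff_pB]

lemma pB_smul {i j : ℕ} (c : R) (u : Bd i j → R) :
    pB (fun q => c * u q) = MvPolynomial.C c * pB u := by
  unfold pB
  rw [Finset.mul_sum]
  refine Finset.sum_congr rfl fun q _ => ?_
  rw [MvPolynomial.C_mul_monomial]

lemma eval_pB {a b : ℕ} (w : Ix a b → ℤ) (x y : ℤ) :
    MvPolynomial.eval ![x, y] (pB (i := a + 2) (j := b + 2) w) = G w x y := by
  unfold pB G
  rw [map_sum]
  refine Finset.sum_congr rfl fun q _ => ?_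
  rw [MvPolynomial.eval_monomial, Finsupp.prod_fintype _ _ (fun i => pow_zero _),
    Fin.prod_univ_two, ex_zero, ex_one]
  simp only [Matrix.cons_val_zero, Matrix.cons_val_one]
  ring

/-- the coefficients of the polynomial with given coefficients -/
lemma abs_coeff_pB {a b : ℕ} (w : Ix a b → ℤ) (H : ℕ) :
    (∀ m, |(pB (i := a + 2) (j := b + 2) w).coeff m| ≤ (H : ℤ)) ↔ ∀ p, |w p| ≤ (H : ℤ) := by
  constructor
  · intro h p
    have := h (ex (i := a + 2) (j := b + 2) p)
    rwa [coeff_pB] at this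
  · intro h m
    by_cases hm : ∃ q : Bd (a + 2) (b + 2), ex q = m
    · obtain ⟨q, rfl⟩ := hm
      rw [coeff_pB]
      exact h q
    · push Not at hm
      rw [coeff_pB_of_ne _ m hm, abs_zero]
      positivity

/-- counting polynomials is counting coefficient vectors -/
lemma ncard_pol (a b H : ℕ) (C : MvPolynomial (Fin 2) ℤ → Prop) :
    Set.ncard {F : MvPolynomial (Fin 2) ℤ | (F.degreeOf 0 ≤ a + 2 ∧ F.degreeOf 1 ≤ b + 2 ∧
      ∀ m, |F.coeff m| ≤ (H : ℤ)) ∧ C F} =
    Set.ncard {w : Ix a b → ℤ | w ∈ box (Ix a b) H ∧ C (pB (i := a + 2) (j := b + 2) w)} := by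
  have h1 : {F : MvPolynomial (Fin 2) ℤ | (F.degreeOf 0 ≤ a + 2 ∧ F.degreeOf 1 ≤ b + 2 ∧
      ∀ m, |F.coeff m| ≤ (H : ℤ)) ∧ C F} =
      (fun w : Ix a b → ℤ => pB (i := a + 2) (j := b + 2) w) ''
        {w : Ix a b → ℤ | w ∈ box (Ix a b) H ∧ C (pB (i := a + 2) (j := b + 2) w)} := by
    ext F
    constructor
    · rintro ⟨⟨h1, h2, h3⟩, h4⟩
      have h5 := eq_pB F h1 h2
      rw [h5] at h3 h4
      refine ⟨_, ⟨mem_box.2 ((abs_coeff_pB _ H).1 h3), h4⟩, h5.symm⟩
    · rintro ⟨w, ⟨h1, h2⟩, rfl⟩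
      exact ⟨⟨(deg_pB _).1, (deg_pB _).2, (abs_coeff_pB w H).2 (mem_box.1 h1)⟩, h2⟩
  rw [h1, Set.ncard_image_of_injective _ pB_inj]

/-! ### reducible polynomials -/

open Pool.Agent.N415.PC in
/-- a nonconstant reducible polynomial is a product -/
lemma factorB (F : MvPolynomial (Fin 2) ℤ) {A B : ℕ} (hA : F.degreeOf 0 ≤ A)
    (hB : F.degreeOf 1 ≤ B) (hF : 0 < F.totalDegree)
    (h : ¬ Irreducible (MvPolynomial.map (Int.castRingHom ℚ) F)) :
    ∃ i j : ℕ, i ≤ A ∧ j ≤ B ∧ i + j ≠ 0 ∧ (A - i) + (B - j) ≠ 0 ∧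
      ∃ P K : MvPolynomial (Fin 2) ℤ, F = P * K ∧ P.degreeOf 0 ≤ i ∧ P.degreeOf 1 ≤ j ∧
        K.degreeOf 0 ≤ A - i ∧ K.degreeOf 1 ≤ B - j := by
  obtain ⟨P, K, e1, e2, e3, _⟩ := factor F hF h
  have hP0 : P ≠ 0 := fun h0 => by
    rw [h0, MvPolynomial.totalDegree_zero] at e2
    exact absurd e2 (lt_irrefl _)
  have hK0 : K ≠ 0 := fun h0 => by
    rw [h0, MvPolynomial.totalDegree_zero] at e3
    exact absurd e3 (lt_irrefl _)
  have d0 := MvPolynomial.degreeOf_mul_eq (n := 0) hP0 hK0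
  have d1 := MvPolynomial.degreeOf_mul_eq (n := 1) hP0 hK0
  rw [← e1] at d0 d1
  have key : ∀ Q : MvPolynomial (Fin 2) ℤ, 0 < Q.totalDegree →
      Q.degreeOf 0 + Q.degreeOf 1 ≠ 0 := by
    intro Q hQ hd
    have hd0 : Q.degreeOf 0 = 0 := by omega
    have hd1 : Q.degreeOf 1 = 0 := by omega
    have h2 : Q.totalDegree = 0 := by
      rw [MvPolynomial.totalDegree_eq_zero_iff]
      intro m hm i
      have a0 := MvPolynomial.degreeOf_le_iff.1 hd0.le m hm
      have a1 := MvPolynomial.degreeOf_le_iff.1 hd1.le m hm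
      fin_cases i
      · simpa using a0
      · simpa using a1
    omega
  have kP := key P e2
  have kK := key K e3
  exact ⟨P.degreeOf 0, P.degreeOf 1, by omega, by omega, kP, by omega, P, K, e1, le_rfl, le_rfl,
    by omega, by omega⟩

open Classical in
/-- the coefficient vectors modulo `p` of the products of polynomials of given bidegrees -/
noncomputable def PP (A B p i j : ℕ) [NeZero p] : Finset (Bd A B → ZMod p) :=
  ((univ : Finset ((Bd i j → ZMod p) × (Bd (A - i) (B - j) → ZMod p))).filter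
    fun uv => (fun q : Bd A B => (pB uv.1 * pB uv.2).coeff (ex q)) ≠ 0).image
      fun uv => fun q : Bd A B => (pB uv.1 * pB uv.2).coeff (ex q)

lemma dims {A B i j : ℕ} (hA : 2 ≤ A) (hB : 2 ≤ B) (hi : i ≤ A) (hj : j ≤ B) (h1 : i + j ≠ 0)
    (h2 : (A - i) + (B - j) ≠ 0) :
    (j + 1) * (i + 1) + ((B - j) + 1) * ((A - i) + 1) + 1 ≤ (B + 1) * (A + 1) := by
  obtain ⟨i', hi'⟩ : ∃ i', i' = A - i := ⟨_, rfl⟩
  obtain ⟨j', hj'⟩ : ∃ j', j' = B - j := ⟨_, rfl⟩
  rw [← hi', ← hj'] at h2 ⊢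
  have eA : A = i + i' := by omega
  have eB : B = j + j' := by omega
  subst eA
  subst eB
  have key : 2 ≤ i * j' + i' * j := by
    rcases Nat.eq_zero_or_pos i with h | h
    · subst h
      have hj0 : 1 ≤ j := by omega
      have : 2 ≤ i' := by omega
      nlinarith
    · rcases Nat.eq_zero_or_pos j' with h3 | h3
      · subst h3
        have : 1 ≤ i' := by omega
        have : 2 ≤ j := by omega
        nlinarith
      · rcases Nat.eq_zero_or_pos i' with h4 | h4
        · subst h4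
          have : 2 ≤ i := by omega
          nlinarith
        · rcases Nat.eq_zero_or_pos j with h5 | h5
          · subst h5
            have : 2 ≤ j' := by omega
            nlinarith
          · nlinarith
  nlinarith

lemma card_PP {A B p i j : ℕ} [NeZero p] (hp : p.Prime) (hA : 2 ≤ A) (hB : 2 ≤ B) (hi : i ≤ A)
    (hj : j ≤ B) (h1 : i + j ≠ 0) (h2 : (A - i) + (B - j) ≠ 0) :
    (PP A B p i j).card ≤ 2 * p ^ ((B + 1) * (A + 1) - 2) := by
  classical
  have : Fact p.Prime := ⟨hp⟩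
  unfold PP
  have key := mul_card_image_le_card (f := fun uv : (Bd i j → ZMod p) ×
      (Bd (A - i) (B - j) → ZMod p) => fun q : Bd A B => (pB uv.1 * pB uv.2).coeff (ex q))
    ((univ : Finset ((Bd i j → ZMod p) × (Bd (A - i) (B - j) → ZMod p))).filter
      fun uv => (fun q : Bd A B => (pB uv.1 * pB uv.2).coeff (ex q)) ≠ 0) (p - 1) (by
    intro z hz
    rw [mem_image] at hz
    obtain ⟨⟨u, v⟩, huv, rfl⟩ := hz
    rw [mem_filter] at huv
    have hu0 : u ≠ 0 := by
      intro h0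
      apply huv.2
      funext q
      simp only
      have : pB u = 0 := by
        rw [h0]
        unfold pB
        simp
      rw [this, zero_mul, MvPolynomial.coeff_zero]
      rfl
    obtain ⟨q0, hq0⟩ : ∃ q0, u q0 ≠ 0 := by
      by_contra hcon
      push Not at hcon
      exact hu0 (funext hcon)
    rw [← ZMod.card_units_eq_totient p |>.trans (Nat.totient_prime hp), ← card_univ]
    refine card_le_card_of_injOn (fun c : (ZMod p)ˣ => ((fun q => (c : ZMod p) * u q,
      fun q => ((c⁻¹ : (ZMod p)ˣ) : ZMod p) * v q) :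
        (Bd i j → ZMod p) × (Bd (A - i) (B - j) → ZMod p))) ?_ ?_
    · intro c _
      have e1 : pB (fun q => (c : ZMod p) * u q) * pB (fun q => ((c⁻¹ : (ZMod p)ˣ) : ZMod p) * v q) =
          pB u * pB v := by
        rw [pB_smul, pB_smul]
        have : (MvPolynomial.C (c : ZMod p) : MvPolynomial (Fin 2) (ZMod p)) *
            MvPolynomial.C ((c⁻¹ : (ZMod p)ˣ) : ZMod p) = 1 := by
          rw [← MvPolynomial.C_mul, Units.mul_inv, MvPolynomial.C_1]
        linear_combination (pB u * pB v) * this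
      rw [mem_coe, mem_filter, mem_filter]
      simp only [e1]
      exact ⟨⟨mem_univ _, huv.2⟩, trivial⟩
    · intro c _ c' _ h
      have h3 := congrFun (congrArg Prod.fst h) q0
      simp only at h3
      exact Units.ext (mul_right_cancel₀ hq0 h3))
  have h3 : ((univ : Finset ((Bd i j → ZMod p) × (Bd (A - i) (B - j) → ZMod p))).filter
      fun uv => (fun q : Bd A B => (pB uv.1 * pB uv.2).coeff (ex q)) ≠ 0).card ≤
      p ^ ((B + 1) * (A + 1) - 1) := by
    refine (card_filter_le _ _).trans ?_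
    rw [card_univ, Fintype.card_prod, Fintype.card_fun, Fintype.card_fun, ZMod.card, ← pow_add]
    refine Nat.pow_le_pow_right hp.pos ?_
    rw [Fintype.card_prod, Fintype.card_prod, Fintype.card_fin, Fintype.card_fin,
      Fintype.card_fin, Fintype.card_fin]
    have := dims hA hB hi hj h1 h2
    omega
  have h4 := key.trans h3
  have h9 : 9 ≤ (B + 1) * (A + 1) := by nlinarith
  have h5 : p ^ ((B + 1) * (A + 1) - 1) = p * p ^ ((B + 1) * (A + 1) - 2) := by
    rw [← pow_succ']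
    congr 1
    omega
  rw [h5] at h4
  obtain ⟨r, hr⟩ : ∃ r, p = r + 1 := ⟨p - 1, by have := hp.pos; omega⟩
  have hr1 : 1 ≤ r := by have := hp.two_le; omega
  obtain ⟨c, hc⟩ : ∃ c, c = (((univ : Finset ((Bd i j → ZMod p) ×
    (Bd (A - i) (B - j) → ZMod p))).filter
      fun uv => (fun q : Bd A B => (pB uv.1 * pB uv.2).coeff (ex q)) ≠ 0).image
        fun uv => fun q : Bd A B => (pB uv.1 * pB uv.2).coeff (ex q)).card := ⟨_, rfl⟩
  obtain ⟨Z, hZ⟩ : ∃ Z, Z = p ^ ((B + 1) * (A + 1) - 2) := ⟨_, rfl⟩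
  rw [← hc, ← hZ] at h4 ⊢
  rw [show p - 1 = r by omega, hr] at h4
  have h6 : r * c ≤ r * (2 * Z) := by nlinarith
  exact Nat.le_of_mul_le_mul_left h6 hr1

open Pool.Agent.N415.PC in
/-- reducible polynomials are few -/
theorem red_few (a b : ℕ) : ∃ C : ℝ, 0 ≤ C ∧ ∀ H : ℕ, 1 ≤ H → ∀ S : Finset (Ix a b → ℤ),
    S ⊆ box (Ix a b) H → (∀ w ∈ S, 0 < (pB (i := a + 2) (j := b + 2) w).totalDegree ∧
      ¬ Irreducible (MvPolynomial.map (Int.castRingHom ℚ) (pB (i := a + 2) (j := b + 2) w))) →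
    (S.card : ℝ) ≤ C * (2 * (H : ℝ) + 1) ^ (Fintype.card (Ix a b) - 2) := by
  classical
  obtain ⟨m, hm⟩ : ∃ m, m = Fintype.card (Ix a b) := ⟨_, rfl⟩
  refine ⟨((a + 3) * (b + 3)) * 2 * 2 ^ m, by positivity, ?_⟩
  rw [← hm]
  intro H hH S hS hred
  obtain ⟨p, hp, hHp, hpH⟩ := Nat.exists_prime_lt_and_le_two_mul H (by omega)
  have : NeZero p := ⟨hp.ne_zero⟩
  have : Fact p.Prime := ⟨hp⟩
  have hinj : ∀ n n' : ℤ, |n| ≤ H → |n'| ≤ H → ((n : ℤ) : ZMod p) = ((n' : ℤ) : ZMod p) →
      ((0 ≤ n) ↔ (0 ≤ n')) → n = n' := by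
    intro n n' h1 h2 h3 h4
    rw [ZMod.intCast_eq_intCast_iff_dvd_sub] at h3
    obtain ⟨t, ht⟩ := h3
    rw [abs_le] at h1 h2
    have hpZ : (H : ℤ) < p := by exact_mod_cast hHp
    have h5 : |n' - n| < p := by
      rw [abs_lt]
      by_cases h6 : 0 ≤ n
      · have h7 := h4.1 h6
        constructor <;> linarith
      · have h7 : ¬ 0 ≤ n' := fun h8 => h6 (h4.2 h8)
        push Not at h6 h7
        constructor <;> linarith
    have h6 : n' - n = 0 := Int.eq_zero_of_abs_lt_dvd ⟨t, ht⟩ h5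
    linarith
  obtain ⟨TT, hTT⟩ : ∃ TT : Finset (Bd (a + 2) (b + 2) → ZMod p), TT =
      (((range (a + 3)) ×ˢ (range (b + 3))).filter fun ij => ij.1 + ij.2 ≠ 0 ∧
        (a + 2 - ij.1) + (b + 2 - ij.2) ≠ 0).biUnion fun ij =>
          PP (a + 2) (b + 2) p ij.1 ij.2 := ⟨_, rfl⟩
  have hTTc : TT.card ≤ ((a + 3) * (b + 3)) * (2 * p ^ (m - 2)) := by
    rw [hTT]
    refine card_biUnion_le.trans ?_
    refine (sum_le_card_nsmul _ _ (2 * p ^ (m - 2)) ?_).trans ?_
    · intro ij hij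
      rw [mem_filter, mem_product, mem_range, mem_range] at hij
      have h1 := card_PP (A := a + 2) (B := b + 2) (p := p) hp (by omega) (by omega)
        (by omega : ij.1 ≤ a + 2) (by omega : ij.2 ≤ b + 2) hij.2.1 hij.2.2
      rw [hm, card_Ix]
      exact h1
    · rw [smul_eq_mul]
      refine Nat.mul_le_mul_right _ ((card_filter_le _ _).trans ?_)
      rw [card_product, card_range, card_range]
  have hmem : ∀ w ∈ S, (fun q : Bd (a + 2) (b + 2) => ((w q : ℤ) : ZMod p)) ∈ TT := by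
    intro w hw
    obtain ⟨h1, h2⟩ := hred w hw
    have hd := deg_pB (i := a + 2) (j := b + 2) w
    obtain ⟨i, j, hi, hj, n1, n2, P, K, e1, k1, k2, k3, k4⟩ := factorB _ hd.1 hd.2 h1 h2
    rw [hTT, mem_biUnion]
    refine ⟨(i, j), mem_filter.2 ⟨mem_product.2 ⟨mem_range.2 (by simp only; omega),
      mem_range.2 (by simp only; omega)⟩, n1, n2⟩, ?_⟩
    have hdm : ∀ (Q : MvPolynomial (Fin 2) ℤ) (l : Fin 2),
        (MvPolynomial.map (Int.castRingHom (ZMod p)) Q).degreeOf l ≤ Q.degreeOf l := by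
      intro Q l
      rw [MvPolynomial.degreeOf_le_iff]
      intro n hn
      exact MvPolynomial.degreeOf_le_iff.1 le_rfl n (MvPolynomial.support_map_subset _ _ hn)
    have hco : (fun q : Bd (a + 2) (b + 2) => ((w q : ℤ) : ZMod p)) =
        fun q : Bd (a + 2) (b + 2) =>
          (MvPolynomial.map (Int.castRingHom (ZMod p)) P *
            MvPolynomial.map (Int.castRingHom (ZMod p)) K).coeff (ex q) := by
      funext q
      rw [← map_mul, ← e1, MvPolynomial.coeff_map, coeff_pB]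
      rfl
    unfold PP
    rw [mem_image]
    refine ⟨(fun q => (MvPolynomial.map (Int.castRingHom (ZMod p)) P).coeff (ex q),
      fun q => (MvPolynomial.map (Int.castRingHom (ZMod p)) K).coeff (ex q)), ?_, ?_⟩
    · rw [mem_filter]
      refine ⟨mem_univ _, ?_⟩
      simp only
      rw [← eq_pB (i := i) (j := j) _ ((hdm _ _).trans k1) ((hdm _ _).trans k2),
        ← eq_pB (i := a + 2 - i) (j := b + 2 - j) _ ((hdm _ _).trans k3) ((hdm _ _).trans k4),
        ← hco]
      intro h0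
      have hw0 : ∀ q, w q = 0 := by
        intro q
        have h3 := congrFun h0 q
        simp only [Pi.zero_apply] at h3
        rw [ZMod.intCast_zmod_eq_zero_iff_dvd] at h3
        have h4 := mem_box.1 (hS hw) q
        have hpZ : (H : ℤ) < p := by exact_mod_cast hHp
        exact Int.eq_zero_of_abs_lt_dvd h3 (by omega)
      have h5 : pB (i := a + 2) (j := b + 2) w = 0 := by
        have : w = 0 := funext hw0
        rw [this]
        unfold pB
        simp
      rw [h5, MvPolynomial.totalDegree_zero] at h1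
      exact absurd h1 (lt_irrefl _)
    · simp only
      rw [← eq_pB (i := i) (j := j) _ ((hdm _ _).trans k1) ((hdm _ _).trans k2),
        ← eq_pB (i := a + 2 - i) (j := b + 2 - j) _ ((hdm _ _).trans k3) ((hdm _ _).trans k4),
        hco]
  have h1 : S.card ≤ (TT ×ˢ (univ : Finset (Ix a b → Bool))).card := by
    refine card_le_card_of_injOn
      (fun w => ((fun q : Bd (a + 2) (b + 2) => ((w q : ℤ) : ZMod p)),
        fun q => decide (0 ≤ w q))) ?_ ?_
    · intro w hw
      rw [mem_coe] at hw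
      simp only [coe_product, coe_univ, Set.mem_prod, Set.mem_univ, and_true]
      exact hmem w hw
    · intro w hw v hv hab
      rw [mem_coe] at hw hv
      simp only [Prod.mk.injEq] at hab
      funext q
      have h2 := mem_box.1 (hS hw) q
      have h3 := mem_box.1 (hS hv) q
      refine hinj (w q) (v q) h2 h3 (congrFun hab.1 q) ?_
      have h4 := congrFun hab.2 q
      simpa using h4
  rw [card_product, card_univ, Fintype.card_fun, Fintype.card_bool, ← hm] at h1
  have h3 : (S.card : ℝ) ≤ (((a + 3) * (b + 3)) * (2 * p ^ (m - 2))) * 2 ^ m := by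
    have h4 : S.card ≤ (((a + 3) * (b + 3)) * (2 * p ^ (m - 2))) * 2 ^ m :=
      h1.trans (Nat.mul_le_mul_right _ hTTc)
    exact_mod_cast h4
  refine h3.trans ?_
  have h5 : (p : ℝ) ^ (m - 2) ≤ (2 * (H : ℝ) + 1) ^ (m - 2) := by
    apply pow_le_pow_left₀ (Nat.cast_nonneg p)
    have h6 : (p : ℝ) ≤ 2 * H := by exact_mod_cast hpH
    linarith
  calc (((a : ℝ) + 3) * (b + 3) * (2 * (p : ℝ) ^ (m - 2))) * 2 ^ m ≤
      (((a : ℝ) + 3) * (b + 3) * (2 * (2 * (H : ℝ) + 1) ^ (m - 2))) * 2 ^ m := by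
        gcongr
    _ = _ := by ring

end Pool.Agent.N656.BD
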