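import Pool.Agent.N656.LL.Fin

/-!
# Passing to a subfamily which contains all members with exactly one zero
-/

set_option autoImplicit false

open Filter Topology Finset

namespace Pool.Agent.N656.BD

open Pool.Agent.N656.LL

variable (D : Data) (N' : Set (ℤ × ℤ) → ℕ → ℝ)

include D

lemma law_sub (hle : ∀ A H, N' A H ≤ D.N A H) (hge : ∀ A H, D.N A H - D.N2 H ≤ N' A H)
    {η : ℝ} (hη : 0 < η) : ∀ᶠ H : ℕ in atTop, ∀ A : Set (ℤ × ℤ),
      |N' A H / (H : ℝ) ^ D.n - D.wt A| ≤ η := by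
  have h1 := D.law (by positivity : 0 < η / 2)
  have h2 := D.two_rare.eventually (eventually_le_nhds (by positivity : 0 < η / 2))
  filter_upwards [h1, h2, eventually_ge_atTop 1] with H e1 e2 hH A
  have hX : (0 : ℝ) < (H : ℝ) ^ D.n := by
    have : (0 : ℝ) < H := by exact_mod_cast hH
    positivity
  have h3 := abs_le.1 (e1 A)
  have h4 : N' A H / (H : ℝ) ^ D.n ≤ D.N A H / (H : ℝ) ^ D.n := by
    have := hle A H
    gcongr
  have h5 : D.N A H / (H : ℝ) ^ D.n - D.N2 H / (H : ℝ) ^ D.n ≤ N' A H / (H : ℝ) ^ D.n := by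
    rw [← sub_div]
    have := hge A H
    gcongr
  rw [abs_le]
  constructor <;> linarith [h3.1, h3.2]

lemma ratio_sub (hle : ∀ A H, N' A H ≤ D.N A H) (hge : ∀ A H, D.N A H - D.N2 H ≤ N' A H)
    {ε : ℝ} (hε : 0 < ε) : ∀ᶠ H : ℕ in atTop, ∀ A : Set (ℤ × ℤ),
    |N' A H / N' Set.univ H - D.wt A / D.wt Set.univ| ≤ ε := by
  have hc := D.wt_univ_pos
  obtain ⟨c, hcd⟩ : ∃ c, c = D.wt Set.univ := ⟨_, rfl⟩
  rw [← hcd] at hc
  obtain ⟨η, hη, hη1, hη2⟩ : ∃ η : ℝ, 0 < η ∧ η ≤ c / 2 ∧ 4 * η ≤ ε * c := by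
    refine ⟨min (c / 2) (ε * c / 4), by positivity, min_le_left _ _, ?_⟩
    have := min_le_right (c / 2) (ε * c / 4)
    linarith
  filter_upwards [law_sub D N' hle hge hη, eventually_ge_atTop 1] with H hH hH1 A
  have hX : (0 : ℝ) < (H : ℝ) ^ D.n := by
    have : (0 : ℝ) < H := by exact_mod_cast hH1
    positivity
  obtain ⟨a, ha⟩ : ∃ a, a = N' A H / (H : ℝ) ^ D.n := ⟨_, rfl⟩
  obtain ⟨u, hu⟩ : ∃ u, u = N' Set.univ H / (H : ℝ) ^ D.n := ⟨_, rfl⟩
  have h1 := hH A
  have h2 := hH Set.univ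
  rw [← ha] at h1
  rw [← hu, ← hcd] at h2
  have h3 : N' A H / N' Set.univ H = a / u := by
    rw [ha, hu, div_div_div_cancel_right₀ hX.ne']
  rw [h3, ← hcd]
  have h1' := abs_le.1 h1
  have h2' := abs_le.1 h2
  have hw0 := D.wt_nonneg A
  have hw1 : D.wt A ≤ c := by
    rw [hcd]
    exact D.wt_mono (Set.subset_univ A)
  have hu0 : c / 2 ≤ u := by linarith [h2'.1]
  have hu1 : 0 < u := by linarith
  have e1 : a / u - D.wt A / c = ((a - D.wt A) * c + D.wt A * (c - u)) / (u * c) := by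
    field_simp
    ring
  rw [e1, abs_div, abs_of_pos (by positivity : 0 < u * c), div_le_iff₀ (by positivity)]
  calc |(a - D.wt A) * c + D.wt A * (c - u)| ≤ |(a - D.wt A) * c| + |D.wt A * (c - u)| :=
        abs_add_le _ _
    _ = |a - D.wt A| * c + D.wt A * |c - u| := by
        rw [abs_mul, abs_mul, abs_of_pos hc, abs_of_nonneg hw0]
    _ ≤ η * c + c * η := by
        have h4 : |c - u| ≤ η := by rw [abs_sub_comm]; exact h2
        gcongr
    _ ≤ ε * (u * c) := by nlinarith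

lemma lim_sub (hle : ∀ A H, N' A H ≤ D.N A H) (hge : ∀ A H, D.N A H - D.N2 H ≤ N' A H)
    (A : Set (ℤ × ℤ)) :
    Tendsto (fun H : ℕ => N' A H / (H : ℝ) ^ D.n) atTop (𝓝 (D.wt A)) := by
  rw [Metric.tendsto_nhds]
  intro η hη
  filter_upwards [law_sub D N' hle hge (by positivity : 0 < η / 2)] with H hH
  rw [Real.dist_eq]
  have := hH A
  linarith

/-- quotients by the number of the members with a zero -/
lemma div_sub (hle : ∀ A H, N' A H ≤ D.N A H) (hge : ∀ A H, D.N A H - D.N2 H ≤ N' A H)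
    (E : ℕ → ℝ) (hE : Tendsto (fun H : ℕ => E H / (H : ℝ) ^ D.n) atTop (𝓝 0)) :
    Tendsto (fun H : ℕ => E H / N' Set.univ H) atTop (𝓝 0) := by
  have h1 := hE.div (lim_sub D N' hle hge Set.univ) D.wt_univ_pos.ne'
  rw [zero_div] at h1
  refine h1.congr' ?_
  filter_upwards [eventually_ge_atTop 1] with H hH1
  have hX : (0 : ℝ) < (H : ℝ) ^ D.n := by
    have : (0 : ℝ) < H := by exact_mod_cast hH1
    positivity
  simp only [Pi.div_apply]
  rw [div_div_div_cancel_right₀ hX.ne']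

/-- **Bound functions.** -/
theorem bound_iff_sub (hle : ∀ A H, N' A H ≤ D.N A H)
    (hge : ∀ A H, D.N A H - D.N2 H ≤ N' A H) (h0 : ∀ A H, 0 ≤ N' A H)
    (hmono : ∀ A B : Set (ℤ × ℤ), A ⊆ B → ∀ H, N' A H ≤ N' B H) (B : ℕ → ℕ) :
    Tendsto (fun H : ℕ => N' (Data.big (B H)) H / N' Set.univ H) atTop (𝓝 0) ↔
      Tendsto B atTop atTop := by
  have hc := D.wt_univ_pos
  constructor
  · intro h
    rw [tendsto_atTop]
    intro T
    have h1 : 0 < D.wt (Data.big T) := by
      apply D.wt_pos (P := ((T : ℤ) + 1, 0))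
      show T < sz ((T : ℤ) + 1, 0)
      unfold sz
      omega
    obtain ⟨q, hq⟩ : ∃ q, q = D.wt (Data.big T) / D.wt Set.univ := ⟨_, rfl⟩
    have hq0 : 0 < q := by rw [hq]; positivity
    have h2 : ∀ᶠ H : ℕ in atTop, N' (Data.big (B H)) H / N' Set.univ H < q / 2 := by
      have h3 := h.eventually (gt_mem_nhds (by positivity : (0 : ℝ) < q / 2))
      exact h3
    filter_upwards [h2, ratio_sub D N' hle hge (by positivity : 0 < q / 2)] with H h3 h4
    by_contra h5
    rw [not_le] at h5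
    have h6 := (abs_le.1 (h4 (Data.big T))).1
    rw [← hq] at h6
    have h7 : N' (Data.big T) H ≤ N' (Data.big (B H)) H := by
      apply hmono
      intro P hP
      have hP' : T < sz P := hP
      show B H < sz P
      omega
    have h8 : N' (Data.big T) H / N' Set.univ H ≤ N' (Data.big (B H)) H / N' Set.univ H := by
      have := h0 Set.univ H
      gcongr
    linarith
  · intro h
    rw [Metric.tendsto_nhds]
    intro η hη
    obtain ⟨T, hT⟩ := D.exists_T (by positivity : 0 < D.wt Set.univ * (η / 4))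
    filter_upwards [h.eventually (eventually_ge_atTop T),
      ratio_sub D N' hle hge (by positivity : 0 < η / 4)] with H h1 h2
    have h3 : N' (Data.big (B H)) H ≤ N' (Data.big T) H := by
      apply hmono
      intro P hP
      have hP' : B H < sz P := hP
      show T < sz P
      omega
    have h4 : N' (Data.big (B H)) H / N' Set.univ H ≤ N' (Data.big T) H / N' Set.univ H := by
      have := h0 Set.univ H
      gcongr
    have h5 := (abs_le.1 (h2 (Data.big T))).2
    have h6 : D.wt (Data.big T) / D.wt Set.univ ≤ η / 4 := by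
      rw [div_le_iff₀ hc]
      have := D.wt_tail T
      linarith
    have h7 : 0 ≤ N' (Data.big (B H)) H / N' Set.univ H :=
      div_nonneg (h0 _ _) (h0 _ _)
    rw [Real.dist_eq, sub_zero, abs_of_nonneg h7]
    linarith

end Pool.Agent.N656.BD
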